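import Pool.Agent.P8H40.CY.Stm2

/-!
# Project CY: relations over other fibres
-/

set_option autoImplicit false

open Module

namespace Pool.Agent.P8H40.CY

open Pool.Agent.Y124.TD Pool.Agent.Y124.TG Pool.Agent.Y120.GH Pool.Agent.Y124.TL Pool.Agent.P8H40.SE

/-- a group with a polynomial relation -/
lemma gr_poly (σ : Type) [Fintype σ] (a δ c e : ℕ) : ∃ c' : ℕ, ∀ (K : IntermediateField ℚ ℂ) (W : Submodule K ℂ),
    (1 : ℂ) ∈ W → GR c e W → ∀ w : σ → ℂ, Rel W a δ w →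
      ∃ W' : Submodule K ℂ, W ≤ W' ∧ (∀ x, w x ∈ W') ∧ GR c' (e + (Fintype.card σ - 1)) W' := by
  classical
  obtain ⟨c', hc'⟩ := gr_group δ a (Fintype.card σ) c e
  refine ⟨c', fun K W h1 hG w hrel => ?_⟩
  obtain ⟨P, hP0, hPd, hPc, hPe⟩ := hrel
  let es : Fin (Fintype.card σ) ≃ σ := (Fintype.equivFin σ).symm
  let us : (Fin (Fintype.card σ) → Fin (δ + 1)) → (σ →₀ ℕ) := fun s => Finsupp.equivFunOnFinite.symm fun x => (s (es.symm x) : ℕ)
  have hus : Function.Injective us := by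
    intro s s' hss
    funext i
    have h5 := DFunLike.congr_fun hss (es i)
    have h6 : (s (es.symm (es i)) : ℕ) = (s' (es.symm (es i)) : ℕ) := h5
    rw [Equiv.symm_apply_apply] at h6
    exact Fin.ext h6
  have hsurj : ∀ (u : σ →₀ ℕ), P.coeff u ≠ 0 → ∃ s, us s = u := by
    intro u hu
    have hdeg : ∀ x, u x ≤ δ := fun x =>
      (MvPolynomial.monomial_le_degreeOf x (MvPolynomial.mem_support_iff.2 hu)).trans (hPd x)
    refine ⟨fun i => ⟨u (es i), Nat.lt_succ_of_le (hdeg _)⟩, ?_⟩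
    ext x
    show (u (es (es.symm x)) : ℕ) = u x
    rw [Equiv.apply_symm_apply]
  obtain ⟨-, W₁, hW₁, hYW, hG₁⟩ := hc' K W h1 hG (fun i => w (es i)) (fun s => P.coeff (us s)) (fun s => hPc _) (by
      obtain ⟨u, hu⟩ := MvPolynomial.ne_zero_iff.1 hP0
      obtain ⟨s, rfl⟩ := hsurj u hu
      exact ⟨s, hu⟩) (by
      have h5 := hPe
      rw [MvPolynomial.eval_eq'] at h5
      rw [← h5, eq_comm]
      have hsub : P.support ⊆ Finset.univ.image us := by
        intro u hu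
        obtain ⟨s, hs⟩ := hsurj u (MvPolynomial.mem_support_iff.1 hu)
        exact Finset.mem_image.2 ⟨s, Finset.mem_univ _, hs⟩
      rw [Finset.sum_subset hsub, Finset.sum_image fun s _ s' _ hss => hus hss]
      · refine Finset.sum_congr rfl fun s _ => ?_
        congr 1
        rw [← Equiv.prod_comp es]
        refine Finset.prod_congr rfl fun i _ => ?_
        show w (es i) ^ (s (es.symm (es i)) : ℕ) = _
        rw [Equiv.symm_apply_apply]
      · intro u _ hu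
        rw [MvPolynomial.notMem_support_iff.1 hu, zero_mul])
  refine ⟨W₁, hW₁, fun x => ?_, hG₁⟩
  have h5 := hYW (es.symm x)
  simp only [Equiv.apply_symm_apply] at h5
  exact h5

theorem grc : S_GRC := by
  intro σ _ a δ s
  induction s with
  | zero =>
    intro c e
    refine ⟨c, fun K W h1 hG Y _ => ⟨W, le_rfl, fun i => i.elim0, ?_⟩⟩
    rw [zero_mul, add_zero]
    exact hG
  | succ s ih =>
    intro c e
    obtain ⟨c₁, hc₁⟩ := gr_poly σ a δ c e
    obtain ⟨c₂, hc₂⟩ := ih c₁ (e + (Fintype.card σ - 1))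
    refine ⟨c₂, fun K W h1 hG Y hY => ?_⟩
    obtain ⟨W₁, hW₁, hY₁, hG₁⟩ := hc₁ K W h1 hG (Y 0) (hY 0 W le_rfl (fun j hj => absurd hj (Fin.not_lt_zero j)))
    obtain ⟨W₂, hW₂, hY₂, hG₂⟩ := hc₂ K W₁ (hW₁ h1) hG₁ (fun i => Y i.succ) (fun i W' hW' hj =>
      hY i.succ W' (hW₁.trans hW') (fun j => by
        refine Fin.cases (fun _ x => ?_) (fun j' hj' x => ?_) j
        · exact hW' (hY₁ x)
        · exact hj j' (Fin.succ_lt_succ_iff.1 hj') x))
    refine ⟨W₂, hW₁.trans hW₂, fun i => Fin.cases (fun x => hW₂ (hY₁ x)) (fun i' x => hY₂ i' x) i, ?_⟩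
    have h9 : e + (Fintype.card σ - 1) + s * (Fintype.card σ - 1) = e + (s + 1) * (Fintype.card σ - 1) := by ring
    rwa [h9] at hG₂

theorem clt : S_CLT := by
  classical
  intro r₀ T A h hF V _ T₀ hT
  obtain ⟨R, hR⟩ := base_window hF T₀ hT
  refine ⟨R, fun σ _ hσ r a δ e D N₀ => ?_⟩
  set q := Fintype.card σ with hq
  obtain ⟨c', hc'⟩ := grc σ a δ (r + 2) D (0 + r + N₀ * q)
  rw [← hq] at hc'
  obtain ⟨N, hN⟩ := gr_li' c' (0 + r + N₀ * q + (r + 2) * (q - 1) + 1) ((N₀ + (r + 2)) * q) (e * (N₀ + (r + 2)) + 1) (by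
    obtain ⟨q', hq'⟩ : ∃ q', q = q' + 1 := ⟨q - 1, by omega⟩
    rw [hq', Nat.add_sub_cancel]
    have h2 : (N₀ + (r + 2)) * (q' + 1) = N₀ * (q' + 1) + (r + 2) * q' + (r + 2) := by ring
    omega)
  obtain ⟨c, M₁, hc, hbase⟩ := hR (N₀ + (r + 2)) N
  refine ⟨c, M₁ + 1, hc, fun M hM θ u b hm hsep K hfin hrk w hdom hE => ?_⟩
  let φ : Fin (N₀ + (r + 2)) ≃ Fin N₀ ⊕ Fin (r + 2) := finSumFinEquiv.symm
  obtain ⟨t, ht, hLI⟩ := hbase M (by omega) (fun i => Sum.elim u b (φ i)) (fun i => hm _) (fun i j hij =>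
    hsep (φ i) (φ j) (fun h => hij (φ.injective h)))
  have hmpos : ∀ x, 0 < Sum.elim u b x := fun x => by
    have := (hm x).1
    omega
  have h10 : (1 : ℂ) ∈ (1 : Submodule K ℂ) := Submodule.one_le.1 le_rfl
  obtain ⟨W₀, hW₀, hθW, hG₀⟩ := gr_fam D r 0 (1 : Submodule K ℂ) h10 (gr_one hrk) θ
  have h1W : (1 : ℂ) ∈ W₀ := hW₀ h10
  let es : Fin q ≃ σ := (Fintype.equivFin σ).symm
  obtain ⟨W₀', hW₀', huW, hG₀'⟩ := gr_fam D (N₀ * q) (0 + r) W₀ h1W hG₀
    (fun i => w (u (finProdFinEquiv.symm i).1) (es (finProdFinEquiv.symm i).2))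
  have h1W' : (1 : ℂ) ∈ W₀' := hW₀' h1W
  have huW' : ∀ l j, w (u l) j ∈ W₀' := fun l j => by
    have h5 := huW (finProdFinEquiv (l, es.symm j))
    simp only [Equiv.symm_apply_apply, Equiv.apply_symm_apply] at h5
    exact h5
  obtain ⟨W₁, hW₁, hbW, hG₁⟩ := hc' K W₀' h1W' hG₀' (fun i => w (b i)) (fun i W' hW' hj =>
    hE i W' (hW' h1W') (fun i => hW' (hW₀' (hθW i))) (fun l j => hW' (huW' l j)) (fun i' hi' j => hj i' hi' j))
  have h11 : (1 : ℂ) ∈ W₁ := hW₁ h1W'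
  have hG₂ := gr_trans h11 hG₁ ((Real.log t : ℝ) : ℂ)
  set W₂ := W₁ ⊔ Submodule.span K {((Real.log t : ℝ) : ℂ)} with hW₂
  have h12 : (1 : ℂ) ∈ W₂ := Submodule.mem_sup_left h11
  have hwW : ∀ x j, w (Sum.elim u b x) j ∈ W₂ := fun x j => by
    rcases x with l | i
    · exact Submodule.mem_sup_left (hW₁ (huW' l j))
    · exact Submodule.mem_sup_left (hbW i j)
  have hlt : ((Real.log t : ℝ) : ℂ) ∈ W₂ := Submodule.mem_sup_right (Submodule.mem_span_singleton_self _)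
  choose p hp0 hpW hpx using fun i => hdom (φ i) K W₂ h12 (hwW (φ i))
  obtain ⟨hq', hqx⟩ := Pool.Agent.Y124.TH.common p (fun i (x : Option V) => vals h T₀ (Sum.elim u b (φ i)) x) hpW hpx
  refine hN K W₂ h12 hG₂ (Fin (N₀ + (r + 2)) × Option V)
    (by rw [Fintype.card_prod, Fintype.card_option, Fintype.card_fin, hσ]) _ (∏ l, p l)
    (Finset.prod_ne_zero_iff.2 fun l _ => hp0 l) (pow_mem_mono h12 (Nat.le_succ _) hq') (fun x => ?_) hLI
  obtain ⟨i, o⟩ := x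
  rcases o with _ | v
  · show (∏ l, p l) * ((Real.log ((Sum.elim u b (φ i) : ℕ) / t) : ℝ) : ℂ) ∈ W₂ ^ (e * (N₀ + (r + 2)) + 1)
    have e1 : (0 : ℝ) < (Sum.elim u b (φ i) : ℕ) := by exact_mod_cast hmpos _
    have e2 : (0 : ℝ) < t := by exact_mod_cast ht
    rw [Real.log_div e1.ne' e2.ne', Complex.ofReal_sub, mul_sub]
    exact Submodule.sub_mem _ (pow_mem_mono h12 (Nat.le_succ _) (hqx i none))
      (pow_mem_add hq' (by rw [pow_one]; exact hlt))
  · exact pow_mem_mono h12 (Nat.le_succ _) (hqx i (some v))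

end Pool.Agent.P8H40.CY
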