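import Pool.Agent.P8H40.CY.Clash

/-!
# Project CY: tuples of fibres: at most `k (r + 1)` clusters
-/

set_option autoImplicit false

open Module

namespace Pool.Agent.P8H40.CY

open Pool.Agent.Y124.TD Pool.Agent.Y124.TG Pool.Agent.Y120.GH Pool.Agent.Y124.TL Pool.Agent.P8H40.SE

/-- **The clash** for tuples. -/
theorem clash_k {r₀ : ℕ} {T : Polynomial ℤ} {A : Fin r₀ → Fin r₀ → Polynomial ℤ} {h : Fin r₀ → PowerSeries ℚ} (hF : GF T A h)
    {V : Type} [Fintype V] (T₀ : V → Fin r₀) (hT : AlgebraicIndependent (Polynomial ℚ) (fun v => h (T₀ v))) :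
    ∃ R : ℕ, ∀ (k : ℕ) (σ : Type) [Fintype σ], 1 ≤ k → Fintype.card σ = k * (Fintype.card V + 1) →
      ∀ r a δ e₀ D : ℕ, ∃ (c : ℝ) (M₀ : ℕ), 0 < c ∧ ∀ M : ℕ, M₀ ≤ M → ∀ θ : Fin r → ℂ, ∀ m : Fin (r + 2) → Fin k → ℕ,
      (∀ g l, M ≤ m g l ∧ (m g l : ℝ) ≤ M + (M : ℝ) ^ c) →
      (∀ x y : Fin (r + 2) × Fin k, x ≠ y → (R : ℤ) ≤ |(m x.1 x.2 : ℤ) - m y.1 y.2|) →
      ∀ F : Fin (r + 2) → IntermediateField ℚ ℂ, (∀ l, FiniteDimensional ℚ (F l) ∧ finrank ℚ (F l) ≤ D) →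
      ¬ ∀ g, Exc σ a δ e₀ θ (fun x : Fin k × Option V => vals h T₀ (m g x.1) x.2) (F g) := by
  classical
  obtain ⟨R, hR⟩ := base_window hF T₀ hT
  refine ⟨R, fun k σ _ hk1 hσ r a δ e₀ D => ?_⟩
  set k' := r + 2 with hk'
  set d := Fintype.card V with hd
  set D' := D ^ k' with hD'
  set q := k * (d + 1) with hq
  have hq1 : 1 ≤ q := Nat.mul_pos hk1 (Nat.succ_pos d)
  obtain ⟨c', hc'⟩ := gr_groups δ a q k' D' (0 + r)
  obtain ⟨N, hN⟩ := gr_li' c' (0 + r + k' * (q - 1) + 1) (k' * k * (d + 1)) (e₀ * k' + 1) (by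
    obtain ⟨q', hq'⟩ : ∃ q', q = q' + 1 := ⟨q - 1, by omega⟩
    have h1 : k' * k * (d + 1) = k' * q := by rw [hq, Nat.mul_assoc]
    rw [h1, hq', Nat.add_sub_cancel, hk']
    have h2 : (r + 2) * (q' + 1) = (r + 2) * q' + (r + 2) := by ring
    omega)
  obtain ⟨c, M₁, hc, hbase⟩ := hR (k' * k) N
  refine ⟨c, M₁ + 1, hc, fun M hM θ m hm hsep F hFd hE => ?_⟩
  let φ : Fin (k' * k) ≃ Fin k' × Fin k := finProdFinEquiv.symm
  obtain ⟨t, ht, hLI⟩ := hbase M (by omega) (fun i => m (φ i).1 (φ i).2) (fun i => hm _ _) (fun i j hij =>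
    hsep (φ i) (φ j) (fun h => hij (φ.injective h)))
  have hmpos : ∀ g l, 0 < m g l := fun g l => by
    have := (hm g l).1
    omega
  choose w hw using hE
  obtain ⟨K, hFK, hfin, hrk⟩ := sup_field k' F hFd
  have h10 : (1 : ℂ) ∈ (1 : Submodule K ℂ) := Submodule.one_le.1 le_rfl
  obtain ⟨W₀, hW₀, hθW, hG₀⟩ := gr_fam D' r 0 (1 : Submodule K ℂ) h10 (gr_one hrk) θ
  have h1W : (1 : ℂ) ∈ W₀ := hW₀ h10
  choose P hP0 hPd hPc hPe using fun l => (hw l K (hFK l) W₀ h1W hθW).1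
  -- the relations
  let e : Fin q ≃ σ := (Fintype.equivFinOfCardEq hσ).symm
  let us : (Fin q → Fin (δ + 1)) → (σ →₀ ℕ) := fun s => Finsupp.equivFunOnFinite.symm fun x => (s (e.symm x) : ℕ)
  have hus : Function.Injective us := by
    intro s s' hss
    funext i
    have h5 := DFunLike.congr_fun hss (e i)
    have h6 : (s (e.symm (e i)) : ℕ) = (s' (e.symm (e i)) : ℕ) := h5
    rw [Equiv.symm_apply_apply] at h6
    exact Fin.ext h6
  have hsurj : ∀ l (u : σ →₀ ℕ), (P l).coeff u ≠ 0 → ∃ s, us s = u := by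
    intro l u hu
    have hdeg : ∀ x, u x ≤ δ := fun x =>
      (MvPolynomial.monomial_le_degreeOf x (MvPolynomial.mem_support_iff.2 hu)).trans (hPd l x)
    refine ⟨fun i => ⟨u (e i), Nat.lt_succ_of_le (hdeg _)⟩, ?_⟩
    ext x
    show (u (e (e.symm x)) : ℕ) = u x
    rw [Equiv.apply_symm_apply]
  obtain ⟨W₁, hW₁, hYW, hG₁⟩ := hc' K W₀ h1W hG₀ (fun l i => w l (e i)) (fun l s => (P l).coeff (us s))
    (fun l s => hPc l _) (fun l => by
      obtain ⟨u, hu⟩ := MvPolynomial.ne_zero_iff.1 (hP0 l)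
      obtain ⟨s, rfl⟩ := hsurj l u hu
      exact ⟨s, hu⟩) (fun l => by
      have h5 := hPe l
      rw [MvPolynomial.eval_eq'] at h5
      rw [← h5, eq_comm]
      have hsub : (P l).support ⊆ Finset.univ.image us := by
        intro u hu
        obtain ⟨s, hs⟩ := hsurj l u (MvPolynomial.mem_support_iff.1 hu)
        exact Finset.mem_image.2 ⟨s, Finset.mem_univ _, hs⟩
      rw [Finset.sum_subset hsub, Finset.sum_image fun s _ s' _ hss => hus hss]
      · refine Finset.sum_congr rfl fun s _ => ?_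
        congr 1
        rw [← Equiv.prod_comp e]
        refine Finset.prod_congr rfl fun i _ => ?_
        show w l (e i) ^ (s (e.symm (e i)) : ℕ) = _
        rw [Equiv.symm_apply_apply]
      · intro u _ hu
        rw [MvPolynomial.notMem_support_iff.1 hu, zero_mul])
  have h11 : (1 : ℂ) ∈ W₁ := hW₁ h1W
  have hG₂ := gr_trans h11 hG₁ ((Real.log t : ℝ) : ℂ)
  set W₂ := W₁ ⊔ Submodule.span K {((Real.log t : ℝ) : ℂ)} with hW₂
  have h12 : (1 : ℂ) ∈ W₂ := Submodule.mem_sup_left h11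
  have hwW : ∀ l j, w l j ∈ W₂ := fun l j => by
    have h5 := hYW l (e.symm j)
    simp only [Equiv.apply_symm_apply] at h5
    exact Submodule.mem_sup_left h5
  have hlt : ((Real.log t : ℝ) : ℂ) ∈ W₂ := Submodule.mem_sup_right (Submodule.mem_span_singleton_self _)
  choose p hp0 hpW hpx using fun l => (hw l K (hFK l) W₂ h12 (fun i => Submodule.mem_sup_left (hW₁ (hθW i)))).2 (hwW l)
  obtain ⟨hq, hqx⟩ := Pool.Agent.Y124.TH.common p (fun g (x : Fin k × Option V) => vals h T₀ (m g x.1) x.2) hpW hpx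
  refine hN K W₂ h12 hG₂ (Fin (k' * k) × Option V) (by rw [Fintype.card_prod, Fintype.card_option, Fintype.card_fin]) _ (∏ l, p l)
    (Finset.prod_ne_zero_iff.2 fun l _ => hp0 l) (pow_mem_mono h12 (Nat.le_succ _) hq) (fun x => ?_) hLI
  obtain ⟨i, o⟩ := x
  rcases o with _ | v
  · show (∏ l, p l) * ((Real.log (m (φ i).1 (φ i).2 / t) : ℝ) : ℂ) ∈ W₂ ^ (e₀ * k' + 1)
    have e1 : (0 : ℝ) < m (φ i).1 (φ i).2 := by exact_mod_cast hmpos _ _
    have e2 : (0 : ℝ) < t := by exact_mod_cast ht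
    rw [Real.log_div e1.ne' e2.ne', Complex.ofReal_sub, mul_sub]
    exact Submodule.sub_mem _ (pow_mem_mono h12 (Nat.le_succ _) (hqx (φ i).1 ((φ i).2, none)))
      (pow_mem_add hq (by rw [pow_one]; exact hlt))
  · exact pow_mem_mono h12 (Nat.le_succ _) (hqx (φ i).1 ((φ i).2, some v))

/-- **At most `k (r + 1)` clusters** -/
theorem clusters_k {r₀ : ℕ} {T : Polynomial ℤ} {A : Fin r₀ → Fin r₀ → Polynomial ℤ} {h : Fin r₀ → PowerSeries ℚ} (hF : GF T A h)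
    {V : Type} [Fintype V] (T₀ : V → Fin r₀) (hT : AlgebraicIndependent (Polynomial ℚ) (fun v => h (T₀ v))) :
    ∃ G : ℕ, 1 ≤ G ∧ ∀ (k : ℕ) (σ : Type) [Fintype σ], 1 ≤ k → Fintype.card σ = k * (Fintype.card V + 1) →
    ∀ r a δ e D : ℕ, ∃ (c : ℝ) (M₀ : ℕ), 0 < c ∧ ∀ M : ℕ, M₀ ≤ M → ∀ θ : Fin r → ℂ, ∃ S : Finset ℕ, S.card ≤ k * (r + 1) ∧
      ∀ m : Fin k → ℕ, (∀ l, M ≤ m l ∧ (m l : ℝ) ≤ M + (M : ℝ) ^ c) → (∀ l l', l ≠ l' → (G : ℤ) ≤ |(m l : ℤ) - m l'|) →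
        (∀ l, ∀ x ∈ S, (G : ℤ) ≤ |(m l : ℤ) - x|) →
        ∀ (K : IntermediateField ℚ ℂ) [FiniteDimensional ℚ K], finrank ℚ K ≤ D →
          ¬ Exc σ a δ e θ (fun x : Fin k × Option V => vals h T₀ (m x.1) x.2) K := by
  classical
  obtain ⟨R, hR⟩ := clash_k hF T₀ hT
  refine ⟨R + 1, by omega, fun k σ _ hk1 hσ r a δ e D => ?_⟩
  obtain ⟨c, M₀, hc, hmain⟩ := hR k σ hk1 hσ r a δ e D
  refine ⟨c, M₀, hc, fun M hM θ => ?_⟩
  -- the exceptional tuples
  let Ex : (Fin k → ℕ) → Prop := fun m => (∀ l, M ≤ m l ∧ (m l : ℝ) ≤ M + (M : ℝ) ^ c) ∧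
    ∃ (K : IntermediateField ℚ ℂ) (_ : FiniteDimensional ℚ K),
      finrank ℚ K ≤ D ∧ Exc σ a δ e θ (fun x : Fin k × Option V => vals h T₀ (m x.1) x.2) K
  let Q : ℕ → Prop := fun j => ∃ m : Fin j → Fin k → ℕ, (∀ g, Ex (m g)) ∧
    ∀ x y : Fin j × Fin k, x ≠ y → ((R + 1 : ℕ) : ℤ) ≤ |(m x.1 x.2 : ℤ) - m y.1 y.2|
  have hQ0 : Q 0 := ⟨fun g => g.elim0, fun g => g.elim0, fun x => x.1.elim0⟩
  have hQk : ¬ Q (r + 2) := by
    rintro ⟨m, hE, hsep⟩
    choose hg K hKf hKD hex using hE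
    exact hmain M hM θ m hg (fun x y hxy => by
      have h5 := hsep x y hxy
      push_cast at h5
      linarith) K (fun l => ⟨hKf l, hKD l⟩) hex
  obtain ⟨j, hj, hj1, hjr⟩ : ∃ j, Q j ∧ ¬ Q (j + 1) ∧ j ≤ r + 1 := by
    have hex : ∃ j, ¬ Q j := ⟨r + 2, hQk⟩
    have h5 := Nat.find_spec hex
    have h6 : Nat.find hex ≤ r + 2 := Nat.find_min' hex hQk
    have h7 : Nat.find hex ≠ 0 := fun h8 => by
      rw [h8] at h5
      exact h5 hQ0
    obtain ⟨j, hj⟩ := Nat.exists_eq_succ_of_ne_zero h7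
    refine ⟨j, ?_, ?_, by omega⟩
    · by_contra h8
      have h9 := Nat.find_min' hex h8
      omega
    · rw [← Nat.succ_eq_add_one, ← hj]
      exact h5
  obtain ⟨m₁, hE, hsep⟩ := hj
  refine ⟨Finset.univ.image fun x : Fin j × Fin k => m₁ x.1 x.2, ?_, fun m hm hmm hmS K _ hK hexc => ?_⟩
  · refine Finset.card_image_le.trans ?_
    rw [Finset.card_univ, Fintype.card_prod, Fintype.card_fin, Fintype.card_fin, mul_comm]
    exact Nat.mul_le_mul_left _ hjr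
  · apply hj1
    have hnew : ∀ (l : Fin k) (g : Fin j) (l' : Fin k), ((R + 1 : ℕ) : ℤ) ≤ |(m l : ℤ) - m₁ g l'| := fun l g l' =>
      hmS l _ (Finset.mem_image_of_mem _ (Finset.mem_univ (g, l')))
    refine ⟨Fin.cons m m₁, fun g => ?_, ?_⟩
    · refine Fin.cases ?_ (fun g' => ?_) g
      · rw [Fin.cons_zero]
        exact ⟨hm, K, inferInstance, hK, hexc⟩
      · rw [Fin.cons_succ]
        exact hE g'
    · rintro ⟨g, l⟩ ⟨g', l'⟩ hxy
      show ((R + 1 : ℕ) : ℤ) ≤ |(((Fin.cons m m₁ : Fin (j + 1) → Fin k → ℕ) g l : ℕ) : ℤ) -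
        ((Fin.cons m m₁ : Fin (j + 1) → Fin k → ℕ) g' l' : ℕ)|
      revert hxy
      refine Fin.cases ?_ (fun g => ?_) g
      · refine Fin.cases ?_ (fun g' => ?_) g'
        · intro hxy
          rw [Fin.cons_zero]
          exact hmm l l' fun h => hxy (by rw [h])
        · intro _
          rw [Fin.cons_zero, Fin.cons_succ]
          exact hnew l g' l'
      · refine Fin.cases ?_ (fun g' => ?_) g'
        · intro _
          rw [Fin.cons_zero, Fin.cons_succ, abs_sub_comm]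
          exact hnew l' g l
        · intro hxy
          rw [Fin.cons_succ, Fin.cons_succ]
          exact hsep (g, l) (g', l') fun h => hxy (by
            have h1 := Prod.mk.inj h
            rw [h1.1, h1.2])

end Pool.Agent.P8H40.CY
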