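import Pool.Agent.P8H40.CY.Pol2
import Pool.Agent.P8H40.CY.Clash2

/-!
# Project CY: tuples of fibres: relations hold on the product of the torsors. Symmetric parameters
-/

set_option autoImplicit false

open Module

namespace Pool.Agent.P8H40.CY

open Pool.Agent.Y113 (ev SDc)
open Pool.Agent.Y119.HY (QD Am Jm cm cm_apply cm_mul E QB Hc Hf)
open Pool.Agent.Y119.HZ (Hp Wp ix)
open Pool.Agent.P8H40.HA
open Pool.Agent.Y124.TD Pool.Agent.Y124.TG

variable {n : ℕ} {Q : Polynomial ℚ}

lemma eval_gen {τ τ' : Type} [Fintype τ] {K : IntermediateField ℚ ℂ} (F : MvPolynomial τ K) (s : τ → MvPolynomial τ' ℂ) (g : τ' → ℂ)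
    (v : τ → ℂ) (h : ∀ x, MvPolynomial.eval g (s x) = v x) :
    MvPolynomial.eval g (MvPolynomial.aeval s F) = MvPolynomial.aeval v F := by
  rw [MvPolynomial.aeval_def, MvPolynomial.aeval_def, MvPolynomial.eval₂_eq', MvPolynomial.eval₂_eq', map_sum]
  refine Finset.sum_congr rfl fun u _ => ?_
  rw [map_mul, map_prod]
  congr 1
  · exact MvPolynomial.eval_C _
  · refine Finset.prod_congr rfl fun x _ => ?_
    rw [map_pow, h]

/-- substitution of one matrix -/
lemma eval_one {r k : ℕ} {K : IntermediateField ℚ ℂ} (F : MvPolynomial (Fin r ⊕ Fin k × Option (Fin n × Fin n)) K)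
    (z : Fin r → ℂ) (L : Fin k → ℂ) (P B g : Fin k → Matrix (Fin n) (Fin n) ℂ) (l₀ : Fin k) :
    ∃ f : MvPolynomial (Fin n × Fin n) ℂ, ∀ g' : Matrix (Fin n) (Fin n) ℂ,
      MvPolynomial.eval (fun p => g' p.1 p.2) f = MvPolynomial.aeval (ptk z L fun l => P l * Function.update g l₀ g' l * B l) F := by
  classical
  have h : ∀ x, ∃ s : MvPolynomial (Fin n × Fin n) ℂ, ∀ g' : Matrix (Fin n) (Fin n) ℂ,
      MvPolynomial.eval (fun p => g' p.1 p.2) s = ptk z L (fun l => P l * Function.update g l₀ g' l * B l) x := by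
    intro x
    rcases x with i | ⟨l, o⟩
    · exact ⟨MvPolynomial.C (z i), fun g' => MvPolynomial.eval_C _⟩
    · rcases o with _ | p
      · exact ⟨MvPolynomial.C (L l), fun g' => MvPolynomial.eval_C _⟩
      · by_cases hl : l = l₀
        · refine ⟨∑ j, (∑ i, MvPolynomial.C (P l p.1 i) * MvPolynomial.X (i, j)) * MvPolynomial.C (B l j p.2), fun g' => ?_⟩
          show _ = (P l * Function.update g l₀ g' l * B l) p.1 p.2
          rw [hl, Function.update_self, Matrix.mul_apply, map_sum]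
          refine Finset.sum_congr rfl fun j _ => ?_
          rw [map_mul, map_sum, MvPolynomial.eval_C, Matrix.mul_apply]
          congr 1
          refine Finset.sum_congr rfl fun i _ => ?_
          rw [map_mul, MvPolynomial.eval_C, MvPolynomial.eval_X]
        · refine ⟨MvPolynomial.C ((P l * g l * B l) p.1 p.2), fun g' => ?_⟩
          show _ = (P l * Function.update g l₀ g' l * B l) p.1 p.2
          rw [Function.update_of_ne hl]
          exact MvPolynomial.eval_C _
  choose s hs using h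
  exact ⟨MvPolynomial.aeval s F, fun g' => eval_gen F s _ _ fun x => hs x g'⟩

/-- density in the product -/
lemma dense_k {J : Matrix (Fin n) (Fin n) ℂ} (hJs : J.transpose = -J) (hJd : J.det ≠ 0) {r k : ℕ} {K : IntermediateField ℚ ℂ}
    (F : MvPolynomial (Fin r ⊕ Fin k × Option (Fin n × Fin n)) K) (z : Fin r → ℂ) (L : Fin k → ℂ)
    (P B : Fin k → Matrix (Fin n) (Fin n) ℂ)
    (h0 : ∀ g : Fin k → Matrix (Fin n) (Fin n) ℂ, (∀ l, (g l).transpose * J * g l = J) → (∀ l, (g l + 1).det ≠ 0) →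
      MvPolynomial.aeval (ptk z L fun l => P l * g l * B l) F = 0) :
    ∀ g : Fin k → Matrix (Fin n) (Fin n) ℂ, (∀ l, (g l).transpose * J * g l = J) →
      MvPolynomial.aeval (ptk z L fun l => P l * g l * B l) F = 0 := by
  classical
  have key : ∀ s : Finset (Fin k), ∀ g : Fin k → Matrix (Fin n) (Fin n) ℂ, (∀ l, (g l).transpose * J * g l = J) →
      (∀ l, l ∉ s → (g l + 1).det ≠ 0) → MvPolynomial.aeval (ptk z L fun l => P l * g l * B l) F = 0 := by
    intro s
    induction s using Finset.induction_on with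
    | empty => exact fun g hg hd => h0 g hg fun l => hd l (Finset.notMem_empty l)
    | insert l₀ s hl ih =>
      intro g hg hd
      obtain ⟨f, hf⟩ := eval_one F z L P B g l₀
      have h1 := Pool.Agent.P8H52.CY.den n J f hJs hJd (fun g' hg' hd' => by
        rw [hf]
        refine ih (Function.update g l₀ g') (fun l => ?_) (fun l hls => ?_)
        · by_cases h : l = l₀
          · rw [h, Function.update_self]
            exact hg'
          · rw [Function.update_of_ne h]
            exact hg l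
        · by_cases h : l = l₀
          · rw [h, Function.update_self]
            exact hd'
          · rw [Function.update_of_ne h]
            exact hd l (by rw [Finset.mem_insert]; rintro (h2 | h2)
                           · exact h h2
                           · exact hls h2)) (g l₀) (hg l₀)
      rw [hf, Function.update_eq_self] at h1
      exact h1
  exact fun g hg => key Finset.univ g hg fun l hl => absurd (Finset.mem_univ l) hl

lemma sy_eq {R : Type*} (S : Matrix (Fin n) (Fin n) R) (hs : S.transpose = S) :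
    sy (fun p : Tri n => S p.1.1 p.1.2) = S := by
  ext i j
  unfold sy
  rw [Matrix.of_apply]
  show S (min i j) (max i j) = S i j
  rcases le_total i j with h | h
  · rw [min_eq_left h, max_eq_right h]
  · rw [min_eq_right h, max_eq_left h]
    exact congrFun (congrFun hs i) j

/-- if the polynomial in the parameters is zero then the relation holds on the product of the groups -/
lemma zero_dense (hQ : QD n Q) {r k : ℕ} {K : IntermediateField ℚ ℂ}
    (F : MvPolynomial (Fin r ⊕ Fin k × Option (Fin n × Fin n)) K) (z : Fin r → ℂ) (L : Fin k → ℂ)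
    (P B : Fin k → Matrix (Fin n) (Fin n) ℂ)
    (h0 : ∀ (y : Fin k × Option (Tri n) → ℂ) (g : Fin k → Matrix (Fin n) (Fin n) ℂ), (∀ l, y (l, none) = L l) →
      (∀ l, (1 - ((Jm n Q)⁻¹).map (algebraMap ℚ ℂ) * sy (fun p => y (l, some p))).det ≠ 0) →
      (∀ l, g l * (1 - ((Jm n Q)⁻¹).map (algebraMap ℚ ℂ) * sy (fun p => y (l, some p))) =
        1 + ((Jm n Q)⁻¹).map (algebraMap ℚ ℂ) * sy (fun p => y (l, some p))) →
      MvPolynomial.aeval (ptk z L fun l => P l * g l * B l) F = 0) :
    ∀ g : Fin k → Matrix (Fin n) (Fin n) ℂ, (∀ l, (g l).transpose * cm (Jm n Q) * g l = cm (Jm n Q)) →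
      MvPolynomial.aeval (ptk z L fun l => P l * g l * B l) F = 0 := by
  have hJs := Pool.Agent.Y119.HY.Jc_skew hQ
  have hJd := Pool.Agent.Y119.HY.Jc_det hQ
  refine dense_k hJs hJd F z L P B fun g hg hd => ?_
  choose S hs hd3 hc3 using fun l => Pool.Agent.P8H52.CY.cay n (cm (Jm n Q)) (g l) hJs hJd (hg l) (hd l)
  simp only [cm_inv hQ] at hd3 hc3
  refine h0 (fun x => x.2.elim (L x.1) fun p => S x.1 p.1.1 p.1.2) g (fun l => rfl) (fun l => ?_) (fun l => ?_)
  · show (1 - ((Jm n Q)⁻¹).map (algebraMap ℚ ℂ) * sy (fun p : Tri n => S l p.1.1 p.1.2)).det ≠ 0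
    rw [sy_eq _ (hs l)]
    exact hd3 l
  · show g l * (1 - ((Jm n Q)⁻¹).map (algebraMap ℚ ℂ) * sy (fun p : Tri n => S l p.1.1 p.1.2)) =
      1 + ((Jm n Q)⁻¹).map (algebraMap ℚ ℂ) * sy (fun p : Tri n => S l p.1.1 p.1.2)
    rw [sy_eq _ (hs l)]
    exact hc3 l

theorem core_k (hQ : QD n Q) (hH : ∀ i j, SDc (Hp n Q i j)) (c : ℕ) (hc : 1 ≤ c) :
    ∃ G : ℕ, 1 ≤ G ∧ ∀ k r δ a D : ℕ, 1 ≤ k → ∃ (κ : ℝ) (M₀ : ℕ), 0 < κ ∧ c < M₀ ∧ ∀ M : ℕ, M₀ ≤ M → ∀ z : Fin r → ℂ,
      ∃ S : Finset ℕ, S.card ≤ k * (r + 1) ∧ ∀ t : Fin k → ℕ, (∀ l, M ≤ t l ∧ (t l : ℝ) ≤ M + (M : ℝ) ^ κ) →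
        (∀ l l', l ≠ l' → (G : ℤ) ≤ |(t l : ℤ) - t l'|) → (∀ l, ∀ x ∈ S, (G : ℤ) ≤ |(t l : ℤ) - x|) →
        ∀ (K : IntermediateField ℚ ℂ) [FiniteDimensional ℚ K], finrank ℚ K ≤ D →
          ∀ F : MvPolynomial (Fin r ⊕ Fin k × Option (Fin n × Fin n)) K, (∀ x, F.degreeOf x ≤ δ) →
          ∀ P B : Fin k → Matrix (Fin n) (Fin n) ℂ,
            (∀ K' : IntermediateField ℚ ℂ, K ≤ K' → ∀ W : Submodule K' ℂ, (1 : ℂ) ∈ W → (∀ i, z i ∈ W) →
              ∀ l i j, P l i j ∈ W ^ a ∧ B l i j ∈ W ^ a) →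
            MvPolynomial.aeval (ptk z (fun l => ((Real.log (t l) : ℝ) : ℂ))
              fun l => P l * (Vt n Q c (t l) * E (cm (Am n)) (-((Real.log (t l) : ℝ) : ℂ))) * B l) F = 0 →
            ∀ (L : Fin k → ℂ) (g : Fin k → Matrix (Fin n) (Fin n) ℂ),
              (∀ l, (g l).transpose * cm (Jm n Q) * g l = cm (Jm n Q)) →
              MvPolynomial.aeval (ptk z L fun l => P l * g l * B l) F = 0 := by
  classical
  obtain ⟨T, A, hF⟩ := gfZ hQ hH c hc
  obtain ⟨T₁, hT₁⟩ := indZ hQ hc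
  obtain ⟨G, hG1, hG⟩ := clusters_k hF (fun v => (ix n).symm (T₁ v)) hT₁
  obtain ⟨t₁, ht₁⟩ := Vt_det hQ c
  refine ⟨G, hG1, fun k r δ a D hk => ?_⟩
  obtain ⟨a', δ', b, hpol⟩ := pol_k n r k δ a
  obtain ⟨κ, M₁, hκ, hmain⟩ := hG k (Fin k × Option (Tri n)) hk (by rw [Fintype.card_prod, Fintype.card_fin, card_Tri])
    r a' δ' (k * n + 1) D
  refine ⟨κ, M₁ + t₁ + c + 1, hκ, by omega, fun M hM z => ?_⟩
  obtain ⟨S, hS, hSt⟩ := hmain M (by omega) z
  refine ⟨S, hS, fun t ht hts htS K _ hK F hFd P B hPB hrel L g hg => ?_⟩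
  by_contra hne
  refine hSt t ht hts htS K hK ?_
  have hct : ∀ l, c < t l := fun l => by
    have := (ht l).1
    omega
  have hJs := Pool.Agent.Y119.HY.Jc_skew hQ
  have hJd := Pool.Agent.Y119.HY.Jc_det hQ
  have hN : cm (Am n) ^ n = 0 := Pool.Agent.Y119.HY.Ac_nil
  choose Sm hsym hdet hcay using fun l => Pool.Agent.P8H52.CY.cay n (cm (Jm n Q)) (Vt n Q c (t l)) hJs hJd (Vt_form hQ hc (hct l))
    (ht₁ (t l) (by have := (ht l).1; omega))
  simp only [cm_inv hQ] at hdet hcay
  set Ji := (Jm n Q)⁻¹ with hJi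
  let w : Fin k × Option (Tri n) → ℂ := fun o => o.2.elim ((Real.log (t o.1) : ℝ) : ℂ) fun p => Sm o.1 p.1.1 p.1.2
  have hsy : ∀ l, sy (fun p => w (l, some p)) = Sm l := fun l => sy_eq _ (hsym l)
  refine ⟨w, fun K' hKK' W h1 hz => ⟨?_, ?_⟩⟩
  · obtain ⟨F', hF'c, hF'd, hF'⟩ := hpol K' W h1 z hz (MvPolynomial.map (IntermediateField.inclusion hKK').toRingHom F)
      (fun x => (degreeOf_map_le' _ _ _).trans (hFd x)) P B (fun l i j => (hPB K' hKK' W h1 hz l i j).1)
      (fun l i j => (hPB K' hKK' W h1 hz l i j).2) Ji (En n)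
    have hF2 : ∀ (y : Fin k × Option (Tri n) → ℂ) (g : Fin k → Matrix (Fin n) (Fin n) ℂ),
        (∀ l, g l * (1 - Ji.map (algebraMap ℚ ℂ) * sy (fun p => y (l, some p))) =
          1 + Ji.map (algebraMap ℚ ℂ) * sy (fun p => y (l, some p))) →
        MvPolynomial.eval y F' = (∏ l, (1 - Ji.map (algebraMap ℚ ℂ) * sy (fun p => y (l, some p))).det) ^ b *
          MvPolynomial.aeval (ptk z (fun l => y (l, none)) fun l => P l * (g l * E (cm (Am n)) (-(y (l, none)))) * B l) F := by
      intro y g h3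
      have h4 := hF' y g h3
      rw [aeval_map_incl] at h4
      simp only [sum_En] at h4
      exact h4
    refine ⟨F', ?_, hF'd, hF'c, ?_⟩
    · intro h0
      apply hne
      have key : ∀ (L' : Fin k → ℂ) (g' : Fin k → Matrix (Fin n) (Fin n) ℂ),
          (∀ l, (g' l).transpose * cm (Jm n Q) * g' l = cm (Jm n Q)) →
          MvPolynomial.aeval (ptk z L' fun l => P l * g' l * (E (cm (Am n)) (-L' l) * B l)) F = 0 := by
        intro L'
        refine zero_dense hQ F z L' P (fun l => E (cm (Am n)) (-L' l) * B l) fun y g'' hy hd3 hc3 => ?_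
        have h6 := hF2 y g'' hc3
        rw [h0, map_zero] at h6
        have h7 := (mul_eq_zero.1 h6.symm).resolve_left (pow_ne_zero _ (Finset.prod_ne_zero_iff.2 fun l _ => hd3 l))
        have h8 : (fun l => y (l, none)) = L' := funext hy
        have h9 : (fun l => P l * g'' l * (E (cm (Am n)) (-L' l) * B l)) =
            fun l => P l * (g'' l * E (cm (Am n)) (-(y (l, none)))) * B l := by
          funext l
          rw [hy]
          simp only [Matrix.mul_assoc]
        rw [h8] at h7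
        rw [h9]
        exact h7
      have hE : ∀ s : ℂ, (E (cm (Am n)) s).transpose * cm (Jm n Q) * E (cm (Am n)) s = cm (Jm n Q) := fun s =>
        Pool.Agent.Y119.HY.E_isom hN Pool.Agent.Y119.HY.Jc_rel s
      have h9 := key L (fun l => g l * E (cm (Am n)) (L l)) fun l => Pool.Agent.Y119.HZ.isom_mul (hg l) (hE (L l))
      have h10 : (fun l => P l * (g l * E (cm (Am n)) (L l)) * (E (cm (Am n)) (-L l) * B l)) = fun l => P l * g l * B l := by
        funext l
        have h11 : E (cm (Am n)) (L l) * E (cm (Am n)) (-L l) = 1 := Pool.Agent.Y119.HY.E_mul_neg hN (L l)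
        calc P l * (g l * E (cm (Am n)) (L l)) * (E (cm (Am n)) (-L l) * B l) =
              P l * g l * ((E (cm (Am n)) (L l) * E (cm (Am n)) (-L l)) * B l) := by
              simp only [Matrix.mul_assoc]
          _ = _ := by rw [h11, Matrix.one_mul]
      rw [h10] at h9
      exact h9
    · have h4 := hF2 w (fun l => Vt n Q c (t l)) (fun l => by rw [hsy]; exact hcay l)
      rw [h4]
      have h5 : MvPolynomial.aeval (ptk z (fun l => w (l, none))
        fun l => P l * (Vt n Q c (t l) * E (cm (Am n)) (-(w (l, none)))) * B l) F = 0 := hrel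
      rw [h5, mul_zero]
  · intro hw
    have h1' : (1 : ℂ) ∈ W ^ 1 := by rw [pow_one]; exact h1
    have hS1 : ∀ l i j, Sm l i j ∈ W ^ 1 := by
      intro l i j
      have h2 := congrFun (congrFun (hsy l) i) j
      rw [← h2, pow_one]
      exact hw (l, some ⟨(min i j, max i j), min_le_max⟩)
    have hU : ∀ l i j, (Ji.map (algebraMap ℚ ℂ) * Sm l) i j ∈ W ^ 1 := by
      intro l i j
      rw [Matrix.mul_apply]
      refine Submodule.sum_mem _ fun k _ => ?_
      rw [Matrix.map_apply, eq_ratCast]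
      exact mQ _ (hS1 _ _ _)
    have hone : ∀ i j, (1 : Matrix (Fin n) (Fin n) ℂ) i j ∈ W ^ 1 := by
      intro i j
      rw [Matrix.one_apply]
      split_ifs
      · exact h1'
      · exact Submodule.zero_mem _
    have hm : ∀ l i j, (1 - Ji.map (algebraMap ℚ ℂ) * Sm l) i j ∈ W := by
      intro l i j
      have := Submodule.sub_mem _ (hone i j) (hU l i j)
      rwa [pow_one] at this
    have hp : ∀ l i j, (1 + Ji.map (algebraMap ℚ ℂ) * Sm l) i j ∈ W ^ 1 := by
      intro l i j
      exact Submodule.add_mem _ (hone i j) (hU l i j)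
    have hdW : ∀ l, (1 - Ji.map (algebraMap ℚ ℂ) * Sm l).det ∈ W ^ n := fun l => Pool.Agent.Y124.TG.det_mem _ (hm l)
    have hpr : ∀ s : Finset (Fin k), ∏ l ∈ s, (1 - Ji.map (algebraMap ℚ ℂ) * Sm l).det ∈ W ^ (s.card * n) := fun s => by
      have := mem_pow_prod (W := W) s (fun _ => n) (fun l => (1 - Ji.map (algebraMap ℚ ℂ) * Sm l).det) fun l _ => hdW l
      rwa [Finset.sum_const, smul_eq_mul] at this
    refine ⟨∏ l, (1 - Ji.map (algebraMap ℚ ℂ) * Sm l).det, Finset.prod_ne_zero_iff.2 fun l _ => hdet l, ?_, fun o => ?_⟩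
    · have := hpr Finset.univ
      rw [Finset.card_univ, Fintype.card_fin] at this
      exact pow_mem_mono h1 (Nat.le_succ _) this
    · obtain ⟨l, o⟩ := o
      have hspl : ∏ l, (1 - Ji.map (algebraMap ℚ ℂ) * Sm l).det =
          (∏ l' ∈ Finset.univ.erase l, (1 - Ji.map (algebraMap ℚ ℂ) * Sm l').det) * (1 - Ji.map (algebraMap ℚ ℂ) * Sm l).det :=
        (Finset.prod_erase_mul _ _ (Finset.mem_univ l)).symm
      have hcard : (Finset.univ.erase l).card * n + (n + 1) = k * n + 1 := by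
        rw [Finset.card_erase_of_mem (Finset.mem_univ l), Finset.card_univ, Fintype.card_fin]
        obtain ⟨k', rfl⟩ : ∃ k', k = k' + 1 := ⟨k - 1, by omega⟩
        rw [Nat.add_sub_cancel]
        ring
      have hloc : (1 - Ji.map (algebraMap ℚ ℂ) * Sm l).det *
          vals (fun a => Zc n Q c (ix n a).2 (ix n a).1) (fun v => (ix n).symm (T₁ v)) (t l) o ∈ W ^ (n + 1) := by
        rcases o with _ | v
        · have h2 : w (l, none) ∈ W ^ 1 := by rw [pow_one]; exact hw _
          exact pow_mem_add (hdW l) h2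
        · have h2 : (1 - Ji.map (algebraMap ℚ ℂ) * Sm l).det • Vt n Q c (t l) =
              (1 + Ji.map (algebraMap ℚ ℂ) * Sm l) * (1 - Ji.map (algebraMap ℚ ℂ) * Sm l).adjugate := by
            rw [← hcay, Matrix.mul_assoc, Matrix.mul_adjugate, Matrix.mul_smul, Matrix.mul_one]
          have h3 : (1 - Ji.map (algebraMap ℚ ℂ) * Sm l).det * vals (fun a => Zc n Q c (ix n a).2 (ix n a).1)
              (fun v => (ix n).symm (T₁ v)) (t l) (some v) =
              ((1 + Ji.map (algebraMap ℚ ℂ) * Sm l) * (1 - Ji.map (algebraMap ℚ ℂ) * Sm l).adjugate) (T₁ v).1 (T₁ v).2 := by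
            rw [← h2, Matrix.smul_apply, smul_eq_mul]
            congr 1
            exact hv_pl hc (by have := hct l; omega) _ _
          rw [h3, add_comm n 1]
          exact mul_mem' (V := W) (a := 1) (b := n) _ _ (hp l) (adj_mem h1 _ (hm l)) _ _
      rw [hspl, mul_assoc, ← hcard]
      exact pow_mem_add (hpr _) hloc

end Pool.Agent.P8H40.CY
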