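import Pool.Agent.P8H40.CY.Pol3
import Pool.Agent.P8H40.CY.Clash3
import Pool.Agent.P8H40.CY.Main2

/-!
# Project CY: at most `r + 1` exceptions in every separated set. Symmetric parameters
-/

set_option autoImplicit false

open Module

namespace Pool.Agent.P8H40.CY

open Pool.Agent.Y113 (ev SDc)
open Pool.Agent.Y119.HY (QD Am Jm cm cm_apply cm_mul E QB Hc Hf)
open Pool.Agent.Y119.HZ (Hp Wp ix)
open Pool.Agent.P8H40.HA
open Pool.Agent.Y124.TD Pool.Agent.Y124.TG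

variable {n : ℕ} {Q : Polynomial ℚ}

/-- the values can be computed from the parameters of the Cayley transform -/
lemma dom_of_cayley {c t : ℕ} (hc : 1 ≤ c) (hct : c < t) {Ji : Matrix (Fin n) (Fin n) ℚ} {Sm : Matrix (Fin n) (Fin n) ℂ}
    (hsym : Sm.transpose = Sm) (hdet : (1 - Ji.map (algebraMap ℚ ℂ) * Sm).det ≠ 0)
    (hcay : Vt n Q c t * (1 - Ji.map (algebraMap ℚ ℂ) * Sm) = 1 + Ji.map (algebraMap ℚ ℂ) * Sm)
    (T₁ : Fin (n * (n + 1) / 2) → Fin n × Fin n) {w : Option (Tri n) → ℂ} (hw0 : w none = ((Real.log t : ℝ) : ℂ))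
    (hw1 : ∀ p : Tri n, w (some p) = Sm p.1.1 p.1.2) (K : IntermediateField ℚ ℂ) (W : Submodule K ℂ) (h1 : (1 : ℂ) ∈ W)
    (hw : ∀ j, w j ∈ W) : ∃ p : ℂ, p ≠ 0 ∧ p ∈ W ^ (n + 1) ∧
      ∀ o, p * vals (fun a => Zc n Q c (ix n a).2 (ix n a).1) (fun v => (ix n).symm (T₁ v)) t o ∈ W ^ (n + 1) := by
  classical
  have h1' : (1 : ℂ) ∈ W ^ 1 := by rw [pow_one]; exact h1
  have hS1 : ∀ i j, Sm i j ∈ W ^ 1 := by
    intro i j
    have h2 := congrFun (congrFun (sy_eq Sm hsym) i) j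
    rw [← h2, pow_one]
    have h3 := hw (some ⟨(min i j, max i j), min_le_max⟩)
    rw [hw1] at h3
    exact h3
  have hU : ∀ i j, (Ji.map (algebraMap ℚ ℂ) * Sm) i j ∈ W ^ 1 := by
    intro i j
    rw [Matrix.mul_apply]
    refine Submodule.sum_mem _ fun k _ => ?_
    rw [Matrix.map_apply, eq_ratCast]
    exact mQ _ (hS1 _ _)
  have hone : ∀ i j, (1 : Matrix (Fin n) (Fin n) ℂ) i j ∈ W ^ 1 := by
    intro i j
    rw [Matrix.one_apply]
    split_ifs
    · exact h1'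
    · exact Submodule.zero_mem _
  have hm : ∀ i j, (1 - Ji.map (algebraMap ℚ ℂ) * Sm) i j ∈ W := by
    intro i j
    have := Submodule.sub_mem _ (hone i j) (hU i j)
    rwa [pow_one] at this
  have hp : ∀ i j, (1 + Ji.map (algebraMap ℚ ℂ) * Sm) i j ∈ W ^ 1 := by
    intro i j
    exact Submodule.add_mem _ (hone i j) (hU i j)
  have hdW := Pool.Agent.Y124.TG.det_mem _ hm
  refine ⟨(1 - Ji.map (algebraMap ℚ ℂ) * Sm).det, hdet, pow_mem_mono h1 (Nat.le_succ n) hdW, fun o => ?_⟩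
  rcases o with _ | v
  · have h2 : ((Real.log t : ℝ) : ℂ) ∈ W ^ 1 := by rw [pow_one, ← hw0]; exact hw _
    exact pow_mem_add hdW h2
  · have h2 : (1 - Ji.map (algebraMap ℚ ℂ) * Sm).det • Vt n Q c t =
        (1 + Ji.map (algebraMap ℚ ℂ) * Sm) * (1 - Ji.map (algebraMap ℚ ℂ) * Sm).adjugate := by
      rw [← hcay, Matrix.mul_assoc, Matrix.mul_adjugate, Matrix.mul_smul, Matrix.mul_one]
    have h3 : (1 - Ji.map (algebraMap ℚ ℂ) * Sm).det * vals (fun a => Zc n Q c (ix n a).2 (ix n a).1)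
        (fun v => (ix n).symm (T₁ v)) t (some v) =
        ((1 + Ji.map (algebraMap ℚ ℂ) * Sm) * (1 - Ji.map (algebraMap ℚ ℂ) * Sm).adjugate) (T₁ v).1 (T₁ v).2 := by
      rw [← h2, Matrix.smul_apply, smul_eq_mul]
      congr 1
      exact hv_pl hc (by omega) _ _
    rw [h3, add_comm n 1]
    exact mul_mem' (V := W) (a := 1) (b := n) _ _ hp (adj_mem h1 _ hm) _ _

theorem core_T (hELI : S_ELI) (hGRE : S_GRE) (hQ : QD n Q) (hH : ∀ i j, SDc (Hp n Q i j)) (c : ℕ) (hc : 1 ≤ c) :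
    ∃ G : ℕ, 1 ≤ G ∧ ∀ k r δ a D : ℕ, ∃ (κ : ℝ) (M₀ : ℕ), 0 < κ ∧ c < M₀ ∧ ∀ M : ℕ, M₀ ≤ M → ∀ z : Fin r → ℂ,
      ∀ T : Finset ℕ, (∀ t ∈ T, M ≤ t ∧ (t : ℝ) ≤ M + (M : ℝ) ^ κ) → (∀ t ∈ T, ∀ t' ∈ T, t ≠ t' → (G : ℤ) ≤ |(t : ℤ) - t'|) →
      ∃ Es : Finset ℕ, Es ⊆ T ∧ Es.card ≤ r + 1 ∧ ∀ t : Fin k → ℕ, Function.Injective t → (∀ l, t l ∈ T \ Es) →
        ∀ (K : IntermediateField ℚ ℂ) [FiniteDimensional ℚ K], finrank ℚ K ≤ D →
          ∀ F : MvPolynomial (Fin r ⊕ Fin k × Option (Fin n × Fin n)) K, (∀ x, F.degreeOf x ≤ δ) →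
          ∀ P B : Fin k → Matrix (Fin n) (Fin n) ℂ,
            (∀ K' : IntermediateField ℚ ℂ, K ≤ K' → ∀ W : Submodule K' ℂ, (1 : ℂ) ∈ W → (∀ i, z i ∈ W) →
              ∀ l i j, P l i j ∈ W ^ a ∧ B l i j ∈ W ^ a) →
            MvPolynomial.aeval (ptk z (fun l => ((Real.log (t l) : ℝ) : ℂ))
              fun l => P l * (Vt n Q c (t l) * E (cm (Am n)) (-((Real.log (t l) : ℝ) : ℂ))) * B l) F = 0 →
            ∀ (L : Fin k → ℂ) (g : Fin k → Matrix (Fin n) (Fin n) ℂ),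
              (∀ l, (g l).transpose * cm (Jm n Q) * g l = cm (Jm n Q)) →
              MvPolynomial.aeval (ptk z L fun l => P l * g l * B l) F = 0 := by
  classical
  obtain ⟨T', A, hF⟩ := gfZ hQ hH c hc
  obtain ⟨T₁, hT₁⟩ := indZ hQ hc
  obtain ⟨G, hG1, hG⟩ := hGRE hF (fun v => (ix n).symm (T₁ v)) hT₁
  obtain ⟨t₁, ht₁⟩ := Vt_det hQ c
  have hJs := Pool.Agent.Y119.HY.Jc_skew hQ
  have hJd := Pool.Agent.Y119.HY.Jc_det hQ
  have hN : cm (Am n) ^ n = 0 := Pool.Agent.Y119.HY.Ac_nil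
  have hcayley : ∀ t : ℕ, t₁ ≤ t → c < t → ∃ S : Matrix (Fin n) (Fin n) ℂ, S.transpose = S ∧
      (1 - ((Jm n Q)⁻¹).map (algebraMap ℚ ℂ) * S).det ≠ 0 ∧
      Vt n Q c t * (1 - ((Jm n Q)⁻¹).map (algebraMap ℚ ℂ) * S) = 1 + ((Jm n Q)⁻¹).map (algebraMap ℚ ℂ) * S := by
    intro t h1 h2
    obtain ⟨S, hs, hd, hcy⟩ := Pool.Agent.P8H52.CY.cay n (cm (Jm n Q)) (Vt n Q c t) hJs hJd (Vt_form hQ hc h2) (ht₁ t h1)
    rw [cm_inv hQ] at hd hcy
    exact ⟨S, hs, hd, hcy⟩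
  choose! Sm hSm using hcayley
  set Ji := (Jm n Q)⁻¹ with hJi
  let w : ℕ → Option (Tri n) → ℂ := fun t o => o.elim ((Real.log t : ℝ) : ℂ) fun p => Sm t p.1.1 p.1.2
  refine ⟨G, hG1, fun k r δ a D => ?_⟩
  obtain ⟨a₁, δ₁, b, hpol⟩ := pol_u n r k δ a
  obtain ⟨a', δ', heli⟩ := hELI (Option (Tri n)) k a₁ δ₁
  obtain ⟨κ, M₁, hκ, hmain⟩ := hG (Option (Tri n)) (card_Tri n) k r a' δ' (n + 1) D
  refine ⟨κ, M₁ + t₁ + c + 1, hκ, by omega, fun M hM z T hT hTs => ?_⟩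
  obtain ⟨Es, hEs, hEc, hEt⟩ := hmain M (by omega) z w (fun x hx K W h1 hw => by
    obtain ⟨h2, h3, h4⟩ := hSm x (by omega) (by omega)
    exact dom_of_cayley hc (by omega) h2 h3 h4 T₁ (w := w x) rfl (fun p => rfl) K W h1 hw) T hT hTs
  refine ⟨Es, hEs, hEc, fun t htinj htT K _ hK F hFd P B hPB hrel => ?_⟩
  have htM : ∀ l, M ≤ t l := fun l => (hT (t l) (Finset.mem_sdiff.1 (htT l)).1).1
  have hct : ∀ l, c < t l := fun l => by
    have := htM l
    omega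
  have ht1 : ∀ l, t₁ ≤ t l := fun l => by
    have := htM l
    omega
  have hsym := fun l => (hSm (t l) (ht1 l) (hct l)).1
  have hdet := fun l => (hSm (t l) (ht1 l) (hct l)).2.1
  have hcay := fun l => (hSm (t l) (ht1 l) (hct l)).2.2
  have hsy : ∀ l, sy (fun p => w (t l) (some p)) = Sm (t l) := fun l => sy_eq _ (hsym l)
  obtain ⟨F', hF'd, hF'c, hF'⟩ := hpol K z F hFd P B Ji (En n)
  have hF2 : ∀ (y : Fin k × Option (Tri n) → ℂ) (g : Fin k → Matrix (Fin n) (Fin n) ℂ),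
      (∀ l, g l * (1 - Ji.map (algebraMap ℚ ℂ) * sy (fun p => y (l, some p))) =
        1 + Ji.map (algebraMap ℚ ℂ) * sy (fun p => y (l, some p))) →
      MvPolynomial.eval y F' = (∏ l, (1 - Ji.map (algebraMap ℚ ℂ) * sy (fun p => y (l, some p))).det) ^ b *
        MvPolynomial.aeval (ptk z (fun l => y (l, none)) fun l => P l * (g l * E (cm (Am n)) (-(y (l, none)))) * B l) F := by
    intro y g h3
    have h4 := hF' y g h3
    simp only [sum_En] at h4
    exact h4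
  by_cases h0 : F' = 0
  · intro L g hg
    have key : ∀ (L' : Fin k → ℂ) (g' : Fin k → Matrix (Fin n) (Fin n) ℂ),
        (∀ l, (g' l).transpose * cm (Jm n Q) * g' l = cm (Jm n Q)) →
        MvPolynomial.aeval (ptk z L' fun l => P l * g' l * (E (cm (Am n)) (-L' l) * B l)) F = 0 := by
      intro L'
      refine zero_dense hQ F z L' P (fun l => E (cm (Am n)) (-L' l) * B l) fun y g'' hy hd3 hc3 => ?_
      have h6 := hF2 y g'' hc3
      rw [h0, map_zero] at h6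
      have h7 := (mul_eq_zero.1 h6.symm).resolve_left (pow_ne_zero _ (Finset.prod_ne_zero_iff.2 fun l _ => hd3 l))
      have h8 : (fun l => y (l, none)) = L' := funext hy
      have h9 : (fun l => P l * g'' l * (E (cm (Am n)) (-L' l) * B l)) =
          fun l => P l * (g'' l * E (cm (Am n)) (-(y (l, none)))) * B l := by
        funext l
        rw [hy]
        simp only [Matrix.mul_assoc]
      rw [h8] at h7
      rw [h9]
      exact h7
    have hE : ∀ s : ℂ, (E (cm (Am n)) s).transpose * cm (Jm n Q) * E (cm (Am n)) s = cm (Jm n Q) := fun s =>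
      Pool.Agent.Y119.HY.E_isom hN Pool.Agent.Y119.HY.Jc_rel s
    have h9 := key L (fun l => g l * E (cm (Am n)) (L l)) fun l => Pool.Agent.Y119.HZ.isom_mul (hg l) (hE (L l))
    have h10 : (fun l => P l * (g l * E (cm (Am n)) (L l)) * (E (cm (Am n)) (-L l) * B l)) = fun l => P l * g l * B l := by
      funext l
      have h11 : E (cm (Am n)) (L l) * E (cm (Am n)) (-L l) = 1 := Pool.Agent.Y119.HY.E_mul_neg hN (L l)
      calc P l * (g l * E (cm (Am n)) (L l)) * (E (cm (Am n)) (-L l) * B l) =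
            P l * g l * ((E (cm (Am n)) (L l) * E (cm (Am n)) (-L l)) * B l) := by
            simp only [Matrix.mul_assoc]
        _ = _ := by rw [h11, Matrix.one_mul]
    rw [h10] at h9
    exact h9
  · exfalso
    let y : Fin k × Option (Tri n) → ℂ := fun x => w (t x.1) x.2
    have hev : MvPolynomial.eval y F' = 0 := by
      have hy : ∀ l, sy (fun p => y (l, some p)) = Sm (t l) := hsy
      have h4 := hF2 y (fun l => Vt n Q c (t l)) (fun l => by rw [hy]; exact hcay l)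
      rw [h4]
      have h5 : MvPolynomial.aeval (ptk z (fun l => y (l, none))
        fun l => P l * (Vt n Q c (t l) * E (cm (Am n)) (-(y (l, none)))) * B l) F = 0 := hrel
      rw [h5, mul_zero]
    obtain ⟨b', s, hbs, hdep⟩ := heli F' h0 hF'd (fun l => w (t l)) hev
    refine hEt (t b') (htT b') (s.image t) ?_ ?_ ?_ K inferInstance hK ?_
    · intro x hx
      obtain ⟨l, -, rfl⟩ := Finset.mem_image.1 hx
      exact htT l
    · intro hx
      obtain ⟨l, hl, hlb⟩ := Finset.mem_image.1 hx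
      exact hbs (htinj hlb ▸ hl)
    · refine Finset.card_image_le.trans ?_
      have := Finset.card_le_univ s
      rwa [Fintype.card_fin] at this
    · intro K' hKK' W h1 hz hC
      refine hdep K' W h1 (hF'c K' hKK' W h1 hz (fun l i j => (hPB K' hKK' W h1 hz l i j).1)
        (fun l i j => (hPB K' hKK' W h1 hz l i j).2)) fun l hl x => hC (t l) (Finset.mem_image_of_mem _ hl) x

end Pool.Agent.P8H40.CY
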