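import Pool.Agent.P8H40.CY.Main2

/-!
# Project CY: tuples of fibres: density of the rational points; rings and fields
-/

set_option autoImplicit false

open Module

namespace Pool.Agent.P8H40.CY

open Pool.Agent.Y119.HY (QD Am Jm cm cm_apply cm_mul E QB)

variable {n : ℕ} {Q : Polynomial ℚ}

lemma det_ev {τ : Type} (Ji : Matrix (Fin n) (Fin n) ℚ) (s : Tri n → MvPolynomial τ ℂ) (y : τ → ℂ) :
    MvPolynomial.eval y (1 - (Ji.map (algebraMap ℚ ℂ)).map MvPolynomial.C * sy s).det =
      (1 - Ji.map (algebraMap ℚ ℂ) * sy (fun p => MvPolynomial.eval y (s p))).det := by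
  have h1 : (1 - (Ji.map (algebraMap ℚ ℂ)).map MvPolynomial.C * sy s).map (MvPolynomial.eval y) =
      1 - Ji.map (algebraMap ℚ ℂ) * sy (fun p => MvPolynomial.eval y (s p)) := by
    rw [Matrix.map_sub _ (map_sub _), Matrix.map_one _ (map_zero _) (map_one _), Matrix.map_mul]
    congr 2
    ext i j
    simp
  rw [RingHom.map_det, RingHom.mapMatrix_apply, h1]

/-- a polynomial vanishing at the rational points of the product of the groups vanishes there -/
lemma rat_dense_k (hQ : QD n Q) {r k : ℕ} {K : IntermediateField ℚ ℂ}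
    (F : MvPolynomial (Fin r ⊕ Fin k × Option (Fin n × Fin n)) K)
    (z : Fin r → ℂ) (P B : Fin k → Matrix (Fin n) (Fin n) ℂ)
    (hrat : ∀ (L : Fin k → ℚ) (g : Fin k → Matrix (Fin n) (Fin n) ℚ), (∀ l, (g l).transpose * Jm n Q * g l = Jm n Q) →
      MvPolynomial.aeval (ptk z (fun l => (L l : ℂ)) fun l => P l * (g l).map (algebraMap ℚ ℂ) * B l) F = 0) :
    ∀ (L : Fin k → ℂ) (g : Fin k → Matrix (Fin n) (Fin n) ℂ), (∀ l, (g l).transpose * cm (Jm n Q) * g l = cm (Jm n Q)) →
      MvPolynomial.aeval (ptk z L fun l => P l * g l * B l) F = 0 := by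
  classical
  set δ : ℕ := ∑ x, F.degreeOf x with hδ
  have hFδ : ∀ x, F.degreeOf x ≤ δ := fun x => Finset.single_le_sum (f := fun x => F.degreeOf x) (fun _ _ => Nat.zero_le _) (Finset.mem_univ x)
  obtain ⟨a', δ', b, hpol⟩ := pol_k n r k δ 1
  set Ji := (Jm n Q)⁻¹ with hJi
  -- the matrices without exponential
  let N : Fin n → Matrix (Fin n) (Fin n) ℚ := fun i => if (i : ℕ) = 0 then 1 else 0
  obtain ⟨F', -, -, hF'⟩ := hpol K ⊤ Submodule.mem_top z (fun _ => Submodule.mem_top) F hFδ P B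
    (fun l i j => by rw [pow_one]; exact Submodule.mem_top) (fun l i j => by rw [pow_one]; exact Submodule.mem_top) Ji N
  have hN : ∀ L : ℂ, 0 < n → ∑ i : Fin n, L ^ (i : ℕ) • (N i).map (algebraMap ℚ ℂ) = 1 := by
    intro L hn
    rw [Finset.sum_eq_single (⟨0, hn⟩ : Fin n)]
    · show L ^ 0 • (if (0 : ℕ) = 0 then (1 : Matrix (Fin n) (Fin n) ℚ) else 0).map (algebraMap ℚ ℂ) = 1
      rw [if_pos rfl, pow_zero, one_smul, Matrix.map_one _ (map_zero _) (map_one _)]
    · intro i _ hi
      have h1 : (i : ℕ) ≠ 0 := fun h => hi (Fin.ext h)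
      show L ^ (i : ℕ) • (if (i : ℕ) = 0 then (1 : Matrix (Fin n) (Fin n) ℚ) else 0).map (algebraMap ℚ ℂ) = 0
      rw [if_neg h1, Matrix.map_zero _ (map_zero _), smul_zero]
    · intro h
      exact absurd (Finset.mem_univ _) h
  have hn : 0 < n := by
    have := hQ.two
    omega
  have hF2 : ∀ (y : Fin k × Option (Tri n) → ℂ) (g : Fin k → Matrix (Fin n) (Fin n) ℂ),
      (∀ l, g l * (1 - Ji.map (algebraMap ℚ ℂ) * sy (fun p => y (l, some p))) =
        1 + Ji.map (algebraMap ℚ ℂ) * sy (fun p => y (l, some p))) →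
      MvPolynomial.eval y F' = (∏ l, (1 - Ji.map (algebraMap ℚ ℂ) * sy (fun p => y (l, some p))).det) ^ b *
        MvPolynomial.aeval (ptk z (fun l => y (l, none)) fun l => P l * g l * B l) F := by
    intro y g h3
    have h4 := hF' y g h3
    simp only [hN _ hn, Matrix.mul_one] at h4
    exact h4
  -- the determinants as polynomials
  let Dp : Fin k → MvPolynomial (Fin k × Option (Tri n)) ℂ := fun l => (1 - (Ji.map (algebraMap ℚ ℂ)).map MvPolynomial.C *
    sy (fun p => (MvPolynomial.X (l, some p) : MvPolynomial (Fin k × Option (Tri n)) ℂ))).det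
  have hDe : ∀ (l : Fin k) (y : Fin k × Option (Tri n) → ℂ),
      MvPolynomial.eval y (Dp l) = (1 - Ji.map (algebraMap ℚ ℂ) * sy (fun p => y (l, some p))).det := by
    intro l y
    have h1 := det_ev Ji (fun p => (MvPolynomial.X (l, some p) : MvPolynomial (Fin k × Option (Tri n)) ℂ)) y
    simp only [MvPolynomial.eval_X] at h1
    exact h1
  have hF0 : F' * ∏ l, Dp l = 0 := by
    refine MvPolynomial.funext_set (fun _ => Set.range (algebraMap ℚ ℂ)) (fun _ => ?_) ?_
    · exact Set.infinite_range_of_injective (algebraMap ℚ ℂ).injective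
    · intro y hy
      choose yq hyq using fun o => hy o (Set.mem_univ o)
      rw [map_zero, map_mul, map_prod]
      by_cases hd : ∃ l, (1 - Ji.map (algebraMap ℚ ℂ) * sy (fun p => y (l, some p))).det = 0
      · obtain ⟨l, hl⟩ := hd
        rw [Finset.prod_eq_zero (Finset.mem_univ l) (by rw [hDe]; exact hl), mul_zero]
      · have hd' : ∀ l, (1 - Ji.map (algebraMap ℚ ℂ) * sy (fun p => y (l, some p))).det ≠ 0 := fun l h => hd ⟨l, h⟩
        have hg : ∀ l, ∃ g : Matrix (Fin n) (Fin n) ℚ, g.transpose * Jm n Q * g = Jm n Q ∧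
            g.map (algebraMap ℚ ℂ) * (1 - Ji.map (algebraMap ℚ ℂ) * sy (fun p => y (l, some p))) =
              1 + Ji.map (algebraMap ℚ ℂ) * sy (fun p => y (l, some p)) := by
          intro l
          have hsy : sy (fun p => y (l, some p)) = (sy (fun p => yq (l, some p))).map (algebraMap ℚ ℂ) := by
            ext i j
            simp [sy, ← hyq]
          have hmap : 1 - Ji.map (algebraMap ℚ ℂ) * sy (fun p => y (l, some p)) =
              (1 - Ji * sy (fun p => yq (l, some p))).map (algebraMap ℚ ℂ) := by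
            rw [hsy, Matrix.map_sub _ (map_sub _), Matrix.map_one _ (map_zero _) (map_one _), Matrix.map_mul]
          have hmap' : 1 + Ji.map (algebraMap ℚ ℂ) * sy (fun p => y (l, some p)) =
              (1 + Ji * sy (fun p => yq (l, some p))).map (algebraMap ℚ ℂ) := by
            rw [hsy, Matrix.map_add _ (map_add _), Matrix.map_one _ (map_zero _) (map_one _), Matrix.map_mul]
          have hdq : (1 - Ji * sy (fun p => yq (l, some p))).det ≠ 0 := by
            intro h0
            apply hd' l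
            rw [hmap]
            have h5 := (RingHom.map_det (algebraMap ℚ ℂ) (1 - Ji * sy (fun p => yq (l, some p)))).symm
            rw [h0, map_zero] at h5
            exact h5
          have hsymm : (sy (fun p => yq (l, some p)) : Matrix (Fin n) (Fin n) ℚ).transpose = sy (fun p => yq (l, some p)) := by
            ext i j
            simp only [sy, Matrix.transpose_apply, Matrix.of_apply, min_comm, max_comm]
          obtain ⟨g, hg1, hg2⟩ := cayley_rat (Pool.Agent.Y119.HY.Jm_skew hQ) (Pool.Agent.Y119.HY.Jm_det hQ) hsymm hdq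
          exact ⟨g, hg1, by rw [hmap, hmap', ← Matrix.map_mul, hg2]⟩
        choose g hg1 hg2 using hg
        have h6 := hF2 y (fun l => (g l).map (algebraMap ℚ ℂ)) hg2
        have h7 := hrat (fun l => yq (l, none)) g hg1
        have h8 : (fun l => ((yq (l, none) : ℚ) : ℂ)) = fun l => y (l, none) := funext fun l => hyq (l, none)
        rw [h8] at h7
        rw [h6, h7, mul_zero, zero_mul]
  have hD0 : ∏ l, Dp l ≠ 0 := by
    refine Finset.prod_ne_zero_iff.2 fun l _ h0 => ?_
    have h1 := hDe l (fun _ => 0)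
    rw [h0, map_zero] at h1
    have h2 : sy (fun _ : Tri n => (0 : ℂ)) = 0 := by
      ext i j
      rfl
    rw [h2, Matrix.mul_zero, sub_zero, Matrix.det_one] at h1
    exact zero_ne_one h1
  have hF'0 : F' = 0 := (mul_eq_zero.1 hF0).resolve_right hD0
  intro L
  refine zero_dense hQ F z L P B fun y g'' hy hd3 hc3 => ?_
  have h6 := hF2 y g'' hc3
  rw [hF'0, map_zero] at h6
  have h7 := (mul_eq_zero.1 h6.symm).resolve_left (pow_ne_zero _ (Finset.prod_ne_zero_iff.2 fun l _ => hd3 l))
  have h8 : (fun l => y (l, none)) = L := funext hy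
  rw [h8] at h7
  exact h7

lemma mem_adj {K : IntermediateField ℚ ℂ} (A : Subalgebra K ℂ) (R : Matrix (Fin n) (Fin n) K) (X : Matrix (Fin n) (Fin n) ℚ)
    (Ω : Matrix (Fin n) (Fin n) ℂ) (hΩ : ∀ i j, Ω i j ∈ A) (i j : Fin n) :
    (R.map (algebraMap K ℂ) * X.map (algebraMap ℚ ℂ) * Ω) i j ∈ A := by
  rw [Matrix.mul_apply]
  refine Subalgebra.sum_mem _ fun k _ => ?_
  have h3 : (R.map (algebraMap K ℂ) * X.map (algebraMap ℚ ℂ)) i k =
      algebraMap K ℂ ((R * X.map (algebraMap ℚ K)) i k) := by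
    rw [Matrix.mul_apply, Matrix.mul_apply, map_sum]
    refine Finset.sum_congr rfl fun l _ => ?_
    rw [map_mul]
    rfl
  rw [h3]
  exact Subalgebra.mul_mem _ (Subalgebra.algebraMap_mem _ _) (hΩ k j)

/-- **no new numbers** -/
lemma ring_k {r n δ k : ℕ} {z : Fin r → ℂ} {K : IntermediateField ℚ ℂ} {R : Fin k → Matrix (Fin n) (Fin n) K}
    {P Ω : Fin k → Matrix (Fin n) (Fin n) ℂ} {ℓ : Fin k → ℂ} (X₀ : Fin k → Matrix (Fin n) (Fin n) ℚ)
    (h : ∀ F : MvPolynomial (Fin r ⊕ Fin k × Option (Fin n × Fin n)) K, (∀ x, F.degreeOf x ≤ δ) →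
      MvPolynomial.aeval (ptk z ℓ P) F = 0 →
      MvPolynomial.aeval (ptk z (fun _ => 0) fun l => (R l).map (algebraMap K ℂ) * (X₀ l).map (algebraMap ℚ ℂ) * Ω l) F = 0)
    (p : MvPolynomial (Fin r) K) (q : MvPolynomial (Fin k × Option (Fin n × Fin n)) K) (hp : ∀ x, p.degreeOf x ≤ δ)
    (hq : ∀ x, q.degreeOf x ≤ δ)
    (hpq : MvPolynomial.aeval z p = MvPolynomial.aeval (fun o => ptk z ℓ P (Sum.inr o)) q) (A : Subalgebra K ℂ)
    (hA : ∀ l i j, Ω l i j ∈ A) :
    MvPolynomial.aeval z p ∈ A := by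
  have hF : ∀ (L : Fin k → ℂ) (X : Fin k → Matrix (Fin n) (Fin n) ℂ), MvPolynomial.aeval (ptk z L X)
      (MvPolynomial.rename Sum.inl p - MvPolynomial.rename Sum.inr q) = MvPolynomial.aeval z p -
        MvPolynomial.aeval (fun o => ptk z L X (Sum.inr o)) q := by
    intro L X
    rw [map_sub, MvPolynomial.aeval_rename, MvPolynomial.aeval_rename]
    rfl
  have h1 := h (MvPolynomial.rename Sum.inl p - MvPolynomial.rename Sum.inr q)
    (fun x => (MvPolynomial.degreeOf_sub_le _ _ _).trans (max_le (degreeOf_rename_le Sum.inl_injective hp x)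
      (degreeOf_rename_le Sum.inr_injective hq x))) (by rw [hF, hpq, sub_self])
  rw [hF, sub_eq_zero] at h1
  rw [h1]
  set x : Fin k × Option (Fin n × Fin n) → ℂ := fun o => ptk z (fun _ => 0)
    (fun l => (R l).map (algebraMap K ℂ) * (X₀ l).map (algebraMap ℚ ℂ) * Ω l) (Sum.inr o) with hx
  have h2 : MvPolynomial.aeval x q ∈ Algebra.adjoin K (Set.range x) := by
    rw [Algebra.adjoin_range_eq_range_aeval]
    exact ⟨q, rfl⟩
  refine Algebra.adjoin_le ?_ h2
  rintro _ ⟨⟨l, o⟩, rfl⟩
  rcases o with _ | y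
  · exact Subalgebra.zero_mem _
  · exact mem_adj A (R l) (X₀ l) (Ω l) (hA l) y.1 y.2

/-- **algebraic numbers over the field of the periods** -/
lemma field_k {r k : ℕ} {z : Fin r → ℂ} {K : IntermediateField ℚ ℂ} (R : Fin k → Matrix (Fin n) (Fin n) K)
    (Ω : Fin k → Matrix (Fin n) (Fin n) ℂ) (L : Fin k → ℚ) (X : Fin k → Matrix (Fin n) (Fin n) ℚ) (i : Fin r)
    (F : MvPolynomial (Fin r ⊕ Fin k × Option (Fin n × Fin n)) K)
    (h0 : MvPolynomial.aeval (ptk z (fun l => (L l : ℂ)) fun l =>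
      (R l).map (algebraMap K ℂ) * (X l).map (algebraMap ℚ ℂ) * Ω l) F = 0) (ζ : ℂ)
    (h1 : MvPolynomial.aeval (ptk (Function.update z i ζ) (fun l => (L l : ℂ)) fun l =>
      (R l).map (algebraMap K ℂ) * (X l).map (algebraMap ℚ ℂ) * Ω l) F ≠ 0) (A : Subalgebra K ℂ)
    (hz : ∀ j, j ≠ i → z j ∈ A) (hΩ : ∀ l x y, Ω l x y ∈ A) :
    IsAlgebraic A (z i) := by
  classical
  have hL : ∀ l, (L l : ℂ) ∈ A := by
    intro l
    have h3 : (L l : ℂ) = algebraMap K ℂ (algebraMap ℚ K (L l)) := rfl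
    rw [h3]
    exact Subalgebra.algebraMap_mem _ _
  let zA : Fin r → A := fun j => if h : j = i then 0 else ⟨z j, hz j h⟩
  let LA : Fin k → A := fun l => ⟨(L l : ℂ), hL l⟩
  let XA : Fin k → Fin n × Fin n → A := fun l x => ⟨_, mem_adj A (R l) (X l) (Ω l) (hΩ l) x.1 x.2⟩
  let g : Fin r ⊕ Fin k × Option (Fin n × Fin n) → Polynomial A := Sum.elim
    (fun j => if j = i then Polynomial.X else Polynomial.C (zA j)) fun o => o.2.elim (Polynomial.C (LA o.1))
      fun x => Polynomial.C (XA o.1 x)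
  have hg : ∀ (w : ℂ) (s : Fin r ⊕ Fin k × Option (Fin n × Fin n)), Polynomial.aeval w (g s) =
      ptk (Function.update z i w) (fun l => (L l : ℂ)) (fun l =>
        (R l).map (algebraMap K ℂ) * (X l).map (algebraMap ℚ ℂ) * Ω l) s := by
    intro w s
    rcases s with j | ⟨l, o⟩
    · show Polynomial.aeval w (if j = i then Polynomial.X else Polynomial.C (zA j) : Polynomial A) = Function.update z i w j
      by_cases h : j = i
      · rw [if_pos h, Polynomial.aeval_X, h, Function.update_self]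
      · rw [if_neg h, Polynomial.aeval_C, Function.update_of_ne h]
        have h3 : zA j = ⟨z j, hz j h⟩ := dif_neg h
        rw [h3]
        rfl
    · rcases o with _ | x
      · show Polynomial.aeval w (Polynomial.C (LA l) : Polynomial A) = (L l : ℂ)
        rw [Polynomial.aeval_C]
        rfl
      · show Polynomial.aeval w (Polynomial.C (XA l x) : Polynomial A) =
          ((R l).map (algebraMap K ℂ) * (X l).map (algebraMap ℚ ℂ) * Ω l) x.1 x.2
        rw [Polynomial.aeval_C]
        rfl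
  have key : ∀ w : ℂ, Polynomial.aeval w (MvPolynomial.aeval g F) =
      MvPolynomial.aeval (ptk (Function.update z i w) (fun l => (L l : ℂ)) fun l =>
        (R l).map (algebraMap K ℂ) * (X l).map (algebraMap ℚ ℂ) * Ω l) F := by
    intro w
    have h3 := MvPolynomial.comp_aeval_apply g ((Polynomial.aeval w : Polynomial A →ₐ[A] ℂ).restrictScalars K) F
    refine Eq.trans h3 ?_
    congr 2
    funext s
    exact hg w s
  refine ⟨MvPolynomial.aeval g F, ?_, ?_⟩
  · intro h
    have h3 := key ζ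
    rw [h, map_zero] at h3
    exact h1 h3.symm
  · rw [key, Function.update_eq_self]
    exact h0

end Pool.Agent.P8H40.CY
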