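import Pool.Agent.P8H40.SE.Clu
import Pool.Agent.Y124.TH.Ca

/-!
# Project CY: relations over arbitrary constants, coordinates with denominators: at most `r + 1` clusters
-/

set_option autoImplicit false

open Module

namespace Pool.Agent.P8H40.CY

open Pool.Agent.Y124.TD Pool.Agent.Y124.TG Pool.Agent.Y120.GH Pool.Agent.Y124.TL Pool.Agent.P8H40.SE

/-- the logarithm and the values at `1/m` -/
noncomputable def vals {r₀ : ℕ} {V : Type} (h : Fin r₀ → PowerSeries ℚ) (T₀ : V → Fin r₀) (m : ℕ) (o : Option V) : ℂ :=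
  o.elim ((Real.log m : ℝ) : ℂ) fun v => hv h (m : ℝ) (T₀ v)

/-- A relation between `card σ` numbers over `K[θ]`, from which the numbers `x` can be computed. -/
def Exc (σ : Type) (a δ e : ℕ) {r : ℕ} (θ : Fin r → ℂ) {V : Type} (x : V → ℂ) (K : IntermediateField ℚ ℂ) : Prop :=
  ∃ w : σ → ℂ, ∀ K' : IntermediateField ℚ ℂ, K ≤ K' → ∀ W : Submodule K' ℂ, (1 : ℂ) ∈ W → (∀ i, θ i ∈ W) →
    (∃ P : MvPolynomial σ ℂ, P ≠ 0 ∧ (∀ x, P.degreeOf x ≤ δ) ∧ (∀ u, P.coeff u ∈ W ^ a) ∧ MvPolynomial.eval w P = 0) ∧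
    ((∀ j, w j ∈ W) → ∃ p, p ≠ 0 ∧ p ∈ W ^ e ∧ ∀ o, p * x o ∈ W ^ e)

/-- **The clash.** -/
theorem clash_dom {r₀ : ℕ} {T : Polynomial ℤ} {A : Fin r₀ → Fin r₀ → Polynomial ℤ} {h : Fin r₀ → PowerSeries ℚ} (hF : GF T A h)
    {V : Type} [Fintype V] (T₀ : V → Fin r₀) (hT : AlgebraicIndependent (Polynomial ℚ) (fun v => h (T₀ v)))
    (σ : Type) [Fintype σ] (hσ : Fintype.card σ = Fintype.card V + 1) :
    ∃ R : ℕ, ∀ r a δ e₀ D : ℕ, ∃ (c : ℝ) (M₀ : ℕ), 0 < c ∧ ∀ M : ℕ, M₀ ≤ M → ∀ θ : Fin r → ℂ, ∀ m : Fin (r + 2) → ℕ,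
      (∀ l, M ≤ m l ∧ (m l : ℝ) ≤ M + (M : ℝ) ^ c) → (∀ l l', l ≠ l' → (R : ℤ) ≤ |(m l : ℤ) - m l'|) →
      ∀ F : Fin (r + 2) → IntermediateField ℚ ℂ, (∀ l, FiniteDimensional ℚ (F l) ∧ finrank ℚ (F l) ≤ D) →
      ¬ ∀ l, Exc σ a δ e₀ θ (vals h T₀ (m l)) (F l) := by
  classical
  obtain ⟨R, hR⟩ := base_window hF T₀ hT
  refine ⟨R, fun r a δ e₀ D => ?_⟩
  set k := r + 2 with hk
  set d := Fintype.card V with hd
  set D' := D ^ k with hD'
  obtain ⟨c', hc'⟩ := gr_groups δ a (d + 1) k D' (0 + r)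
  obtain ⟨N, hN⟩ := gr_li' c' (0 + r + k * (d + 1 - 1) + 1) (k * (d + 1)) (e₀ * k + 1) (by
    rw [hk, Nat.add_sub_cancel]
    nlinarith)
  obtain ⟨c, M₁, hc, hbase⟩ := hR k N
  refine ⟨c, M₁ + 1, hc, fun M hM θ m hm hsep F hFd hE => ?_⟩
  obtain ⟨t, ht, hLI⟩ := hbase M (by omega) m hm hsep
  have hmpos : ∀ l, 0 < m l := fun l => by
    have := (hm l).1
    omega
  choose w hw using hE
  obtain ⟨K, hFK, hfin, hrk⟩ := sup_field k F hFd
  have h10 : (1 : ℂ) ∈ (1 : Submodule K ℂ) := Submodule.one_le.1 le_rfl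
  obtain ⟨W₀, hW₀, hθW, hG₀⟩ := gr_fam D' r 0 (1 : Submodule K ℂ) h10 (gr_one hrk) θ
  have h1W : (1 : ℂ) ∈ W₀ := hW₀ h10
  choose P hP0 hPd hPc hPe using fun l => (hw l K (hFK l) W₀ h1W hθW).1
  -- the relations
  let e : Fin (d + 1) ≃ σ := (Fintype.equivFinOfCardEq hσ).symm
  let us : (Fin (d + 1) → Fin (δ + 1)) → (σ →₀ ℕ) := fun s => Finsupp.equivFunOnFinite.symm fun x => (s (e.symm x) : ℕ)
  have hus : Function.Injective us := by
    intro s s' hss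
    funext i
    have h5 := DFunLike.congr_fun hss (e i)
    have h6 : (s (e.symm (e i)) : ℕ) = (s' (e.symm (e i)) : ℕ) := h5
    rw [Equiv.symm_apply_apply] at h6
    exact Fin.ext h6
  have hsurj : ∀ l (u : σ →₀ ℕ), (P l).coeff u ≠ 0 → ∃ s, us s = u := by
    intro l u hu
    have hdeg : ∀ x, u x ≤ δ := fun x =>
      (MvPolynomial.monomial_le_degreeOf x (MvPolynomial.mem_support_iff.2 hu)).trans (hPd l x)
    refine ⟨fun i => ⟨u (e i), Nat.lt_succ_of_le (hdeg _)⟩, ?_⟩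
    ext x
    show (u (e (e.symm x)) : ℕ) = u x
    rw [Equiv.apply_symm_apply]
  obtain ⟨W₁, hW₁, hYW, hG₁⟩ := hc' K W₀ h1W hG₀ (fun l i => w l (e i)) (fun l s => (P l).coeff (us s))
    (fun l s => hPc l _) (fun l => by
      obtain ⟨u, hu⟩ := MvPolynomial.ne_zero_iff.1 (hP0 l)
      obtain ⟨s, rfl⟩ := hsurj l u hu
      exact ⟨s, hu⟩) (fun l => by
      have h5 := hPe l
      rw [MvPolynomial.eval_eq'] at h5
      rw [← h5, eq_comm]
      have hsub : (P l).support ⊆ Finset.univ.image us := by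
        intro u hu
        obtain ⟨s, hs⟩ := hsurj l u (MvPolynomial.mem_support_iff.1 hu)
        exact Finset.mem_image.2 ⟨s, Finset.mem_univ _, hs⟩
      rw [Finset.sum_subset hsub, Finset.sum_image fun s _ s' _ hss => hus hss]
      · refine Finset.sum_congr rfl fun s _ => ?_
        congr 1
        rw [← Equiv.prod_comp e]
        refine Finset.prod_congr rfl fun i _ => ?_
        show w l (e i) ^ (s (e.symm (e i)) : ℕ) = _
        rw [Equiv.symm_apply_apply]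
      · intro u _ hu
        rw [MvPolynomial.notMem_support_iff.1 hu, zero_mul])
  have h11 : (1 : ℂ) ∈ W₁ := hW₁ h1W
  have hG₂ := gr_trans h11 hG₁ ((Real.log t : ℝ) : ℂ)
  set W₂ := W₁ ⊔ Submodule.span K {((Real.log t : ℝ) : ℂ)} with hW₂
  have h12 : (1 : ℂ) ∈ W₂ := Submodule.mem_sup_left h11
  have hwW : ∀ l j, w l j ∈ W₂ := fun l j => by
    have h5 := hYW l (e.symm j)
    simp only [Equiv.apply_symm_apply] at h5
    exact Submodule.mem_sup_left h5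
  have hlt : ((Real.log t : ℝ) : ℂ) ∈ W₂ := Submodule.mem_sup_right (Submodule.mem_span_singleton_self _)
  choose p hp0 hpW hpx using fun l => (hw l K (hFK l) W₂ h12 (fun i => Submodule.mem_sup_left (hW₁ (hθW i)))).2 (hwW l)
  obtain ⟨hq, hqx⟩ := Pool.Agent.Y124.TH.common p (fun l o => vals h T₀ (m l) o) hpW hpx
  refine hN K W₂ h12 hG₂ (Fin k × Option V) (by rw [Fintype.card_prod, Fintype.card_option, Fintype.card_fin]) _ (∏ l, p l)
    (Finset.prod_ne_zero_iff.2 fun l _ => hp0 l) (pow_mem_mono h12 (Nat.le_succ _) hq) (fun x => ?_) hLI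
  obtain ⟨l, o⟩ := x
  rcases o with _ | v
  · show (∏ l, p l) * ((Real.log (m l / t) : ℝ) : ℂ) ∈ W₂ ^ (e₀ * k + 1)
    have e1 : (0 : ℝ) < m l := by exact_mod_cast hmpos l
    have e2 : (0 : ℝ) < t := by exact_mod_cast ht
    rw [Real.log_div e1.ne' e2.ne', Complex.ofReal_sub, mul_sub]
    exact Submodule.sub_mem _ (pow_mem_mono h12 (Nat.le_succ _) (hqx l none)) (pow_mem_add hq (by rw [pow_one]; exact hlt))
  · exact pow_mem_mono h12 (Nat.le_succ _) (hqx l (some v))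

/-- **At most `r + 1` clusters** -/
theorem clusters_dom {r₀ : ℕ} {T : Polynomial ℤ} {A : Fin r₀ → Fin r₀ → Polynomial ℤ} {h : Fin r₀ → PowerSeries ℚ} (hF : GF T A h)
    {V : Type} [Fintype V] (T₀ : V → Fin r₀) (hT : AlgebraicIndependent (Polynomial ℚ) (fun v => h (T₀ v)))
    (σ : Type) [Fintype σ] (hσ : Fintype.card σ = Fintype.card V + 1) :
    ∃ G : ℕ, ∀ r a δ e D : ℕ, ∃ (c : ℝ) (M₀ : ℕ), 0 < c ∧ ∀ M : ℕ, M₀ ≤ M → ∀ θ : Fin r → ℂ, ∃ S : Finset ℕ, S.card ≤ r + 1 ∧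
      ∀ m : ℕ, M ≤ m → (m : ℝ) ≤ M + (M : ℝ) ^ c → (∀ x ∈ S, (G : ℤ) ≤ |(m : ℤ) - x|) →
        ∀ (K : IntermediateField ℚ ℂ) [FiniteDimensional ℚ K], finrank ℚ K ≤ D → ¬ Exc σ a δ e θ (vals h T₀ m) K := by
  classical
  obtain ⟨R, hR⟩ := clash_dom hF T₀ hT σ hσ
  refine ⟨R + 1, fun r a δ e D => ?_⟩
  obtain ⟨c, M₀, hc, hmain⟩ := hR r a δ e D
  refine ⟨c, M₀, hc, fun M hM θ => ?_⟩
  -- the exceptional integers
  let Ex : ℕ → Prop := fun m => M ≤ m ∧ (m : ℝ) ≤ M + (M : ℝ) ^ c ∧ ∃ (K : IntermediateField ℚ ℂ) (_ : FiniteDimensional ℚ K),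
    finrank ℚ K ≤ D ∧ Exc σ a δ e θ (vals h T₀ m) K
  let Q : ℕ → Prop := fun j => ∃ S : Finset ℕ, S.card = j ∧ (∀ x ∈ S, Ex x) ∧
    ∀ x ∈ S, ∀ y ∈ S, x ≠ y → ((R + 1 : ℕ) : ℤ) ≤ |(x : ℤ) - y|
  have hQ0 : Q 0 := ⟨∅, rfl, fun x hx => absurd hx (Finset.notMem_empty _), fun x hx => absurd hx (Finset.notMem_empty _)⟩
  have hQk : ¬ Q (r + 2) := by
    rintro ⟨S, hS, hE, hsep⟩
    let g : Fin (r + 2) → ℕ := fun i => S.orderEmbOfFin hS i
    have hgS : ∀ i, g i ∈ S := fun i => S.orderEmbOfFin_mem hS i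
    have hginj : Function.Injective g := (S.orderEmbOfFin hS).injective
    choose hg1 hg2 K hKf hKD hex using fun i => hE (g i) (hgS i)
    exact hmain M hM θ g (fun l => ⟨hg1 l, hg2 l⟩) (fun l l' hll => by
      have h5 := hsep (g l) (hgS l) (g l') (hgS l') (hginj.ne hll)
      push_cast at h5
      linarith) K (fun l => ⟨hKf l, hKD l⟩) hex
  obtain ⟨j, hj, hj1, hjr⟩ : ∃ j, Q j ∧ ¬ Q (j + 1) ∧ j ≤ r + 1 := by
    have hex : ∃ j, ¬ Q j := ⟨r + 2, hQk⟩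
    have h5 := Nat.find_spec hex
    have h6 : Nat.find hex ≤ r + 2 := Nat.find_min' hex hQk
    have h7 : Nat.find hex ≠ 0 := fun h8 => by
      rw [h8] at h5
      exact h5 hQ0
    obtain ⟨j, hj⟩ := Nat.exists_eq_succ_of_ne_zero h7
    refine ⟨j, ?_, ?_, by omega⟩
    · by_contra h8
      have h9 := Nat.find_min' hex h8
      omega
    · rw [← Nat.succ_eq_add_one, ← hj]
      exact h5
  obtain ⟨S, hS, hE, hsep⟩ := hj
  refine ⟨S, by omega, fun m hm1 hm2 hmS K _ hK hexc => ?_⟩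
  apply hj1
  have hmS' : m ∉ S := fun h => by
    have h5 := hmS m h
    rw [sub_self, abs_zero] at h5
    push_cast at h5
    omega
  refine ⟨insert m S, by rw [Finset.card_insert_of_notMem hmS', hS], fun x hx => ?_, fun x hx y hy hxy => ?_⟩
  · rcases Finset.mem_insert.1 hx with rfl | hx
    · exact ⟨hm1, hm2, K, inferInstance, hK, hexc⟩
    · exact hE x hx
  · rcases Finset.mem_insert.1 hx with hx' | hx' <;> rcases Finset.mem_insert.1 hy with hy' | hy'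
    · exact absurd (hx'.trans hy'.symm) hxy
    · rw [hx']
      exact hmS y hy'
    · rw [hy', abs_sub_comm]
      exact hmS x hx'
    · exact hsep x hx' y hy' hxy

end Pool.Agent.P8H40.CY
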