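import Mathlib

/-!
# Project CY (helper40): the periods of the hypergeometric Calabi-Yau fibres produce no new numbers. Packages

Mathlib only. A package is a theorem of the type `S_...`.
-/

set_option autoImplicit false

open Module

namespace Pool.Agent.P8H40.CY

/-- CAY (30 lines, Cayley transform). `S = J (g - 1) (g + 1)⁻¹`. With `A = g + 1`, `B = g - 1` one has
`Aᵀ J B = gᵀ J g - gᵀ J + J g - J = J g - gᵀ J` and `(Aᵀ J B)ᵀ = gᵀ Jᵀ - Jᵀ g = J g - gᵀ J`, so `Aᵀ (J B A⁻¹) A` is symmetric. And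
`1 - J⁻¹ S = (A - B) A⁻¹ = 2 A⁻¹`, `1 + J⁻¹ S = 2 g A⁻¹`. -/
def S_CAY : Prop := ∀ (n : ℕ) (J g : Matrix (Fin n) (Fin n) ℂ), J.transpose = -J → J.det ≠ 0 → g.transpose * J * g = J →
  (g + 1).det ≠ 0 → ∃ S : Matrix (Fin n) (Fin n) ℂ, S.transpose = S ∧ (1 - J⁻¹ * S).det ≠ 0 ∧ g * (1 - J⁻¹ * S) = 1 + J⁻¹ * S

/-- DEN (100 lines, density). A polynomial which vanishes at all `g` of the symplectic group with `det (g + 1) ≠ 0` vanishes on
the whole group. The group is generated by the transvections `1 + c • vecMulVec v (v ᵥ* J)`; see the last 50 lines of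
`sp_all` in `Pool/Agent/Y119/HY/Grp.lean` (from `set ω` on), which use `Pool.Agent.W948.ZC.TR.aux` (import
`Pool.Agent.Y119.HY.Grp` or only the module of `Pool.Agent.W948.ZC.TR.aux`). Let `S` be the submonoid of the `g` which are
`p(1)` for a matrix `p` with polynomial entries, `p(0) = 1`, `p(s)` in the group for all `s`; it is closed
under products and contains the transvections (`p(s)` the transvection with `s c` in the place of `c`), hence everything.
For such a path `f(p(s)) * det (p(s) + 1)` is a polynomial in `s` which vanishes for all `s`, and the second factor is not the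
zero polynomial (at `s = 0` it is `2 ^ n`), so `f(p(s)) = 0` for all `s`. -/
def S_DEN : Prop := ∀ (n : ℕ) (J : Matrix (Fin n) (Fin n) ℂ) (f : MvPolynomial (Fin n × Fin n) ℂ), J.transpose = -J → J.det ≠ 0 →
  (∀ g : Matrix (Fin n) (Fin n) ℂ, g.transpose * J * g = J → (g + 1).det ≠ 0 → MvPolynomial.eval (fun p => g p.1 p.2) f = 0) →
    ∀ g : Matrix (Fin n) (Fin n) ℂ, g.transpose * J * g = J → MvPolynomial.eval (fun p => g p.1 p.2) f = 0

/-- the places of a symmetric matrix -/
abbrev Tri (n : ℕ) : Type := {p : Fin n × Fin n // p.1 ≤ p.2}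

/-- the symmetric matrix with given entries -/
def sy {R : Type*} {n : ℕ} (y : Tri n → R) : Matrix (Fin n) (Fin n) R :=
  Matrix.of fun i j => y ⟨(min i j, max i j), min_le_max⟩

/-- POL (150 lines, homogenised substitution). `F'` is `∑_u f_u(θ) λ ^ u_none ∏ M_ij ^ u_ij d ^ (b - ∑ u_ij)`, where `f_u(θ)` is the
coefficient of `F` (a polynomial in `θ`), `λ` the variable `none`, `d = det (1 - Ji S)`, `S` the symmetric matrix of the
variables, `M = C (1 + Ji S) adj(1 - Ji S) (∑ i, λ ^ i • N i) B`, and `b = δ n²` is at least the total degree in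
the variables `some p`. The coefficients are in `W ^ a'` and the degrees are at most `δ'`, where `a'`, `δ'` depend only on
`n, r, δ, a`: work with the predicate `(∀ u, P.coeff u ∈ W ^ a) ∧ ∀ x, P.degreeOf x ≤ δ` and its behaviour under sums and
products (`MvPolynomial.coeff_mul`, `degreeOf_mul_le`, `degreeOf_add_le`), finite sums and products, matrix products,
determinants (`Matrix.det_apply`) and adjugates. -/
def S_POL : Prop := ∀ n r δ a : ℕ, ∃ a' δ' b : ℕ, ∀ (K : IntermediateField ℚ ℂ) (W : Submodule K ℂ), (1 : ℂ) ∈ W →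
  ∀ θ : Fin r → ℂ, (∀ i, θ i ∈ W) → ∀ F : MvPolynomial (Fin r ⊕ Option (Fin n × Fin n)) K, (∀ x, F.degreeOf x ≤ δ) →
  ∀ C B : Matrix (Fin n) (Fin n) ℂ, (∀ i j, C i j ∈ W ^ a) → (∀ i j, B i j ∈ W ^ a) →
  ∀ (Ji : Matrix (Fin n) (Fin n) ℚ) (N : Fin n → Matrix (Fin n) (Fin n) ℚ),
    ∃ F' : MvPolynomial (Option (Tri n)) ℂ, (∀ u, F'.coeff u ∈ W ^ a') ∧ (∀ x, F'.degreeOf x ≤ δ') ∧
      ∀ y : Option (Tri n) → ℂ, ∀ g : Matrix (Fin n) (Fin n) ℂ,
        (1 - Ji.map (algebraMap ℚ ℂ) * sy (fun p => y (some p))).det ≠ 0 →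
        g * (1 - Ji.map (algebraMap ℚ ℂ) * sy (fun p => y (some p))) = 1 + Ji.map (algebraMap ℚ ℂ) * sy (fun p => y (some p)) →
        MvPolynomial.eval y F' = (1 - Ji.map (algebraMap ℚ ℂ) * sy (fun p => y (some p))).det ^ b *
          MvPolynomial.aeval (Sum.elim θ fun o => o.elim (y none) fun p =>
            (C * (g * ∑ i : Fin n, (y none) ^ (i : ℕ) • (N i).map (algebraMap ℚ ℂ)) * B) p.1 p.2) F

end Pool.Agent.P8H40.CY
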