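import Pool.Agent.P8H40.HA.Fin
import Pool.Agent.P8H40.CY.Clash
import Pool.Agent.P8H40.CY.Stm

/-!
# Project CY: the holomorphic part of the Frobenius matrix at a fibre
-/

set_option autoImplicit false

open PowerSeries Module Filter Topology

namespace Pool.Agent.P8H40.CY

open Pool.Agent.Y113 (ev SDc)
open Pool.Agent.Y119.HY (QD Am Jm cm cm_apply cm_mul E QB Hc Hf)
open Pool.Agent.Y119.HZ (Hp Wp ix)
open Pool.Agent.P8H40.HA

variable {n : ℕ} {Q : Polynomial ℚ}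

/-- the holomorphic part at `1/t` -/
noncomputable def Vt (n : ℕ) (Q : Polynomial ℚ) (c t : ℕ) : Matrix (Fin n) (Fin n) ℂ := Vx (Hp n Q) ((t : ℝ) / c)

lemma Vt_eq (c t : ℕ) : Vt n Q c t = Hf (Hc n Q) (((c : ℝ) / t : ℝ) : ℂ) := by
  ext i j
  unfold Vt Vx
  rw [Matrix.of_apply, Pool.Agent.Y119.HZ.ev_Hp, one_div_div]

lemma Vt_form (hQ : QD n Q) {c t : ℕ} (hc : 1 ≤ c) (ht : c < t) :
    (Vt n Q c t).transpose * cm (Jm n Q) * Vt n Q c t = cm (Jm n Q) := by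
  rw [Vt_eq]
  have h1 : (0 : ℝ) < c := by exact_mod_cast hc
  have h2 : (c : ℝ) < t := by exact_mod_cast ht
  exact Hf_form hQ (div_pos h1 (h1.trans h2)) ((div_lt_one (h1.trans h2)).2 h2)

lemma Vt_det (hQ : QD n Q) (c : ℕ) : ∃ t₁ : ℕ, ∀ t : ℕ, t₁ ≤ t → (Vt n Q c t + 1).det ≠ 0 := by
  have hs := Pool.Agent.Y119.HY.sol_c hQ
  have hc1 : ContinuousAt (fun z : ℂ => Hf (Hc n Q) z) 0 := by
    refine continuousAt_pi.2 fun i => continuousAt_pi.2 fun j => ?_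
    exact (Pool.Agent.Y119.HY.Hf_an hs Pool.Agent.Y119.HY.Ac_nil i j 0 (Metric.mem_ball_self one_pos)).continuousAt
  have hc2 : ContinuousAt (fun z : ℂ => (Hf (Hc n Q) z + 1).det) 0 := by
    have h1 : ContinuousAt (fun z : ℂ => Hf (Hc n Q) z + 1) 0 := hc1.add continuousAt_const
    exact (Continuous.matrix_det continuous_id).continuousAt.comp h1
  have h0 : (Hf (Hc n Q) 0 + 1).det ≠ 0 := by
    rw [Pool.Agent.Y119.HY.Hf_zero hs]
    have h1 : (1 + 1 : Matrix (Fin n) (Fin n) ℂ) = (2 : ℂ) • 1 := by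
      rw [two_smul]
    rw [h1, Matrix.det_smul, Matrix.det_one, mul_one]
    exact pow_ne_zero _ two_ne_zero
  have ht : Tendsto (fun t : ℕ => (((c : ℝ) / t : ℝ) : ℂ)) atTop (𝓝 0) := by
    have h1 : Tendsto (fun t : ℕ => (c : ℝ) / t) atTop (𝓝 0) := tendsto_const_div_atTop_nhds_zero_nat _
    have h2 := (Complex.continuous_ofReal.tendsto 0).comp h1
    rw [Complex.ofReal_zero] at h2
    exact h2
  have h3 := ht.eventually (hc2.eventually_ne h0)
  obtain ⟨t₁, ht₁⟩ := eventually_atTop.1 h3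
  refine ⟨t₁, fun t h => ?_⟩
  rw [Vt_eq]
  exact ht₁ t h

lemma cm_inv (hQ : QD n Q) : (cm (Jm n Q))⁻¹ = ((Jm n Q)⁻¹).map (algebraMap ℚ ℂ) := by
  have h1 : cm (Jm n Q) * cm ((Jm n Q)⁻¹) = 1 := by
    rw [← cm_mul, Matrix.mul_nonsing_inv _ (Ne.isUnit (Pool.Agent.Y119.HY.Jm_det hQ)), Pool.Agent.Y119.HY.cm_one]
  exact Matrix.inv_eq_right_inv h1

/-- the family of the entries -/
theorem gfZ (hQ : QD n Q) (hH : ∀ i j, SDc (Hp n Q i j)) (c : ℕ) (hc : 1 ≤ c) :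
    ∃ (T : Polynomial ℤ) (A : Fin (n * n) → Fin (n * n) → Polynomial ℤ),
      Pool.Agent.Y124.TL.GF T A (fun a => Zc n Q c (ix n a).2 (ix n a).1) := by
  obtain ⟨D, b, hD, hb⟩ := Pool.Agent.Y119.HZ.exists_b n Q
  have hT : sc (c : ℤ) (Pool.Agent.Y119.HZ.T1 D) ≠ 0 := by
    intro h0
    have h1 := congrArg (fun p => Polynomial.coeff p 0) h0
    simp only [sc_coeff, pow_zero, mul_one, Polynomial.coeff_zero] at h1
    unfold Pool.Agent.Y119.HZ.T1 at h1
    rw [Polynomial.coeff_C_mul] at h1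
    simp at h1
    exact hD h1
  exact ⟨_, _, Pool.Agent.Results.MP_cbf1af_ag.AllTuplesDegenerating.gf (sc (c : ℤ) (Pool.Agent.Y119.HZ.T1 D))
    (Matrix.of fun k j => sc (c : ℤ) (Pool.Agent.Y119.HZ.A1 n D b j k)) (Nz n) (Zc n Q c) (Wc n Q c) hT (Nz_nil n) (ode_Zc hQ hb c)
    (coeff_zero_Zc c) (Wc_mul hQ c) (fun i j => gcond_rescale (sdc_gcond (hH j i)) c hc)
    (fun i j => gcond_rescale (sdc_gcond (Pool.Agent.Y119.HZ.SDc_Wp hH j i)) c hc)⟩

/-- the values are the entries -/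
lemma hv_pl {c t : ℕ} (hc : 1 ≤ c) (ht : 1 ≤ t) (i j : Fin n) :
    Pool.Agent.Y124.TL.hv (fun a => Zc n Q c (ix n a).2 (ix n a).1) (t : ℝ) ((ix n).symm (i, j)) = Vt n Q c t i j := by
  have h1 := congrFun (congrFun (val_eq (n := n) (Q := Q) c t hc ht) j) i
  unfold Pool.Agent.Results.MP_cbf1af_ag.AllTuplesDegenerating.val at h1
  rw [Matrix.of_apply, Matrix.transpose_apply] at h1
  unfold Vt
  rw [← h1]
  have h2 : (fun a => Zc n Q c (ix n a).2 (ix n a).1) ((ix n).symm (i, j)) = Zc n Q c j i := by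
    show Zc n Q c (ix n ((ix n).symm (i, j))).2 (ix n ((ix n).symm (i, j))).1 = _
    rw [Equiv.apply_symm_apply]
  unfold Pool.Agent.Y124.TL.hv
  rw [h2]
  rfl

/-- the independent entries -/
theorem indZ (hQ : QD n Q) {c : ℕ} (hc : 1 ≤ c) : ∃ T : Fin (n * (n + 1) / 2) → Fin n × Fin n,
    AlgebraicIndependent (Polynomial ℚ) (fun v => (fun a => Zc n Q c (ix n a).2 (ix n a).1) ((ix n).symm (T v))) := by
  obtain ⟨T, hT⟩ := ind hQ
  have hc0 : (c : ℚ) ≠ 0 := by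
    have : c ≠ 0 := by omega
    exact_mod_cast this
  refine ⟨T, ?_⟩
  have h1 := ind_rescale hT hc0
  convert h1 using 2 with v
  simp only [Equiv.apply_symm_apply]
  rfl

/-- the number of the places of a symmetric matrix -/
lemma card_Tri (n : ℕ) : Fintype.card (Option (Tri n)) = Fintype.card (Fin (n * (n + 1) / 2)) + 1 := by
  rw [Fintype.card_option, Fintype.card_fin]
  congr 1
  have h1 : Fintype.card (Tri n) = Fintype.card (Sym2 (Fin n)) := Fintype.card_congr Sym2.sortEquiv.symm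
  rw [h1, Sym2.card, Fintype.card_fin, Nat.choose_two_right]
  congr 1
  rw [Nat.add_sub_cancel, mul_comm]

/-- the exponential as a polynomial -/
noncomputable def En (n : ℕ) (i : Fin n) : Matrix (Fin n) (Fin n) ℚ := ((-1) ^ (i : ℕ) / ((i : ℕ).factorial : ℚ)) • (Am n) ^ (i : ℕ)

lemma sum_En (n : ℕ) (L : ℂ) : ∑ i : Fin n, L ^ (i : ℕ) • (En n i).map (algebraMap ℚ ℂ) = E (cm (Am n)) (-L) := by
  unfold E
  rw [← Fin.sum_univ_eq_sum_range (fun i => ((-L) ^ i / (i.factorial : ℂ)) • cm (Am n) ^ i) n]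
  refine Finset.sum_congr rfl fun i _ => ?_
  ext a b
  rw [← Pool.Agent.Y119.HY.cm_pow, Matrix.smul_apply, Matrix.smul_apply, Matrix.map_apply, cm_apply]
  unfold En
  rw [Matrix.smul_apply, smul_eq_mul, smul_eq_mul, smul_eq_mul, neg_pow]
  push_cast
  simp only [eq_ratCast]
  ring

end Pool.Agent.P8H40.CY
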