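import Pool.Agent.P8H40.CY.Rat

/-!
# Project CY: all relations hold on the torsor, for all fibres outside few clusters
-/

set_option autoImplicit false

open Module

namespace Pool.Agent.P8H40.CY

open Pool.Agent.Y113 (ev SDc)
open Pool.Agent.Y119.HY (QD Am Jm cm cm_apply cm_mul E QB Hc Hf)
open Pool.Agent.Y119.HZ (Hp Wp ix)
open Pool.Agent.P8H40.HA
open Pool.Agent.Y124.TD Pool.Agent.Y124.TG

/-- values of polynomials with coefficients in a smaller field -/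
lemma aeval_mem {r : ℕ} {δ : ℕ} {K K' : IntermediateField ℚ ℂ} (h : K ≤ K') {W : Submodule K' ℂ} (h1 : (1 : ℂ) ∈ W)
    {z : Fin r → ℂ} (hz : ∀ i, z i ∈ W) (p : MvPolynomial (Fin r) K) (hp : ∀ x, p.degreeOf x ≤ δ) :
    MvPolynomial.aeval z p ∈ W ^ (δ * r) := by
  classical
  rw [MvPolynomial.aeval_def, MvPolynomial.eval₂_eq']
  refine Submodule.sum_mem _ fun u hu => ?_
  have h2 := mem_pow_prod (W := W) Finset.univ (fun _ : Fin r => δ) (fun i => z i ^ (u i)) (by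
    intro i _
    refine pow_mem_mono h1 ((MvPolynomial.monomial_le_degreeOf i hu).trans (hp i)) ?_
    have := mem_pow_pow (W := W) (d := 1) (x := z i) (by rw [pow_one]; exact hz i) (u i)
    rwa [one_mul] at this)
  rw [Finset.sum_const, Finset.card_univ, Fintype.card_fin, smul_eq_mul, mul_comm] at h2
  have h3 : (algebraMap K ℂ) (p.coeff u) * ∏ i, z i ^ u i =
      ((⟨((p.coeff u : K) : ℂ), h (p.coeff u).2⟩ : K') : K') • ∏ i, z i ^ u i := by
    rw [Algebra.smul_def]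
    rfl
  rw [h3]
  exact Submodule.smul_mem _ _ h2

lemma const_mem {a : ℕ} {K K' : IntermediateField ℚ ℂ} (h : K ≤ K') {W : Submodule K' ℂ} (h1 : (1 : ℂ) ∈ W) (x : K) :
    (x : ℂ) ∈ W ^ a := by
  have h3 : (x : ℂ) = ((⟨(x : ℂ), h x.2⟩ : K') : K') • (1 : ℂ) := by
    rw [Algebra.smul_def, mul_one]
    rfl
  rw [h3]
  exact Submodule.smul_mem _ _ (one_mem_pow h1 a)

variable {m : ℕ}

/-- the rational form of the matrix `Pi` -/
noncomputable def Pq (α : Fin m → ℚ) : Matrix (Fin (2 * m)) (Fin (2 * m)) ℚ := Pm (2 * m) (M0 α)⁻¹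

lemma Pi_eq (α : Fin m → ℚ) : Pi α = (Pq α).map (algebraMap ℚ ℂ) := rfl

lemma Pq_unit {α : Fin m → ℚ} (hα : ∀ j, α j ≠ 0) : (Pq α).det ≠ 0 := by
  have h1 : (Pq α) * Pm (2 * m) (M0 α) = 1 := mul_eq_one_comm.1 (Pm_inv α hα)
  have h2 := congrArg Matrix.det h1
  rw [Matrix.det_mul, Matrix.det_one] at h2
  exact left_ne_zero_of_mul_eq_one h2

lemma cm_eq {n : ℕ} (A : Matrix (Fin n) (Fin n) ℚ) : cm A = A.map (algebraMap ℚ ℂ) := rfl

theorem final (hm : 1 ≤ m) (α : Fin m → ℚ) (hα : ∀ j, ∀ a : ℤ, α j ≠ a) (c : ℕ) (hc : 1 ≤ c) :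
    ∃ (G t₀ : ℕ) (J : ℕ → Matrix (Fin (2 * m)) (Fin (2 * m)) ℚ) (Jl : Matrix (Fin (2 * m)) (Fin (2 * m)) ℚ),
      c < t₀ ∧ Jl.transpose = -Jl ∧ Jl.det ≠ 0 ∧
      (∀ t : ℕ, t₀ ≤ t → (J t).transpose = -J t ∧ (J t).det ≠ 0 ∧
        (Ya α c t).transpose * (J t).map (algebraMap ℚ ℂ) * Ya α c t = Jl.map (algebraMap ℚ ℂ) ∧
        (∃ X : Matrix (Fin (2 * m)) (Fin (2 * m)) ℚ, X.transpose * J t * X = Jl) ∧
        ∀ (r : ℕ) (K : IntermediateField ℚ ℂ) (F : MvPolynomial (Fin r ⊕ Option (Fin (2 * m) × Fin (2 * m))) K)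
          (z : Fin r → ℂ) (P B : Matrix (Fin (2 * m)) (Fin (2 * m)) ℂ),
          (∀ (L : ℚ) (X : Matrix (Fin (2 * m)) (Fin (2 * m)) ℚ), X.transpose * J t * X = Jl →
            MvPolynomial.aeval (pt z (L : ℂ) (P * X.map (algebraMap ℚ ℂ) * B)) F = 0) →
          ∀ (L : ℂ) (X : Matrix (Fin (2 * m)) (Fin (2 * m)) ℂ),
            X.transpose * (J t).map (algebraMap ℚ ℂ) * X = Jl.map (algebraMap ℚ ℂ) →
            MvPolynomial.aeval (pt z L (P * X * B)) F = 0) ∧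
      ∀ r δ D : ℕ, ∃ (κ : ℝ) (M₀ : ℕ), 0 < κ ∧ t₀ ≤ M₀ ∧ ∀ M : ℕ, M₀ ≤ M → ∀ z : Fin r → ℂ,
        ∃ S : Finset ℕ, S.card ≤ r + 1 ∧ ∀ t : ℕ, M ≤ t → (t : ℝ) ≤ M + (M : ℝ) ^ κ → (∀ x ∈ S, (G : ℤ) ≤ |(t : ℤ) - x|) →
          ∀ (K : IntermediateField ℚ ℂ) [FiniteDimensional ℚ K], finrank ℚ K ≤ D →
            ∀ (R : Matrix (Fin (2 * m)) (Fin (2 * m)) K) (Ω : Matrix (Fin (2 * m)) (Fin (2 * m)) ℂ),
              (∀ i j, ∃ p : MvPolynomial (Fin r) K, (∀ x, p.degreeOf x ≤ δ) ∧ Ω i j = MvPolynomial.aeval z p) →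
              ∀ F : MvPolynomial (Fin r ⊕ Option (Fin (2 * m) × Fin (2 * m))) K, (∀ x, F.degreeOf x ≤ δ) →
                MvPolynomial.aeval (pt z ((Real.log t : ℝ) : ℂ) (R.map (algebraMap K ℂ) * Ya α c t * Ω)) F = 0 →
                ∀ (L : ℂ) (X : Matrix (Fin (2 * m)) (Fin (2 * m)) ℂ),
                  X.transpose * (J t).map (algebraMap ℚ ℂ) * X = Jl.map (algebraMap ℚ ℂ) →
                  MvPolynomial.aeval (pt z L (R.map (algebraMap K ℂ) * X * Ω)) F = 0 := by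
  classical
  have hβ : ∀ j, ∀ l : ℕ, (l : ℚ) + α j ≠ 0 ∧ (l : ℚ) + -α j ≠ 0 := by
    intro j l
    constructor
    · intro h
      apply hα j (-(l : ℤ))
      push_cast
      linear_combination h
    · intro h
      apply hα j (l : ℤ)
      push_cast
      linear_combination -h
  have hα0 : ∀ j, α j ≠ 0 := fun j h => hα j 0 (by rw [h]; simp)
  have hQ := Pool.Agent.Y119.HZ.QD_QB hm hβ
  have hH : ∀ i j, SDc (Hp (2 * m) (QB α) i j) := fun i j => Pool.Agent.Y119.HY.sdc_hps hβ hQ i j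
  obtain ⟨t₀, htc, hgauge⟩ := gauge_Ya hQ hα0 c hc
  choose Γ hΓ hY using hgauge
  obtain ⟨G, hG⟩ := core hQ hH c hc
  have hJs : (Jm (2 * m) (QB α)).transpose = -Jm (2 * m) (QB α) := Pool.Agent.Y119.HY.Jm_skew hQ
  have hJd : (Jm (2 * m) (QB α)).det ≠ 0 := Pool.Agent.Y119.HY.Jm_det hQ
  set J0 := Jm (2 * m) (QB α) with hJ0
  have hPd := Pq_unit hα0
  -- the forms
  set Jl : Matrix (Fin (2 * m)) (Fin (2 * m)) ℚ := (Pq α).transpose * J0 * Pq α with hJl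
  let J : ℕ → Matrix (Fin (2 * m)) (Fin (2 * m)) ℚ := fun t => if h : t₀ ≤ t then ((Γ t h)⁻¹).transpose * J0 * (Γ t h)⁻¹ else 0
  have hJt : ∀ t (h : t₀ ≤ t), J t = ((Γ t h)⁻¹).transpose * J0 * (Γ t h)⁻¹ := fun t h => dif_pos h
  have hΓd : ∀ t (h : t₀ ≤ t), (Γ t h).det ≠ 0 := fun t h => ((Matrix.isUnit_iff_isUnit_det _).1 (hΓ t h)).ne_zero
  have hskew : ∀ A : Matrix (Fin (2 * m)) (Fin (2 * m)) ℚ, (A.transpose * J0 * A).transpose = -(A.transpose * J0 * A) := by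
    intro A
    rw [Matrix.transpose_mul, Matrix.transpose_mul, Matrix.transpose_transpose, hJs, Matrix.neg_mul, Matrix.mul_neg, Matrix.mul_assoc]
  -- the rational inverse
  have hΓi : ∀ t (h : t₀ ≤ t), ((Γ t h)⁻¹).map (algebraMap ℚ ℂ) * (Γ t h).map (algebraMap ℚ ℂ) = 1 := by
    intro t h
    rw [← Matrix.map_mul, Matrix.nonsing_inv_mul _ (Ne.isUnit (hΓd t h)), Matrix.map_one _ (map_zero _) (map_one _)]
  have hΓi' : ∀ t (h : t₀ ≤ t), (Γ t h).map (algebraMap ℚ ℂ) * ((Γ t h)⁻¹).map (algebraMap ℚ ℂ) = 1 := fun t h =>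
    mul_eq_one_comm.1 (hΓi t h)
  have hPi : ((Pq α)⁻¹).map (algebraMap ℚ ℂ) * (Pq α).map (algebraMap ℚ ℂ) = 1 := by
    rw [← Matrix.map_mul, Matrix.nonsing_inv_mul _ (Ne.isUnit hPd), Matrix.map_one _ (map_zero _) (map_one _)]
  have hPi' : (Pq α).map (algebraMap ℚ ℂ) * ((Pq α)⁻¹).map (algebraMap ℚ ℂ) = 1 := mul_eq_one_comm.1 hPi
  have hJmap : ∀ t (h : t₀ ≤ t), (J t).map (algebraMap ℚ ℂ) =
      (((Γ t h)⁻¹).map (algebraMap ℚ ℂ)).transpose * cm J0 * ((Γ t h)⁻¹).map (algebraMap ℚ ℂ) := by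
    intro t h
    rw [hJt t h, Matrix.map_mul, Matrix.map_mul, Matrix.transpose_map, cm_eq]
  have hJlmap : Jl.map (algebraMap ℚ ℂ) = ((Pq α).map (algebraMap ℚ ℂ)).transpose * cm J0 * (Pq α).map (algebraMap ℚ ℂ) := by
    rw [hJl, Matrix.map_mul, Matrix.map_mul, Matrix.transpose_map, cm_eq]
  have hQrat : ∀ t (ht : t₀ ≤ t) (g : Matrix (Fin (2 * m)) (Fin (2 * m)) ℚ), g.transpose * J0 * g = J0 →
      (Γ t ht * g * Pq α).transpose * J t * (Γ t ht * g * Pq α) = Jl := by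
    intro t ht g hg
    rw [hJt t ht, hJl]
    have h3 : (Γ t ht)⁻¹ * Γ t ht = 1 := Matrix.nonsing_inv_mul _ (Ne.isUnit (hΓd t ht))
    calc (Γ t ht * g * Pq α).transpose * (((Γ t ht)⁻¹).transpose * J0 * (Γ t ht)⁻¹) * (Γ t ht * g * Pq α)
        = (Pq α).transpose * (g.transpose * (((Γ t ht)⁻¹ * Γ t ht).transpose * (J0 * (((Γ t ht)⁻¹ * Γ t ht) * (g * Pq α))))) := by
          simp only [Matrix.transpose_mul, Matrix.mul_assoc]
      _ = (Pq α).transpose * ((g.transpose * J0 * g) * Pq α) := by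
          rw [h3, Matrix.transpose_one]
          simp only [Matrix.one_mul, Matrix.mul_assoc]
      _ = _ := by rw [hg, Matrix.mul_assoc]
  have hback : ∀ t (ht : t₀ ≤ t) (X : Matrix (Fin (2 * m)) (Fin (2 * m)) ℂ),
      X.transpose * (J t).map (algebraMap ℚ ℂ) * X = Jl.map (algebraMap ℚ ℂ) →
      (((Γ t ht)⁻¹).map (algebraMap ℚ ℂ) * X * ((Pq α)⁻¹).map (algebraMap ℚ ℂ)).transpose * cm J0 *
        (((Γ t ht)⁻¹).map (algebraMap ℚ ℂ) * X * ((Pq α)⁻¹).map (algebraMap ℚ ℂ)) = cm J0 := by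
    intro t ht X hX
    rw [hJmap t ht, hJlmap] at hX
    set gi := ((Γ t ht)⁻¹).map (algebraMap ℚ ℂ)
    set p := (Pq α).map (algebraMap ℚ ℂ)
    set pi := ((Pq α)⁻¹).map (algebraMap ℚ ℂ)
    have h3 : p * pi = 1 := hPi'
    calc (gi * X * pi).transpose * cm J0 * (gi * X * pi)
        = pi.transpose * ((X.transpose * (gi.transpose * cm J0 * gi) * X) * pi) := by
          simp only [Matrix.transpose_mul, Matrix.mul_assoc]
      _ = (p * pi).transpose * (cm J0 * (p * pi)) := by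
          rw [hX]
          simp only [Matrix.transpose_mul, Matrix.mul_assoc]
      _ = _ := by rw [h3, Matrix.transpose_one, Matrix.one_mul, Matrix.mul_one]
  have hprod : ∀ t (ht : t₀ ≤ t) (P X B : Matrix (Fin (2 * m)) (Fin (2 * m)) ℂ), P * X * B = P * (Γ t ht).map (algebraMap ℚ ℂ) *
      (((Γ t ht)⁻¹).map (algebraMap ℚ ℂ) * X * ((Pq α)⁻¹).map (algebraMap ℚ ℂ)) * ((Pq α).map (algebraMap ℚ ℂ) * B) := by
    intro t ht P X B
    have h3 := hPi
    have h4 := hΓi' t ht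
    generalize (Γ t ht).map (algebraMap ℚ ℂ) = g at *
    generalize ((Γ t ht)⁻¹).map (algebraMap ℚ ℂ) = gi at *
    generalize (Pq α).map (algebraMap ℚ ℂ) = p at *
    generalize ((Pq α)⁻¹).map (algebraMap ℚ ℂ) = pi at *
    calc P * X * B = P * ((g * gi) * (X * ((pi * p) * B))) := by
          rw [h3, h4]
          simp only [Matrix.one_mul, Matrix.mul_assoc]
      _ = _ := by simp only [Matrix.mul_assoc]
  refine ⟨G, t₀, J, Jl, htc, hskew _, ?_, fun t ht => ⟨?_, ?_, ?_, ?_, ?_⟩, fun r δ D => ?_⟩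
  · rw [hJl, Matrix.det_mul, Matrix.det_mul, Matrix.det_transpose]
    exact mul_ne_zero (mul_ne_zero hPd hJd) hPd
  · rw [hJt t ht]
    exact hskew _
  · rw [hJt t ht, Matrix.det_mul, Matrix.det_mul, Matrix.det_transpose]
    have h1 : ((Γ t ht)⁻¹).det ≠ 0 := by
      rw [Matrix.det_nonsing_inv]
      exact (Ring.inverse_unit (Units.mk0 _ (hΓd t ht))) ▸ (Units.ne_zero _)
    exact mul_ne_zero (mul_ne_zero h1 hJd) h1
  · have h1 : (Vt (2 * m) (QB α) c t * E (cm (Am (2 * m))) (-((Real.log t : ℝ) : ℂ))).transpose * cm J0 *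
        (Vt (2 * m) (QB α) c t * E (cm (Am (2 * m))) (-((Real.log t : ℝ) : ℂ))) = cm J0 :=
      Pool.Agent.Y119.HZ.isom_mul (Vt_form hQ hc (by omega))
        (Pool.Agent.Y119.HY.E_isom Pool.Agent.Y119.HY.Ac_nil Pool.Agent.Y119.HY.Jc_rel _)
    set v := Vt (2 * m) (QB α) c t * E (cm (Am (2 * m))) (-((Real.log t : ℝ) : ℂ)) with hv
    have h2 : Ya α c t = (Γ t ht).map (algebraMap ℚ ℂ) * (v * (Pq α).map (algebraMap ℚ ℂ)) := hY t ht
    rw [h2, hJmap t ht, hJlmap]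
    set g := (Γ t ht).map (algebraMap ℚ ℂ)
    set gi := ((Γ t ht)⁻¹).map (algebraMap ℚ ℂ)
    set p := (Pq α).map (algebraMap ℚ ℂ)
    have h3 : gi * g = 1 := hΓi t ht
    calc (g * (v * p)).transpose * (gi.transpose * cm J0 * gi) * (g * (v * p))
        = p.transpose * (v.transpose * ((gi * g).transpose * (cm J0 * ((gi * g) * (v * p))))) := by
          simp only [Matrix.transpose_mul, Matrix.mul_assoc]
      _ = p.transpose * ((v.transpose * cm J0 * v) * p) := by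
          rw [h3, Matrix.transpose_one]
          simp only [Matrix.one_mul, Matrix.mul_assoc]
      _ = _ := by rw [h1, Matrix.mul_assoc]
  · have h1 := hQrat t ht 1 (by rw [Matrix.transpose_one, Matrix.one_mul, Matrix.mul_one])
    exact ⟨_, h1⟩
  · intro r K F z P B hrat L X hX
    rw [hprod t ht P X B]
    refine rat_dense hQ F z (P * (Γ t ht).map (algebraMap ℚ ℂ)) ((Pq α).map (algebraMap ℚ ℂ) * B) (fun L' g hg => ?_) L _
      (hback t ht X hX)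
    have h1 := hrat L' (Γ t ht * g * Pq α) (hQrat t ht g hg)
    rw [Matrix.map_mul, Matrix.map_mul] at h1
    have h2 : P * (Γ t ht).map (algebraMap ℚ ℂ) * g.map (algebraMap ℚ ℂ) * ((Pq α).map (algebraMap ℚ ℂ) * B) =
        P * ((Γ t ht).map (algebraMap ℚ ℂ) * g.map (algebraMap ℚ ℂ) * (Pq α).map (algebraMap ℚ ℂ)) * B := by
      simp only [Matrix.mul_assoc]
    rw [h2]
    exact h1
  · obtain ⟨κ, M₁, hκ, hM₁, hmain⟩ := hG r δ (δ * r + 1) D
    refine ⟨κ, max M₁ t₀, hκ, le_max_right _ _, fun M hM z => ?_⟩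
    obtain ⟨S, hS, hSt⟩ := hmain M ((le_max_left _ _).trans hM) z
    refine ⟨S, hS, fun t ht1 ht2 htS K _ hK R Ω hΩ F hF hrel L X hX => ?_⟩
    have ht : t₀ ≤ t := (le_max_right _ _).trans (hM.trans ht1)
    choose p hp hpΩ using hΩ
    have hPB : ∀ K' : IntermediateField ℚ ℂ, K ≤ K' → ∀ W : Submodule K' ℂ, (1 : ℂ) ∈ W → (∀ i, z i ∈ W) →
        ∀ i j, (R.map (algebraMap K ℂ) * (Γ t ht).map (algebraMap ℚ ℂ)) i j ∈ W ^ (δ * r + 1) ∧
          ((Pq α).map (algebraMap ℚ ℂ) * Ω) i j ∈ W ^ (δ * r + 1) := by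
      intro K' hKK' W h1 hz i j
      constructor
      · rw [Matrix.mul_apply]
        refine Submodule.sum_mem _ fun k _ => ?_
        rw [Matrix.map_apply, Matrix.map_apply, eq_ratCast, mul_comm (algebraMap K ℂ (R i k))]
        exact mQ _ (const_mem hKK' h1 (R i k))
      · rw [Matrix.mul_apply]
        refine Submodule.sum_mem _ fun k _ => ?_
        rw [Matrix.map_apply, eq_ratCast, hpΩ]
        exact mQ _ (pow_mem_mono h1 (Nat.le_succ _) (aeval_mem hKK' h1 hz _ (hp _ _)))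
    have h5 := hSt t ht1 ht2 htS K hK F hF (R.map (algebraMap K ℂ) * (Γ t ht).map (algebraMap ℚ ℂ))
      ((Pq α).map (algebraMap ℚ ℂ) * Ω) hPB (by
        rw [← hrel]
        congr 2
        have h2 : Ya α c t = (Γ t ht).map (algebraMap ℚ ℂ) * (Vt (2 * m) (QB α) c t *
          E (cm (Am (2 * m))) (-((Real.log t : ℝ) : ℂ)) * (Pq α).map (algebraMap ℚ ℂ)) := hY t ht
        rw [h2]
        simp only [Matrix.mul_assoc]) L
      _ (hback t ht X hX)
    rw [hprod t ht]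
    exact h5

end Pool.Agent.P8H40.CY
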