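import Pool.Agent.P8H40.CY.Fin

/-!
# Project CY: rational points of the torsor; no new numbers
-/

set_option autoImplicit false

open Module

namespace Pool.Agent.P8H40.CY

open Pool.Agent.Y113 (ev SDc)
open Pool.Agent.Y119.HY (QD Am Jm cm cm_apply cm_mul E QB Hc Hf)
open Pool.Agent.Y119.HZ (Hp Wp ix)
open Pool.Agent.P8H40.HA
open Pool.Agent.Y124.TD Pool.Agent.Y124.TG

lemma degreeOf_rename_le {δ : ℕ} {τ τ' : Type} {K : Type} [CommRing K] {f : τ → τ'} (hf : Function.Injective f)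
    {p : MvPolynomial τ K} (hp : ∀ y, p.degreeOf y ≤ δ) (x : τ') : (MvPolynomial.rename f p).degreeOf x ≤ δ := by
  classical
  by_cases hi : ∃ j, f j = x
  · obtain ⟨j, rfl⟩ := hi
    rw [MvPolynomial.degreeOf_rename_of_injective hf]
    exact hp j
  · have h2 : x ∉ (MvPolynomial.rename f p).vars := by
      intro h3
      obtain ⟨j, -, hj⟩ := Finset.mem_image.1 (MvPolynomial.vars_rename _ _ h3)
      exact hi ⟨j, hj⟩
    have h3 : (MvPolynomial.rename f p).degreeOf x = 0 := by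
      rw [MvPolynomial.degreeOf_def, Multiset.count_eq_zero]
      intro h4
      exact h2 (by rw [MvPolynomial.vars_def, Multiset.mem_toFinset]; exact h4)
    omega

/-- **no new numbers** -/
lemma ring_version {r n δ : ℕ} {z : Fin r → ℂ} {K : IntermediateField ℚ ℂ} {R : Matrix (Fin n) (Fin n) K}
    {Y Ω : Matrix (Fin n) (Fin n) ℂ} {ℓ : ℂ} (X₀ : Matrix (Fin n) (Fin n) ℚ)
    (h : ∀ F : MvPolynomial (Fin r ⊕ Option (Fin n × Fin n)) K, (∀ x, F.degreeOf x ≤ δ) →
      MvPolynomial.aeval (pt z ℓ (R.map (algebraMap K ℂ) * Y * Ω)) F = 0 →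
      MvPolynomial.aeval (pt z 0 (R.map (algebraMap K ℂ) * X₀.map (algebraMap ℚ ℂ) * Ω)) F = 0)
    (p : MvPolynomial (Fin r) K) (q : MvPolynomial (Option (Fin n × Fin n)) K) (hp : ∀ x, p.degreeOf x ≤ δ)
    (hq : ∀ x, q.degreeOf x ≤ δ)
    (hpq : MvPolynomial.aeval z p = MvPolynomial.aeval (fun o : Option (Fin n × Fin n) => o.elim ℓ fun x =>
      (R.map (algebraMap K ℂ) * Y * Ω) x.1 x.2) q) :
    MvPolynomial.aeval z p ∈ Algebra.adjoin K (Set.range fun x : Fin n × Fin n => Ω x.1 x.2) := by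
  have hF : ∀ (L : ℂ) (X : Matrix (Fin n) (Fin n) ℂ), MvPolynomial.aeval (pt z L X)
      (MvPolynomial.rename Sum.inl p - MvPolynomial.rename Sum.inr q) = MvPolynomial.aeval z p -
        MvPolynomial.aeval (fun o : Option (Fin n × Fin n) => o.elim L fun x => X x.1 x.2) q := by
    intro L X
    rw [map_sub, MvPolynomial.aeval_rename, MvPolynomial.aeval_rename]
    rfl
  have h1 := h (MvPolynomial.rename Sum.inl p - MvPolynomial.rename Sum.inr q)
    (fun x => (MvPolynomial.degreeOf_sub_le _ _ _).trans (max_le (degreeOf_rename_le Sum.inl_injective hp x)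
      (degreeOf_rename_le Sum.inr_injective hq x))) (by rw [hF, hpq, sub_self])
  rw [hF, sub_eq_zero] at h1
  rw [h1]
  set x : Option (Fin n × Fin n) → ℂ := fun o => o.elim 0 fun x =>
    (R.map (algebraMap K ℂ) * X₀.map (algebraMap ℚ ℂ) * Ω) x.1 x.2 with hx
  have h2 : MvPolynomial.aeval x q ∈ Algebra.adjoin K (Set.range x) := by
    rw [Algebra.adjoin_range_eq_range_aeval]
    exact ⟨q, rfl⟩
  refine Algebra.adjoin_le ?_ h2
  rintro _ ⟨o, rfl⟩
  rcases o with _ | y
  · exact Subalgebra.zero_mem _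
  · show (R.map (algebraMap K ℂ) * X₀.map (algebraMap ℚ ℂ) * Ω) y.1 y.2 ∈
      Algebra.adjoin K (Set.range fun x : Fin n × Fin n => Ω x.1 x.2)
    rw [Matrix.mul_apply]
    refine Subalgebra.sum_mem _ fun k _ => ?_
    have h3 : (R.map (algebraMap K ℂ) * X₀.map (algebraMap ℚ ℂ)) y.1 k =
        algebraMap K ℂ ((R * X₀.map (algebraMap ℚ K)) y.1 k) := by
      rw [Matrix.mul_apply, Matrix.mul_apply, map_sum]
      refine Finset.sum_congr rfl fun l _ => ?_
      rw [map_mul]
      rfl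
    rw [h3]
    refine Subalgebra.mul_mem _ (Subalgebra.algebraMap_mem _ _) (Algebra.subset_adjoin ⟨(k, y.2), rfl⟩)

end Pool.Agent.P8H40.CY
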