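import Pool.Agent.P8H40.CY.Fin
import Pool.Agent.P8H40.CY.Rat2

/-!
# Project CY: tuples of fibres: all relations hold on the product of the torsors
-/

set_option autoImplicit false

open Module

namespace Pool.Agent.P8H40.CY

open Pool.Agent.Y113 (ev SDc)
open Pool.Agent.Y119.HY (QD Am Jm cm cm_apply cm_mul E QB Hc Hf)
open Pool.Agent.Y119.HZ (Hp Wp ix)
open Pool.Agent.P8H40.HA
open Pool.Agent.Y124.TD Pool.Agent.Y124.TG

variable {m : ℕ}

theorem final_k (hm : 1 ≤ m) (α : Fin m → ℚ) (hα : ∀ j, ∀ a : ℤ, α j ≠ a) (c : ℕ) (hc : 1 ≤ c) :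
    ∃ (G t₀ : ℕ) (J : ℕ → Matrix (Fin (2 * m)) (Fin (2 * m)) ℚ) (Jl : Matrix (Fin (2 * m)) (Fin (2 * m)) ℚ),
      1 ≤ G ∧ c < t₀ ∧ Jl.transpose = -Jl ∧ Jl.det ≠ 0 ∧
      (∀ t : ℕ, t₀ ≤ t → (J t).transpose = -J t ∧ (J t).det ≠ 0 ∧
        (Ya α c t).transpose * (J t).map (algebraMap ℚ ℂ) * Ya α c t = Jl.map (algebraMap ℚ ℂ) ∧
        (∃ X : Matrix (Fin (2 * m)) (Fin (2 * m)) ℚ, X.transpose * J t * X = Jl)) ∧
      (∀ (k r : ℕ) (t : Fin k → ℕ), (∀ l, t₀ ≤ t l) → ∀ (K : IntermediateField ℚ ℂ)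
          (F : MvPolynomial (Fin r ⊕ Fin k × Option (Fin (2 * m) × Fin (2 * m))) K)
          (z : Fin r → ℂ) (P B : Fin k → Matrix (Fin (2 * m)) (Fin (2 * m)) ℂ),
          (∀ (L : Fin k → ℚ) (X : Fin k → Matrix (Fin (2 * m)) (Fin (2 * m)) ℚ), (∀ l, (X l).transpose * J (t l) * X l = Jl) →
            MvPolynomial.aeval (ptk z (fun l => (L l : ℂ)) fun l => P l * (X l).map (algebraMap ℚ ℂ) * B l) F = 0) →
          ∀ (L : Fin k → ℂ) (X : Fin k → Matrix (Fin (2 * m)) (Fin (2 * m)) ℂ),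
            (∀ l, (X l).transpose * (J (t l)).map (algebraMap ℚ ℂ) * X l = Jl.map (algebraMap ℚ ℂ)) →
            MvPolynomial.aeval (ptk z L fun l => P l * X l * B l) F = 0) ∧
      ∀ k r δ D : ℕ, 1 ≤ k → ∃ (κ : ℝ) (M₀ : ℕ), 0 < κ ∧ t₀ ≤ M₀ ∧ ∀ M : ℕ, M₀ ≤ M → ∀ z : Fin r → ℂ,
        ∃ S : Finset ℕ, S.card ≤ k * (r + 1) ∧ ∀ t : Fin k → ℕ, (∀ l, M ≤ t l ∧ (t l : ℝ) ≤ M + (M : ℝ) ^ κ) →
          (∀ l l', l ≠ l' → (G : ℤ) ≤ |(t l : ℤ) - t l'|) → (∀ l, ∀ x ∈ S, (G : ℤ) ≤ |(t l : ℤ) - x|) →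
          ∀ (K : IntermediateField ℚ ℂ) [FiniteDimensional ℚ K], finrank ℚ K ≤ D →
            ∀ (R : Fin k → Matrix (Fin (2 * m)) (Fin (2 * m)) K) (Ω : Fin k → Matrix (Fin (2 * m)) (Fin (2 * m)) ℂ),
              (∀ l i j, ∃ p : MvPolynomial (Fin r) K, (∀ x, p.degreeOf x ≤ δ) ∧ Ω l i j = MvPolynomial.aeval z p) →
              ∀ F : MvPolynomial (Fin r ⊕ Fin k × Option (Fin (2 * m) × Fin (2 * m))) K, (∀ x, F.degreeOf x ≤ δ) →
                MvPolynomial.aeval (ptk z (fun l => ((Real.log (t l) : ℝ) : ℂ))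
                  fun l => (R l).map (algebraMap K ℂ) * Ya α c (t l) * Ω l) F = 0 →
                ∀ (L : Fin k → ℂ) (X : Fin k → Matrix (Fin (2 * m)) (Fin (2 * m)) ℂ),
                  (∀ l, (X l).transpose * (J (t l)).map (algebraMap ℚ ℂ) * X l = Jl.map (algebraMap ℚ ℂ)) →
                  MvPolynomial.aeval (ptk z L fun l => (R l).map (algebraMap K ℂ) * X l * Ω l) F = 0 := by
  classical
  have hβ : ∀ j, ∀ l : ℕ, (l : ℚ) + α j ≠ 0 ∧ (l : ℚ) + -α j ≠ 0 := by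
    intro j l
    constructor
    · intro h
      apply hα j (-(l : ℤ))
      push_cast
      linear_combination h
    · intro h
      apply hα j (l : ℤ)
      push_cast
      linear_combination -h
  have hα0 : ∀ j, α j ≠ 0 := fun j h => hα j 0 (by rw [h]; simp)
  have hQ := Pool.Agent.Y119.HZ.QD_QB hm hβ
  have hH : ∀ i j, SDc (Hp (2 * m) (QB α) i j) := fun i j => Pool.Agent.Y119.HY.sdc_hps hβ hQ i j
  obtain ⟨t₀, htc, hgauge⟩ := gauge_Ya hQ hα0 c hc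
  choose Γ hΓ hY using hgauge
  obtain ⟨G, hG1, hG⟩ := core_k hQ hH c hc
  have hJs : (Jm (2 * m) (QB α)).transpose = -Jm (2 * m) (QB α) := Pool.Agent.Y119.HY.Jm_skew hQ
  have hJd : (Jm (2 * m) (QB α)).det ≠ 0 := Pool.Agent.Y119.HY.Jm_det hQ
  set J0 := Jm (2 * m) (QB α) with hJ0
  have hPd := Pq_unit hα0
  -- the forms
  set Jl : Matrix (Fin (2 * m)) (Fin (2 * m)) ℚ := (Pq α).transpose * J0 * Pq α with hJl
  let J : ℕ → Matrix (Fin (2 * m)) (Fin (2 * m)) ℚ := fun t => if h : t₀ ≤ t then ((Γ t h)⁻¹).transpose * J0 * (Γ t h)⁻¹ else 0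
  have hJt : ∀ t (h : t₀ ≤ t), J t = ((Γ t h)⁻¹).transpose * J0 * (Γ t h)⁻¹ := fun t h => dif_pos h
  have hΓd : ∀ t (h : t₀ ≤ t), (Γ t h).det ≠ 0 := fun t h => ((Matrix.isUnit_iff_isUnit_det _).1 (hΓ t h)).ne_zero
  have hskew : ∀ A : Matrix (Fin (2 * m)) (Fin (2 * m)) ℚ, (A.transpose * J0 * A).transpose = -(A.transpose * J0 * A) := by
    intro A
    rw [Matrix.transpose_mul, Matrix.transpose_mul, Matrix.transpose_transpose, hJs, Matrix.neg_mul, Matrix.mul_neg, Matrix.mul_assoc]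
  -- the rational inverse
  have hΓi : ∀ t (h : t₀ ≤ t), ((Γ t h)⁻¹).map (algebraMap ℚ ℂ) * (Γ t h).map (algebraMap ℚ ℂ) = 1 := by
    intro t h
    rw [← Matrix.map_mul, Matrix.nonsing_inv_mul _ (Ne.isUnit (hΓd t h)), Matrix.map_one _ (map_zero _) (map_one _)]
  have hΓi' : ∀ t (h : t₀ ≤ t), (Γ t h).map (algebraMap ℚ ℂ) * ((Γ t h)⁻¹).map (algebraMap ℚ ℂ) = 1 := fun t h =>
    mul_eq_one_comm.1 (hΓi t h)
  have hPi : ((Pq α)⁻¹).map (algebraMap ℚ ℂ) * (Pq α).map (algebraMap ℚ ℂ) = 1 := by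
    rw [← Matrix.map_mul, Matrix.nonsing_inv_mul _ (Ne.isUnit hPd), Matrix.map_one _ (map_zero _) (map_one _)]
  have hPi' : (Pq α).map (algebraMap ℚ ℂ) * ((Pq α)⁻¹).map (algebraMap ℚ ℂ) = 1 := mul_eq_one_comm.1 hPi
  have hJmap : ∀ t (h : t₀ ≤ t), (J t).map (algebraMap ℚ ℂ) =
      (((Γ t h)⁻¹).map (algebraMap ℚ ℂ)).transpose * cm J0 * ((Γ t h)⁻¹).map (algebraMap ℚ ℂ) := by
    intro t h
    rw [hJt t h, Matrix.map_mul, Matrix.map_mul, Matrix.transpose_map, cm_eq]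
  have hJlmap : Jl.map (algebraMap ℚ ℂ) = ((Pq α).map (algebraMap ℚ ℂ)).transpose * cm J0 * (Pq α).map (algebraMap ℚ ℂ) := by
    rw [hJl, Matrix.map_mul, Matrix.map_mul, Matrix.transpose_map, cm_eq]
  have hQrat : ∀ t (ht : t₀ ≤ t) (g : Matrix (Fin (2 * m)) (Fin (2 * m)) ℚ), g.transpose * J0 * g = J0 →
      (Γ t ht * g * Pq α).transpose * J t * (Γ t ht * g * Pq α) = Jl := by
    intro t ht g hg
    rw [hJt t ht, hJl]
    have h3 : (Γ t ht)⁻¹ * Γ t ht = 1 := Matrix.nonsing_inv_mul _ (Ne.isUnit (hΓd t ht))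
    calc (Γ t ht * g * Pq α).transpose * (((Γ t ht)⁻¹).transpose * J0 * (Γ t ht)⁻¹) * (Γ t ht * g * Pq α)
        = (Pq α).transpose * (g.transpose * (((Γ t ht)⁻¹ * Γ t ht).transpose * (J0 * (((Γ t ht)⁻¹ * Γ t ht) * (g * Pq α))))) := by
          simp only [Matrix.transpose_mul, Matrix.mul_assoc]
      _ = (Pq α).transpose * ((g.transpose * J0 * g) * Pq α) := by
          rw [h3, Matrix.transpose_one]
          simp only [Matrix.one_mul, Matrix.mul_assoc]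
      _ = _ := by rw [hg, Matrix.mul_assoc]
  have hback : ∀ t (ht : t₀ ≤ t) (X : Matrix (Fin (2 * m)) (Fin (2 * m)) ℂ),
      X.transpose * (J t).map (algebraMap ℚ ℂ) * X = Jl.map (algebraMap ℚ ℂ) →
      (((Γ t ht)⁻¹).map (algebraMap ℚ ℂ) * X * ((Pq α)⁻¹).map (algebraMap ℚ ℂ)).transpose * cm J0 *
        (((Γ t ht)⁻¹).map (algebraMap ℚ ℂ) * X * ((Pq α)⁻¹).map (algebraMap ℚ ℂ)) = cm J0 := by
    intro t ht X hX
    rw [hJmap t ht, hJlmap] at hX
    set gi := ((Γ t ht)⁻¹).map (algebraMap ℚ ℂ)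
    set p := (Pq α).map (algebraMap ℚ ℂ)
    set pi := ((Pq α)⁻¹).map (algebraMap ℚ ℂ)
    have h3 : p * pi = 1 := hPi'
    calc (gi * X * pi).transpose * cm J0 * (gi * X * pi)
        = pi.transpose * ((X.transpose * (gi.transpose * cm J0 * gi) * X) * pi) := by
          simp only [Matrix.transpose_mul, Matrix.mul_assoc]
      _ = (p * pi).transpose * (cm J0 * (p * pi)) := by
          rw [hX]
          simp only [Matrix.transpose_mul, Matrix.mul_assoc]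
      _ = _ := by rw [h3, Matrix.transpose_one, Matrix.one_mul, Matrix.mul_one]
  have hprod : ∀ t (ht : t₀ ≤ t) (P X B : Matrix (Fin (2 * m)) (Fin (2 * m)) ℂ), P * X * B = P * (Γ t ht).map (algebraMap ℚ ℂ) *
      (((Γ t ht)⁻¹).map (algebraMap ℚ ℂ) * X * ((Pq α)⁻¹).map (algebraMap ℚ ℂ)) * ((Pq α).map (algebraMap ℚ ℂ) * B) := by
    intro t ht P X B
    have h3 := hPi
    have h4 := hΓi' t ht
    generalize (Γ t ht).map (algebraMap ℚ ℂ) = g at *
    generalize ((Γ t ht)⁻¹).map (algebraMap ℚ ℂ) = gi at *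
    generalize (Pq α).map (algebraMap ℚ ℂ) = p at *
    generalize ((Pq α)⁻¹).map (algebraMap ℚ ℂ) = pi at *
    calc P * X * B = P * ((g * gi) * (X * ((pi * p) * B))) := by
          rw [h3, h4]
          simp only [Matrix.one_mul, Matrix.mul_assoc]
      _ = _ := by simp only [Matrix.mul_assoc]
  refine ⟨G, t₀, J, Jl, hG1, htc, hskew _, ?_, fun t ht => ⟨?_, ?_, ?_, ?_⟩, ?_, fun k r δ D hk => ?_⟩
  · rw [hJl, Matrix.det_mul, Matrix.det_mul, Matrix.det_transpose]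
    exact mul_ne_zero (mul_ne_zero hPd hJd) hPd
  · rw [hJt t ht]
    exact hskew _
  · rw [hJt t ht, Matrix.det_mul, Matrix.det_mul, Matrix.det_transpose]
    have h1 : ((Γ t ht)⁻¹).det ≠ 0 := by
      rw [Matrix.det_nonsing_inv]
      exact (Ring.inverse_unit (Units.mk0 _ (hΓd t ht))) ▸ (Units.ne_zero _)
    exact mul_ne_zero (mul_ne_zero h1 hJd) h1
  · have h1 : (Vt (2 * m) (QB α) c t * E (cm (Am (2 * m))) (-((Real.log t : ℝ) : ℂ))).transpose * cm J0 *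
        (Vt (2 * m) (QB α) c t * E (cm (Am (2 * m))) (-((Real.log t : ℝ) : ℂ))) = cm J0 :=
      Pool.Agent.Y119.HZ.isom_mul (Vt_form hQ hc (by omega))
        (Pool.Agent.Y119.HY.E_isom Pool.Agent.Y119.HY.Ac_nil Pool.Agent.Y119.HY.Jc_rel _)
    set v := Vt (2 * m) (QB α) c t * E (cm (Am (2 * m))) (-((Real.log t : ℝ) : ℂ)) with hv
    have h2 : Ya α c t = (Γ t ht).map (algebraMap ℚ ℂ) * (v * (Pq α).map (algebraMap ℚ ℂ)) := hY t ht
    rw [h2, hJmap t ht, hJlmap]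
    set g := (Γ t ht).map (algebraMap ℚ ℂ)
    set gi := ((Γ t ht)⁻¹).map (algebraMap ℚ ℂ)
    set p := (Pq α).map (algebraMap ℚ ℂ)
    have h3 : gi * g = 1 := hΓi t ht
    calc (g * (v * p)).transpose * (gi.transpose * cm J0 * gi) * (g * (v * p))
        = p.transpose * (v.transpose * ((gi * g).transpose * (cm J0 * ((gi * g) * (v * p))))) := by
          simp only [Matrix.transpose_mul, Matrix.mul_assoc]
      _ = p.transpose * ((v.transpose * cm J0 * v) * p) := by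
          rw [h3, Matrix.transpose_one]
          simp only [Matrix.one_mul, Matrix.mul_assoc]
      _ = _ := by rw [h1, Matrix.mul_assoc]
  · have h1 := hQrat t ht 1 (by rw [Matrix.transpose_one, Matrix.one_mul, Matrix.mul_one])
    exact ⟨_, h1⟩
  · intro k r t ht K F z P B hrat L X hX
    have h0 : (fun l => P l * X l * B l) = fun l => P l * (Γ (t l) (ht l)).map (algebraMap ℚ ℂ) *
        (((Γ (t l) (ht l))⁻¹).map (algebraMap ℚ ℂ) * X l * ((Pq α)⁻¹).map (algebraMap ℚ ℂ)) *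
        ((Pq α).map (algebraMap ℚ ℂ) * B l) := funext fun l => hprod (t l) (ht l) (P l) (X l) (B l)
    rw [h0]
    refine rat_dense_k hQ F z (fun l => P l * (Γ (t l) (ht l)).map (algebraMap ℚ ℂ))
      (fun l => (Pq α).map (algebraMap ℚ ℂ) * B l) (fun L' g hg => ?_) L _ (fun l => hback (t l) (ht l) (X l) (hX l))
    have h1 := hrat L' (fun l => Γ (t l) (ht l) * g l * Pq α) (fun l => hQrat (t l) (ht l) (g l) (hg l))
    have h2 : (fun l => P l * (Γ (t l) (ht l)).map (algebraMap ℚ ℂ) * (g l).map (algebraMap ℚ ℂ) *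
        ((Pq α).map (algebraMap ℚ ℂ) * B l)) =
        fun l => P l * (Γ (t l) (ht l) * g l * Pq α).map (algebraMap ℚ ℂ) * B l := by
      funext l
      rw [Matrix.map_mul, Matrix.map_mul]
      simp only [Matrix.mul_assoc]
    rw [h2]
    exact h1
  · obtain ⟨κ, M₁, hκ, hM₁, hmain⟩ := hG k r δ (δ * r + 1) D hk
    refine ⟨κ, max M₁ t₀, hκ, le_max_right _ _, fun M hM z => ?_⟩
    obtain ⟨S, hS, hSt⟩ := hmain M ((le_max_left _ _).trans hM) z
    refine ⟨S, hS, fun t ht1 hts htS K _ hK R Ω hΩ F hF hrel L X hX => ?_⟩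
    have ht : ∀ l, t₀ ≤ t l := fun l => (le_max_right _ _).trans (hM.trans (ht1 l).1)
    choose p hp hpΩ using hΩ
    have hPB : ∀ K' : IntermediateField ℚ ℂ, K ≤ K' → ∀ W : Submodule K' ℂ, (1 : ℂ) ∈ W → (∀ i, z i ∈ W) →
        ∀ l i j, ((R l).map (algebraMap K ℂ) * (Γ (t l) (ht l)).map (algebraMap ℚ ℂ)) i j ∈ W ^ (δ * r + 1) ∧
          ((Pq α).map (algebraMap ℚ ℂ) * Ω l) i j ∈ W ^ (δ * r + 1) := by
      intro K' hKK' W h1 hz l i j
      constructor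
      · rw [Matrix.mul_apply]
        refine Submodule.sum_mem _ fun k _ => ?_
        rw [Matrix.map_apply, Matrix.map_apply, eq_ratCast, mul_comm (algebraMap K ℂ (R l i k))]
        exact mQ _ (const_mem hKK' h1 (R l i k))
      · rw [Matrix.mul_apply]
        refine Submodule.sum_mem _ fun k _ => ?_
        rw [Matrix.map_apply, eq_ratCast, hpΩ]
        exact mQ _ (pow_mem_mono h1 (Nat.le_succ _) (aeval_mem hKK' h1 hz _ (hp _ _ _)))
    have h5 := hSt t ht1 hts htS K hK F hF (fun l => (R l).map (algebraMap K ℂ) * (Γ (t l) (ht l)).map (algebraMap ℚ ℂ))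
      (fun l => (Pq α).map (algebraMap ℚ ℂ) * Ω l) hPB (by
        have h6 : (fun l => (R l).map (algebraMap K ℂ) * Ya α c (t l) * Ω l) =
            fun l => (R l).map (algebraMap K ℂ) * (Γ (t l) (ht l)).map (algebraMap ℚ ℂ) * (Vt (2 * m) (QB α) c (t l) *
              E (cm (Am (2 * m))) (-((Real.log (t l) : ℝ) : ℂ))) * ((Pq α).map (algebraMap ℚ ℂ) * Ω l) := by
          funext l
          have h2 : Ya α c (t l) = (Γ (t l) (ht l)).map (algebraMap ℚ ℂ) * (Vt (2 * m) (QB α) c (t l) *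
            E (cm (Am (2 * m))) (-((Real.log (t l) : ℝ) : ℂ)) * (Pq α).map (algebraMap ℚ ℂ)) := hY (t l) (ht l)
          rw [h2]
          simp only [Matrix.mul_assoc]
        have h7 := hrel
        rw [h6] at h7
        exact h7) L
      _ (fun l => hback (t l) (ht l) (X l) (hX l))
    have h0 : (fun l => (R l).map (algebraMap K ℂ) * X l * Ω l) = fun l => (R l).map (algebraMap K ℂ) *
        (Γ (t l) (ht l)).map (algebraMap ℚ ℂ) *
        (((Γ (t l) (ht l))⁻¹).map (algebraMap ℚ ℂ) * X l * ((Pq α)⁻¹).map (algebraMap ℚ ℂ)) *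
        ((Pq α).map (algebraMap ℚ ℂ) * Ω l) := funext fun l => hprod (t l) (ht l) _ (X l) (Ω l)
    rw [h0]
    exact h5

end Pool.Agent.P8H40.CY
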