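import Pool.Agent.P8H40.CY.Main

/-!
# Project CY: the field version
-/

set_option autoImplicit false

open Module

namespace Pool.Agent.P8H40.CY

open Pool.Agent.Y119.HY (QD Am Jm cm cm_apply cm_mul E QB)

variable {n : ℕ}

/-- **algebraic numbers over the field of the periods** -/
lemma field_version {r : ℕ} {z : Fin r → ℂ} {K : IntermediateField ℚ ℂ} (R : Matrix (Fin n) (Fin n) K)
    (Ω : Matrix (Fin n) (Fin n) ℂ) (L : ℚ) (X : Matrix (Fin n) (Fin n) ℚ) (i : Fin r)
    (F : MvPolynomial (Fin r ⊕ Option (Fin n × Fin n)) K)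
    (h0 : MvPolynomial.aeval (pt z (L : ℂ) (R.map (algebraMap K ℂ) * X.map (algebraMap ℚ ℂ) * Ω)) F = 0) (ζ : ℂ)
    (h1 : MvPolynomial.aeval (pt (Function.update z i ζ) (L : ℂ) (R.map (algebraMap K ℂ) * X.map (algebraMap ℚ ℂ) * Ω)) F ≠ 0) :
    IsAlgebraic (Algebra.adjoin K (z '' {j | j ≠ i} ∪ Set.range fun x : Fin n × Fin n => Ω x.1 x.2)) (z i) := by
  classical
  set A := Algebra.adjoin K (z '' {j | j ≠ i} ∪ Set.range fun x : Fin n × Fin n => Ω x.1 x.2) with hA
  have hz : ∀ j, j ≠ i → z j ∈ A := fun j hj => Algebra.subset_adjoin (Or.inl ⟨j, hj, rfl⟩)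
  have hΩ : ∀ x y, Ω x y ∈ A := fun x y => Algebra.subset_adjoin (Or.inr ⟨(x, y), rfl⟩)
  have hX : ∀ x y, (R.map (algebraMap K ℂ) * X.map (algebraMap ℚ ℂ) * Ω) x y ∈ A := by
    intro x y
    rw [Matrix.mul_apply]
    refine Subalgebra.sum_mem _ fun k _ => ?_
    have h3 : (R.map (algebraMap K ℂ) * X.map (algebraMap ℚ ℂ)) x k =
        algebraMap K ℂ ((R * X.map (algebraMap ℚ K)) x k) := by
      rw [Matrix.mul_apply, Matrix.mul_apply, map_sum]
      refine Finset.sum_congr rfl fun l _ => ?_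
      rw [map_mul]
      rfl
    rw [h3]
    exact Subalgebra.mul_mem _ (Subalgebra.algebraMap_mem _ _) (hΩ k y)
  have hL : (L : ℂ) ∈ A := by
    have h3 : (L : ℂ) = algebraMap K ℂ (algebraMap ℚ K L) := rfl
    rw [h3]
    exact Subalgebra.algebraMap_mem _ _
  let zA : Fin r → A := fun j => if h : j = i then 0 else ⟨z j, hz j h⟩
  let LA : A := ⟨(L : ℂ), hL⟩
  let XA : Fin n × Fin n → A := fun x => ⟨_, hX x.1 x.2⟩
  let g : Fin r ⊕ Option (Fin n × Fin n) → Polynomial A := Sum.elim
    (fun j => if j = i then Polynomial.X else Polynomial.C (zA j)) fun o => o.elim (Polynomial.C LA) fun x => Polynomial.C (XA x)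
  have hg : ∀ (w : ℂ) (s : Fin r ⊕ Option (Fin n × Fin n)), Polynomial.aeval w (g s) =
      pt (Function.update z i w) (L : ℂ) (R.map (algebraMap K ℂ) * X.map (algebraMap ℚ ℂ) * Ω) s := by
    intro w s
    rcases s with j | o
    · show Polynomial.aeval w (if j = i then Polynomial.X else Polynomial.C (zA j) : Polynomial A) = Function.update z i w j
      by_cases h : j = i
      · rw [if_pos h, Polynomial.aeval_X, h, Function.update_self]
      · rw [if_neg h, Polynomial.aeval_C, Function.update_of_ne h]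
        have h3 : zA j = ⟨z j, hz j h⟩ := dif_neg h
        rw [h3]
        rfl
    · rcases o with _ | x
      · show Polynomial.aeval w (Polynomial.C LA : Polynomial A) = (L : ℂ)
        rw [Polynomial.aeval_C]
        rfl
      · show Polynomial.aeval w (Polynomial.C (XA x) : Polynomial A) =
          (R.map (algebraMap K ℂ) * X.map (algebraMap ℚ ℂ) * Ω) x.1 x.2
        rw [Polynomial.aeval_C]
        rfl
  have key : ∀ w : ℂ, Polynomial.aeval w (MvPolynomial.aeval g F) =
      MvPolynomial.aeval (pt (Function.update z i w) (L : ℂ) (R.map (algebraMap K ℂ) * X.map (algebraMap ℚ ℂ) * Ω)) F := by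
    intro w
    have h3 := MvPolynomial.comp_aeval_apply g ((Polynomial.aeval w : Polynomial A →ₐ[A] ℂ).restrictScalars K) F
    refine Eq.trans h3 ?_
    congr 2
    funext s
    exact hg w s
  refine ⟨MvPolynomial.aeval g F, ?_, ?_⟩
  · intro h
    have h3 := key ζ
    rw [h, map_zero] at h3
    exact h1 h3.symm
  · rw [key, Function.update_eq_self]
    exact h0

end Pool.Agent.P8H40.CY
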