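import Pool.Agent.P8H40.CY.Rat2

/-!
# Project CY: extension of the relations to the symplectic similitudes
-/

set_option autoImplicit false

open Module

namespace Pool.Agent.P8H40.CY

variable {n k : ℕ}

/-- logarithms and the entries of matrices -/
def px (L : Fin k → ℂ) (X : Fin k → Matrix (Fin n) (Fin n) ℂ) : Fin k × Option (Fin n × Fin n) → ℂ :=
  fun o => o.2.elim (L o.1) fun p => X o.1 p.1 p.2

/-- relations over `K` hold for all multipliers -/
theorem gsp_ext {K : IntermediateField ℚ ℂ} [FiniteDimensional ℚ K] {J : Fin k → Matrix (Fin n) (Fin n) ℚ}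
    {Jl : Matrix (Fin n) (Fin n) ℚ} (hJl : Jl.det ≠ 0) (R U : Fin k → Matrix (Fin n) (Fin n) K) (Ω : Matrix (Fin n) (Fin n) ℂ)
    {lam : ℂ} (hlam : Transcendental ℚ lam)
    (hΩ : Ω.transpose * Jl.map (algebraMap ℚ ℂ) * Ω = lam • Jl.map (algebraMap ℚ ℂ))
    (F : MvPolynomial (Fin k × Option (Fin n × Fin n)) K)
    (hrel : ∀ (L : Fin k → ℂ) (X : Fin k → Matrix (Fin n) (Fin n) ℂ),
      (∀ l, (X l).transpose * (J l).map (algebraMap ℚ ℂ) * X l = Jl.map (algebraMap ℚ ℂ)) →
      MvPolynomial.aeval (px L fun l => (R l).map (algebraMap K ℂ) * X l * (Ω * (U l).map (algebraMap K ℂ))) F = 0)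
    (hdense : ∀ P B : Fin k → Matrix (Fin n) (Fin n) ℂ,
      (∀ (L : Fin k → ℚ) (X : Fin k → Matrix (Fin n) (Fin n) ℚ), (∀ l, (X l).transpose * J l * X l = Jl) →
        MvPolynomial.aeval (px (fun l => (L l : ℂ)) fun l => P l * (X l).map (algebraMap ℚ ℂ) * B l) F = 0) →
      ∀ (L : Fin k → ℂ) (X : Fin k → Matrix (Fin n) (Fin n) ℂ),
        (∀ l, (X l).transpose * (J l).map (algebraMap ℚ ℂ) * X l = Jl.map (algebraMap ℚ ℂ)) →
        MvPolynomial.aeval (px L fun l => P l * X l * B l) F = 0) :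
    ∀ (μ : ℂ), μ ≠ 0 → ∀ (L : Fin k → ℂ) (X : Fin k → Matrix (Fin n) (Fin n) ℂ),
      (∀ l, (X l).transpose * (J l).map (algebraMap ℚ ℂ) * X l = μ • Jl.map (algebraMap ℚ ℂ)) →
      MvPolynomial.aeval (px L fun l => (R l).map (algebraMap K ℂ) * X l * (U l).map (algebraMap K ℂ)) F = 0 := by
  classical
  have hlam0 : lam ≠ 0 := fun h => hlam (by rw [h]; exact isAlgebraic_zero)
  obtain ⟨ν₀, hν₀⟩ := IsAlgClosed.exists_pow_nat_eq lam (n := 2) (by norm_num)
  have hν0 : ν₀ ≠ 0 := fun h => hlam0 (by rw [← hν₀, h]; norm_num)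
  have hνt : Transcendental K ν₀ := by
    intro h
    have h1 : IsAlgebraic ℚ ν₀ := h.restrictScalars ℚ
    exact hlam (by rw [← hν₀]; exact h1.pow 2)
  -- the matrix of the limit is invertible
  have hJd : (Jl.map (algebraMap ℚ ℂ)).det ≠ 0 := by
    have h1 := (RingHom.map_det (algebraMap ℚ ℂ) Jl).symm
    rw [RingHom.mapMatrix_apply] at h1
    rw [h1]
    exact fun h => hJl ((map_eq_zero _).1 h)
  have hΩd : Ω.det ≠ 0 := by
    intro h
    have h1 := congrArg Matrix.det hΩ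
    rw [Matrix.det_mul, Matrix.det_mul, h, mul_zero, Matrix.det_smul] at h1
    exact (mul_ne_zero (pow_ne_zero _ hlam0) hJd) h1.symm
  have hΩi : Ω * Ω⁻¹ = 1 := Matrix.mul_nonsing_inv _ (Ne.isUnit hΩd)
  have hΩi' : Ω⁻¹ * Ω = 1 := Matrix.nonsing_inv_mul _ (Ne.isUnit hΩd)
  -- step 1
  have step1 : ∀ (L : Fin k → ℂ) (X : Fin k → Matrix (Fin n) (Fin n) ℂ),
      (∀ l, (X l).transpose * (J l).map (algebraMap ℚ ℂ) * X l = Jl.map (algebraMap ℚ ℂ)) →
      MvPolynomial.aeval (px L fun l => (R l).map (algebraMap K ℂ) * (ν₀ • X l) * (U l).map (algebraMap K ℂ)) F = 0 := by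
    intro L X hX
    have h1 := hrel L (fun l => ν₀ • (X l * Ω⁻¹)) (fun l => by
      show (ν₀ • (X l * Ω⁻¹)).transpose * (J l).map (algebraMap ℚ ℂ) * (ν₀ • (X l * Ω⁻¹)) = Jl.map (algebraMap ℚ ℂ)
      have h2 : (ν₀ • (X l * Ω⁻¹)).transpose * (J l).map (algebraMap ℚ ℂ) * (ν₀ • (X l * Ω⁻¹)) =
          (Ω⁻¹).transpose * (lam • ((X l).transpose * (J l).map (algebraMap ℚ ℂ) * X l)) * Ω⁻¹ := by
        rw [Matrix.transpose_smul, Matrix.transpose_mul, ← hν₀]
        simp only [Matrix.smul_mul, Matrix.mul_smul, smul_smul, Matrix.mul_assoc]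
        rw [pow_two]
      rw [h2, hX l, ← hΩ]
      have h3 : (Ω⁻¹).transpose * Ω.transpose = 1 := by
        rw [← Matrix.transpose_mul, hΩi, Matrix.transpose_one]
      calc (Ω⁻¹).transpose * (Ω.transpose * Jl.map (algebraMap ℚ ℂ) * Ω) * Ω⁻¹
          = ((Ω⁻¹).transpose * Ω.transpose) * (Jl.map (algebraMap ℚ ℂ) * (Ω * Ω⁻¹)) := by
            simp only [Matrix.mul_assoc]
        _ = _ := by rw [h3, hΩi, Matrix.one_mul, Matrix.mul_one])
    have h4 : (fun l => (R l).map (algebraMap K ℂ) * (ν₀ • (X l * Ω⁻¹)) * (Ω * (U l).map (algebraMap K ℂ))) =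
        fun l => (R l).map (algebraMap K ℂ) * (ν₀ • X l) * (U l).map (algebraMap K ℂ) := by
      funext l
      have h5 : (R l).map (algebraMap K ℂ) * (ν₀ • (X l * Ω⁻¹)) * (Ω * (U l).map (algebraMap K ℂ)) =
          ν₀ • ((R l).map (algebraMap K ℂ) * (X l * ((Ω⁻¹ * Ω) * (U l).map (algebraMap K ℂ)))) := by
        simp only [Matrix.smul_mul, Matrix.mul_smul, Matrix.mul_assoc]
      rw [h5, hΩi', Matrix.one_mul]
      simp only [Matrix.smul_mul, Matrix.mul_smul, Matrix.mul_assoc]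
    rw [h4] at h1
    exact h1
  -- step 2
  have step2 : ∀ (ν : ℂ) (L : Fin k → ℚ) (X : Fin k → Matrix (Fin n) (Fin n) ℚ), (∀ l, (X l).transpose * J l * X l = Jl) →
      MvPolynomial.aeval (px (fun l => (L l : ℂ)) fun l =>
        (ν • (R l).map (algebraMap K ℂ)) * (X l).map (algebraMap ℚ ℂ) * (U l).map (algebraMap K ℂ)) F = 0 := by
    intro ν L X hX
    let N : Fin k → Matrix (Fin n) (Fin n) K := fun l => R l * (X l).map (algebraMap ℚ K) * U l
    have hN : ∀ l, (N l).map (algebraMap K ℂ) =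
        (R l).map (algebraMap K ℂ) * (X l).map (algebraMap ℚ ℂ) * (U l).map (algebraMap K ℂ) := by
      intro l
      show (R l * (X l).map (algebraMap ℚ K) * U l).map (algebraMap K ℂ) = _
      rw [Matrix.map_mul, Matrix.map_mul]
      congr 2
    let g : Fin k × Option (Fin n × Fin n) → Polynomial K := fun o =>
      o.2.elim (Polynomial.C (algebraMap ℚ K (L o.1))) fun p => Polynomial.X * Polynomial.C (N o.1 p.1 p.2)
    have hg : ∀ (w : ℂ) (o : Fin k × Option (Fin n × Fin n)), Polynomial.aeval w (g o) =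
        px (fun l => (L l : ℂ)) (fun l =>
          (w • (R l).map (algebraMap K ℂ)) * (X l).map (algebraMap ℚ ℂ) * (U l).map (algebraMap K ℂ)) o := by
      rintro w ⟨l, o⟩
      rcases o with _ | p
      · show Polynomial.aeval w (Polynomial.C (algebraMap ℚ K (L l))) = (L l : ℂ)
        rw [Polynomial.aeval_C]
        rfl
      · show Polynomial.aeval w (Polynomial.X * Polynomial.C (N l p.1 p.2)) =
          ((w • (R l).map (algebraMap K ℂ)) * (X l).map (algebraMap ℚ ℂ) * (U l).map (algebraMap K ℂ)) p.1 p.2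
        rw [map_mul, Polynomial.aeval_X, Polynomial.aeval_C, Matrix.smul_mul, Matrix.smul_mul, Matrix.smul_apply, ← hN l,
          Matrix.map_apply, smul_eq_mul]
    have key : ∀ w : ℂ, Polynomial.aeval w (MvPolynomial.aeval g F) =
        MvPolynomial.aeval (px (fun l => (L l : ℂ)) fun l =>
          (w • (R l).map (algebraMap K ℂ)) * (X l).map (algebraMap ℚ ℂ) * (U l).map (algebraMap K ℂ)) F := by
      intro w
      refine Eq.trans (MvPolynomial.comp_aeval_apply g (Polynomial.aeval w : Polynomial K →ₐ[K] ℂ) F) ?_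
      congr 2
      funext o
      exact hg w o
    have h1 : MvPolynomial.aeval g F = 0 := by
      by_contra hne
      refine hνt ⟨_, hne, ?_⟩
      rw [key]
      have h2 := step1 (fun l => (L l : ℂ)) (fun l => (X l).map (algebraMap ℚ ℂ)) (fun l => by
        rw [← Matrix.transpose_map, ← Matrix.map_mul, ← Matrix.map_mul, hX l])
      have h3 : (fun l => (R l).map (algebraMap K ℂ) * (ν₀ • (X l).map (algebraMap ℚ ℂ)) * (U l).map (algebraMap K ℂ)) =
          fun l => (ν₀ • (R l).map (algebraMap K ℂ)) * (X l).map (algebraMap ℚ ℂ) * (U l).map (algebraMap K ℂ) := by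
        funext l
        simp only [Matrix.smul_mul, Matrix.mul_smul]
      rw [h3] at h2
      exact h2
    rw [← key, h1, map_zero]
  -- steps 3 and 4
  intro μ hμ L X hX
  obtain ⟨ν, hν⟩ := IsAlgClosed.exists_pow_nat_eq μ (n := 2) (by norm_num)
  have hνne : ν ≠ 0 := fun h => hμ (by rw [← hν, h]; norm_num)
  have h1 := hdense (fun l => ν • (R l).map (algebraMap K ℂ)) (fun l => (U l).map (algebraMap K ℂ)) (step2 ν) L
    (fun l => ν⁻¹ • X l) (fun l => by
      show (ν⁻¹ • X l).transpose * (J l).map (algebraMap ℚ ℂ) * (ν⁻¹ • X l) = Jl.map (algebraMap ℚ ℂ)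
      rw [Matrix.transpose_smul]
      simp only [Matrix.smul_mul, Matrix.mul_smul, smul_smul]
      rw [hX l, smul_smul, ← hν, show ν⁻¹ * ν⁻¹ * ν ^ 2 = 1 by field_simp, one_smul])
  have h2 : (fun l => (ν • (R l).map (algebraMap K ℂ)) * (ν⁻¹ • X l) * (U l).map (algebraMap K ℂ)) =
      fun l => (R l).map (algebraMap K ℂ) * X l * (U l).map (algebraMap K ℂ) := by
    funext l
    simp only [Matrix.smul_mul, Matrix.mul_smul, smul_smul]
    rw [inv_mul_cancel₀ hνne, one_smul]
  rw [h2] at h1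
  exact h1

end Pool.Agent.P8H40.CY
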