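import Pool.Agent.P8H40.CY.Fib
import Pool.Agent.P8H76.CY.Pol
import Pool.Agent.P8H52.CY.Cay
import Pool.Agent.P8H52.CY.Den

/-!
# Project CY: all relations hold on the torsor, for all fibres outside few clusters. Symmetric parameters
-/

set_option autoImplicit false

open Module

namespace Pool.Agent.P8H40.CY

open Pool.Agent.Y113 (ev SDc)
open Pool.Agent.Y119.HY (QD Am Jm cm cm_apply cm_mul E QB Hc Hf)
open Pool.Agent.Y119.HZ (Hp Wp ix)
open Pool.Agent.P8H40.HA
open Pool.Agent.Y124.TD Pool.Agent.Y124.TG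

variable {n : ℕ} {Q : Polynomial ℚ}

/-- constants, a logarithm and the entries of a matrix -/
def pt {r n : ℕ} (z : Fin r → ℂ) (L : ℂ) (X : Matrix (Fin n) (Fin n) ℂ) : Fin r ⊕ Option (Fin n × Fin n) → ℂ :=
  Sum.elim z fun o => o.elim L fun p => X p.1 p.2

lemma aeval_map_incl {τ : Type} {K K' : IntermediateField ℚ ℂ} (h : K ≤ K') (x : τ → ℂ) (F : MvPolynomial τ K) :
    MvPolynomial.aeval x (MvPolynomial.map (IntermediateField.inclusion h).toRingHom F) = MvPolynomial.aeval x F := by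
  rw [MvPolynomial.aeval_def, MvPolynomial.aeval_def, MvPolynomial.eval₂_map]
  rfl

lemma degreeOf_map_le' {τ : Type} {K K' : Type} [CommRing K] [CommRing K'] (φ : K →+* K') (F : MvPolynomial τ K) (x : τ) :
    (MvPolynomial.map φ F).degreeOf x ≤ F.degreeOf x := by
  classical
  rw [MvPolynomial.degreeOf_eq_sup, MvPolynomial.degreeOf_eq_sup]
  exact Finset.sup_mono (MvPolynomial.support_map_subset _ _)

/-- the substituted polynomials -/
noncomputable def sb {r : ℕ} (z : Fin r → ℂ) (L : ℂ) (P B : Matrix (Fin n) (Fin n) ℂ) :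
    Fin r ⊕ Option (Fin n × Fin n) → MvPolynomial (Fin n × Fin n) ℂ
  | Sum.inl i => MvPolynomial.C (z i)
  | Sum.inr none => MvPolynomial.C L
  | Sum.inr (some p) => ∑ l, (∑ k, MvPolynomial.C (P p.1 k) * MvPolynomial.X (k, l)) * MvPolynomial.C (B l p.2)

/-- substitution of a matrix product -/
lemma eval_f {r : ℕ} {K : IntermediateField ℚ ℂ} (F : MvPolynomial (Fin r ⊕ Option (Fin n × Fin n)) K) (z : Fin r → ℂ) (L : ℂ)
    (P B : Matrix (Fin n) (Fin n) ℂ) : ∃ f : MvPolynomial (Fin n × Fin n) ℂ, ∀ g : Matrix (Fin n) (Fin n) ℂ,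
      MvPolynomial.eval (fun p => g p.1 p.2) f = MvPolynomial.aeval (pt z L (P * g * B)) F := by
  refine ⟨MvPolynomial.aeval (sb z L P B) F, fun g => ?_⟩
  have hpt : ∀ x, MvPolynomial.eval (fun p => g p.1 p.2) (sb z L P B x) = pt z L (P * g * B) x := by
    intro x
    rcases x with i | o
    · exact MvPolynomial.eval_C _
    · rcases o with _ | p
      · exact MvPolynomial.eval_C _
      · show MvPolynomial.eval _ (∑ l, (∑ k, MvPolynomial.C (P p.1 k) * MvPolynomial.X (k, l)) * MvPolynomial.C (B l p.2)) =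
          (P * g * B) p.1 p.2
        rw [Matrix.mul_apply, map_sum]
        refine Finset.sum_congr rfl fun l _ => ?_
        rw [map_mul, map_sum, MvPolynomial.eval_C, Matrix.mul_apply]
        congr 1
        refine Finset.sum_congr rfl fun k _ => ?_
        rw [map_mul, MvPolynomial.eval_C, MvPolynomial.eval_X]
  rw [MvPolynomial.aeval_def, MvPolynomial.aeval_def, MvPolynomial.eval₂_eq', MvPolynomial.eval₂_eq', map_sum]
  refine Finset.sum_congr rfl fun u _ => ?_
  rw [map_mul, map_prod]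
  congr 1
  · exact MvPolynomial.eval_C _
  · refine Finset.prod_congr rfl fun x _ => ?_
    rw [map_pow, hpt]

theorem core (hQ : QD n Q) (hH : ∀ i j, SDc (Hp n Q i j)) (c : ℕ) (hc : 1 ≤ c) :
    ∃ G : ℕ, ∀ r δ a D : ℕ, ∃ (κ : ℝ) (M₀ : ℕ), 0 < κ ∧ c < M₀ ∧ ∀ M : ℕ, M₀ ≤ M → ∀ z : Fin r → ℂ,
      ∃ S : Finset ℕ, S.card ≤ r + 1 ∧ ∀ t : ℕ, M ≤ t → (t : ℝ) ≤ M + (M : ℝ) ^ κ → (∀ x ∈ S, (G : ℤ) ≤ |(t : ℤ) - x|) →
        ∀ (K : IntermediateField ℚ ℂ) [FiniteDimensional ℚ K], finrank ℚ K ≤ D →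
          ∀ F : MvPolynomial (Fin r ⊕ Option (Fin n × Fin n)) K, (∀ x, F.degreeOf x ≤ δ) →
          ∀ P B : Matrix (Fin n) (Fin n) ℂ,
            (∀ K' : IntermediateField ℚ ℂ, K ≤ K' → ∀ W : Submodule K' ℂ, (1 : ℂ) ∈ W → (∀ i, z i ∈ W) →
              ∀ i j, P i j ∈ W ^ a ∧ B i j ∈ W ^ a) →
            MvPolynomial.aeval (pt z ((Real.log t : ℝ) : ℂ)
              (P * (Vt n Q c t * E (cm (Am n)) (-((Real.log t : ℝ) : ℂ))) * B)) F = 0 →
            ∀ (L : ℂ) (g : Matrix (Fin n) (Fin n) ℂ), g.transpose * cm (Jm n Q) * g = cm (Jm n Q) →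
              MvPolynomial.aeval (pt z L (P * g * B)) F = 0 := by
  classical
  obtain ⟨T, A, hF⟩ := gfZ hQ hH c hc
  obtain ⟨T₁, hT₁⟩ := indZ hQ hc
  obtain ⟨G, hG⟩ := clusters_dom hF (fun v => (ix n).symm (T₁ v)) hT₁ (Option (Tri n)) (card_Tri n)
  obtain ⟨t₁, ht₁⟩ := Vt_det hQ c
  refine ⟨G, fun r δ a D => ?_⟩
  obtain ⟨a', δ', b, hpol⟩ := Pool.Agent.P8H76.CY.pol n r δ a
  obtain ⟨κ, M₁, hκ, hmain⟩ := hG r a' δ' (n + 1) D
  refine ⟨κ, M₁ + t₁ + c + 1, hκ, by omega, fun M hM z => ?_⟩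
  obtain ⟨S, hS, hSt⟩ := hmain M (by omega) z
  refine ⟨S, hS, fun t ht1 ht2 htS K _ hK F hFd P B hPB hrel L g hg => ?_⟩
  by_contra hne
  refine hSt t ht1 ht2 htS K hK ?_
  have hct : c < t := by omega
  have hJs := Pool.Agent.Y119.HY.Jc_skew hQ
  have hJd := Pool.Agent.Y119.HY.Jc_det hQ
  have hN : cm (Am n) ^ n = 0 := Pool.Agent.Y119.HY.Ac_nil
  obtain ⟨Sm, hsym, hdet, hcay⟩ := Pool.Agent.P8H52.CY.cay n (cm (Jm n Q)) (Vt n Q c t) hJs hJd (Vt_form hQ hc hct)
    (ht₁ t (by omega))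
  rw [cm_inv hQ] at hdet hcay
  set Ji := (Jm n Q)⁻¹ with hJi
  let w : Option (Tri n) → ℂ := fun o => o.elim ((Real.log t : ℝ) : ℂ) fun p => Sm p.1.1 p.1.2
  have hsy : sy (fun p => w (some p)) = Sm := by
    ext i j
    unfold sy
    rw [Matrix.of_apply]
    show Sm (min i j) (max i j) = Sm i j
    rcases le_total i j with h | h
    · rw [min_eq_left h, max_eq_right h]
    · rw [min_eq_right h, max_eq_left h]
      exact congrFun (congrFun hsym i) j
  refine ⟨w, fun K' hKK' W h1 hz => ⟨?_, ?_⟩⟩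
  · obtain ⟨F', hF'c, hF'd, hF'⟩ := hpol K' W h1 z hz (MvPolynomial.map (IntermediateField.inclusion hKK').toRingHom F)
      (fun x => (degreeOf_map_le' _ _ _).trans (hFd x)) P B (fun i j => (hPB K' hKK' W h1 hz i j).1)
      (fun i j => (hPB K' hKK' W h1 hz i j).2) Ji (En n)
    have hF2 : ∀ (y : Option (Tri n) → ℂ) (g : Matrix (Fin n) (Fin n) ℂ),
        (1 - Ji.map (algebraMap ℚ ℂ) * sy (fun p => y (some p))).det ≠ 0 →
        g * (1 - Ji.map (algebraMap ℚ ℂ) * sy (fun p => y (some p))) = 1 + Ji.map (algebraMap ℚ ℂ) * sy (fun p => y (some p)) →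
        MvPolynomial.eval y F' = (1 - Ji.map (algebraMap ℚ ℂ) * sy (fun p => y (some p))).det ^ b *
          MvPolynomial.aeval (pt z (y none) (P * (g * E (cm (Am n)) (-(y none))) * B)) F := by
      intro y g h2 h3
      have h4 := hF' y g h2 h3
      rw [aeval_map_incl, sum_En] at h4
      exact h4
    refine ⟨F', ?_, hF'd, hF'c, ?_⟩
    · intro h0
      apply hne
      have key : ∀ (L' : ℂ) (g' : Matrix (Fin n) (Fin n) ℂ), g'.transpose * cm (Jm n Q) * g' = cm (Jm n Q) →
          MvPolynomial.aeval (pt z L' (P * g' * (E (cm (Am n)) (-L') * B))) F = 0 := by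
        intro L'
        obtain ⟨f, hf⟩ := eval_f F z L' P (E (cm (Am n)) (-L') * B)
        have h5 := Pool.Agent.P8H52.CY.den n (cm (Jm n Q)) f hJs hJd (fun g'' hg'' hd'' => by
          rw [hf]
          obtain ⟨S'', hs'', hd3, hc3⟩ := Pool.Agent.P8H52.CY.cay n (cm (Jm n Q)) g'' hJs hJd hg'' hd''
          rw [cm_inv hQ] at hd3 hc3
          let y : Option (Tri n) → ℂ := fun o => o.elim L' fun p => S'' p.1.1 p.1.2
          have hsy' : sy (fun p => y (some p)) = S'' := by
            ext i j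
            unfold sy
            rw [Matrix.of_apply]
            show S'' (min i j) (max i j) = S'' i j
            rcases le_total i j with h | h
            · rw [min_eq_left h, max_eq_right h]
            · rw [min_eq_right h, max_eq_left h]
              exact congrFun (congrFun hs'' i) j
          have h6 := hF2 y g'' (by rw [hsy']; exact hd3) (by rw [hsy']; exact hc3)
          rw [h0, map_zero, hsy'] at h6
          have h7 := (mul_eq_zero.1 h6.symm).resolve_left (pow_ne_zero _ hd3)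
          have h8 : P * g'' * (E (cm (Am n)) (-L') * B) = P * (g'' * E (cm (Am n)) (-(y none))) * B := by
            show _ = P * (g'' * E (cm (Am n)) (-L')) * B
            simp only [Matrix.mul_assoc]
          rw [h8]
          exact h7)
        intro g' hg'
        rw [← hf]
        exact h5 g' hg'
      have hE : ∀ s : ℂ, (E (cm (Am n)) s).transpose * cm (Jm n Q) * E (cm (Am n)) s = cm (Jm n Q) := fun s =>
        Pool.Agent.Y119.HY.E_isom hN Pool.Agent.Y119.HY.Jc_rel s
      have h9 := key L (g * E (cm (Am n)) L) (Pool.Agent.Y119.HZ.isom_mul hg (hE L))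
      have h10 : P * (g * E (cm (Am n)) L) * (E (cm (Am n)) (-L) * B) = P * g * B := by
        have h11 : E (cm (Am n)) L * E (cm (Am n)) (-L) = 1 := Pool.Agent.Y119.HY.E_mul_neg hN L
        calc P * (g * E (cm (Am n)) L) * (E (cm (Am n)) (-L) * B) = P * g * ((E (cm (Am n)) L * E (cm (Am n)) (-L)) * B) := by
              simp only [Matrix.mul_assoc]
          _ = _ := by rw [h11, Matrix.one_mul]
      rw [h10] at h9
      exact h9
    · have h4 := hF2 w (Vt n Q c t) (by rw [hsy]; exact hdet) (by rw [hsy]; exact hcay)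
      rw [h4]
      have h5 : MvPolynomial.aeval (pt z (w none) (P * (Vt n Q c t * E (cm (Am n)) (-(w none))) * B)) F = 0 := hrel
      rw [h5, mul_zero]
  · intro hw
    have h1' : (1 : ℂ) ∈ W ^ 1 := by rw [pow_one]; exact h1
    have hS1 : ∀ i j, Sm i j ∈ W ^ 1 := by
      intro i j
      have h2 := congrFun (congrFun hsy i) j
      rw [← h2, pow_one]
      exact hw (some ⟨(min i j, max i j), min_le_max⟩)
    have hU : ∀ i j, (Ji.map (algebraMap ℚ ℂ) * Sm) i j ∈ W ^ 1 := by
      intro i j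
      rw [Matrix.mul_apply]
      refine Submodule.sum_mem _ fun k _ => ?_
      rw [Matrix.map_apply, eq_ratCast]
      exact mQ _ (hS1 _ _)
    have hone : ∀ i j, (1 : Matrix (Fin n) (Fin n) ℂ) i j ∈ W ^ 1 := by
      intro i j
      rw [Matrix.one_apply]
      split_ifs
      · exact h1'
      · exact Submodule.zero_mem _
    have hm : ∀ i j, (1 - Ji.map (algebraMap ℚ ℂ) * Sm) i j ∈ W := by
      intro i j
      have := Submodule.sub_mem _ (hone i j) (hU i j)
      rwa [pow_one] at this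
    have hp : ∀ i j, (1 + Ji.map (algebraMap ℚ ℂ) * Sm) i j ∈ W ^ 1 := by
      intro i j
      exact Submodule.add_mem _ (hone i j) (hU i j)
    have hdW := Pool.Agent.Y124.TG.det_mem _ hm
    refine ⟨(1 - Ji.map (algebraMap ℚ ℂ) * Sm).det, hdet, pow_mem_mono h1 (Nat.le_succ n) hdW, fun o => ?_⟩
    rcases o with _ | v
    · have h2 : w none ∈ W ^ 1 := by rw [pow_one]; exact hw _
      exact pow_mem_add hdW h2
    · have h2 : (1 - Ji.map (algebraMap ℚ ℂ) * Sm).det • Vt n Q c t =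
          (1 + Ji.map (algebraMap ℚ ℂ) * Sm) * (1 - Ji.map (algebraMap ℚ ℂ) * Sm).adjugate := by
        rw [← hcay, Matrix.mul_assoc, Matrix.mul_adjugate, Matrix.mul_smul, Matrix.mul_one]
      have h3 : (1 - Ji.map (algebraMap ℚ ℂ) * Sm).det * vals (fun a => Zc n Q c (ix n a).2 (ix n a).1)
          (fun v => (ix n).symm (T₁ v)) t (some v) =
          ((1 + Ji.map (algebraMap ℚ ℂ) * Sm) * (1 - Ji.map (algebraMap ℚ ℂ) * Sm).adjugate) (T₁ v).1 (T₁ v).2 := by
        rw [← h2, Matrix.smul_apply, smul_eq_mul]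
        congr 1
        exact hv_pl hc (by omega) _ _
      rw [h3, add_comm n 1]
      exact mul_mem' (V := W) (a := 1) (b := n) _ _ hp (adj_mem h1 _ hm) _ _

end Pool.Agent.P8H40.CY
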