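import Pool.Agent.P8H76.CY.Pol
import Pool.Agent.P8H40.CY.Fin2

/-!
# Project CY: homogenised substitution, tuples of fibres
-/

set_option autoImplicit false

open Module

namespace Pool.Agent.P8H40.CY

open Pool.Agent.P8H76.CY

/-- constants, logarithms and the entries of matrices -/
def ptk {r n k : ℕ} (z : Fin r → ℂ) (L : Fin k → ℂ) (X : Fin k → Matrix (Fin n) (Fin n) ℂ) :
    Fin r ⊕ Fin k × Option (Fin n × Fin n) → ℂ :=
  Sum.elim z fun o => o.2.elim (L o.1) fun p => X o.1 p.1 p.2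

lemma bd_rename {τ τ' : Type} {K : IntermediateField ℚ ℂ} {W : Submodule K ℂ} {f : τ → τ'} (hf : Function.Injective f) {a δ : ℕ}
    {P : MvPolynomial τ ℂ} (hP : Bd W a δ P) : Bd W a δ (MvPolynomial.rename f P) := by
  classical
  refine ⟨fun u => ?_, fun x => degreeOf_rename_le hf hP.2 x⟩
  by_cases h : ∃ v : τ →₀ ℕ, v.mapDomain f = u
  · obtain ⟨v, rfl⟩ := h
    rw [MvPolynomial.coeff_rename_mapDomain f hf]
    exact hP.1 v
  · rw [MvPolynomial.coeff_rename_eq_zero f P u (fun v hv => (h ⟨v, hv⟩).elim)]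
    exact Submodule.zero_mem _

/-- the exponents in the variables of the fibre `l` -/
noncomputable def ul {r n k : ℕ} (u : (Fin r ⊕ Fin k × Option (Fin n × Fin n)) →₀ ℕ) (l : Fin k) :
    (Fin 0 ⊕ Option (Fin n × Fin n)) →₀ ℕ :=
  Finsupp.equivFunOnFinite.symm (Sum.elim (fun i => i.elim0) fun o => u (Sum.inr (l, o)))

theorem pol_k (n r k δ a : ℕ) : ∃ a' δ' b : ℕ, ∀ (K : IntermediateField ℚ ℂ) (W : Submodule K ℂ), (1 : ℂ) ∈ W →
    ∀ θ : Fin r → ℂ, (∀ i, θ i ∈ W) → ∀ F : MvPolynomial (Fin r ⊕ Fin k × Option (Fin n × Fin n)) K, (∀ x, F.degreeOf x ≤ δ) →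
    ∀ C B : Fin k → Matrix (Fin n) (Fin n) ℂ, (∀ l i j, C l i j ∈ W ^ a) → (∀ l i j, B l i j ∈ W ^ a) →
    ∀ (Ji : Matrix (Fin n) (Fin n) ℚ) (N : Fin n → Matrix (Fin n) (Fin n) ℚ),
      ∃ F' : MvPolynomial (Fin k × Option (Tri n)) ℂ, (∀ u, F'.coeff u ∈ W ^ a') ∧ (∀ x, F'.degreeOf x ≤ δ') ∧
        ∀ y : Fin k × Option (Tri n) → ℂ, ∀ g : Fin k → Matrix (Fin n) (Fin n) ℂ,
          (∀ l, g l * (1 - Ji.map (algebraMap ℚ ℂ) * sy (fun p => y (l, some p))) =
            1 + Ji.map (algebraMap ℚ ℂ) * sy (fun p => y (l, some p))) →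
          MvPolynomial.eval y F' = (∏ l, (1 - Ji.map (algebraMap ℚ ℂ) * sy (fun p => y (l, some p))).det) ^ b *
            MvPolynomial.aeval (ptk θ (fun l => y (l, none)) fun l =>
              C l * (g l * ∑ i : Fin n, (y (l, none)) ^ (i : ℕ) • (N i).map (algebraMap ℚ ℂ)) * B l) F := by
  classical
  set b := n * n * δ with hb
  set A := 0 * δ + (n * n * (δ * (2 * a)) + b * (n * 0)) with hA
  set Δ := δ + (n * n * (δ * (1 + 2 * n)) + b * (n * 1)) with hΔ
  refine ⟨r * δ + k * A, k * Δ, b, ?_⟩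
  intro K W h1 θ hθ F hF C B hC hB Ji N
  let θ0 : Fin 0 → ℂ := fun i => i.elim0
  let f : Fin k → Option (Tri n) → Fin k × Option (Tri n) := fun l o => (l, o)
  have hf : ∀ l, Function.Injective (f l) := fun l x y h => (Prod.ext_iff.1 h).2
  let tm : ((Fin r ⊕ Fin k × Option (Fin n × Fin n)) →₀ ℕ) → MvPolynomial (Fin k × Option (Tri n)) ℂ := fun u =>
    MvPolynomial.C (algebraMap K ℂ (F.coeff u) * ∏ i, θ i ^ u (Sum.inl i)) *
      ∏ l, MvPolynomial.rename (f l) (term θ0 1 (gM (C l) (B l) Ji N) (Am Ji).det b (ul u l))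
  have htm : ∀ u ∈ F.support, Bd W (r * δ + k * A) (k * Δ) (tm u) := by
    intro u hu
    have hu' : ∀ x, u x ≤ δ := fun x => (MvPolynomial.monomial_le_degreeOf x hu).trans (hF x)
    have e1 : Bd (σ := Fin k × Option (Tri n)) W (0 + r * δ) 0
        (MvPolynomial.C (algebraMap K ℂ (F.coeff u) * ∏ i, θ i ^ u (Sum.inl i))) := by
      refine Bd.C ?_
      rw [pow_add]
      refine Submodule.mul_mem_mul (by rw [pow_zero, Submodule.mem_one]; exact ⟨_, rfl⟩) ?_
      have := prod_mem (W := W) (a := δ) Finset.univ (f := fun i => θ i ^ u (Sum.inl i)) fun i _ =>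
        pow_mono h1 (hu' (Sum.inl i)) (Submodule.pow_mem_pow W (hθ i) _)
      rwa [Finset.card_univ, Fintype.card_fin] at this
    have e2 := Bd.prod (W := W) Finset.univ
      (P := fun l => MvPolynomial.rename (f l) (term θ0 1 (gM (C l) (B l) Ji N) (Am Ji).det b (ul u l))) (a := A) (δ := Δ)
      fun l _ => bd_rename (hf l) (bd_term h1 (fun i : Fin 0 => i.elim0) (by
        rw [pow_zero, Submodule.mem_one]
        exact ⟨1, map_one _⟩) (bd_gM h1 (hC l) (hB l) Ji N) (bd_Am h1 Ji).det b (fun x => by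
        rcases x with i | o
        · exact i.elim0
        · exact hu' _))
    rw [Finset.card_univ, Fintype.card_fin] at e2
    have e3 := e1.mul e2
    rwa [Nat.zero_add, Nat.zero_add] at e3
  refine ⟨∑ u ∈ F.support, tm u, (Bd.sum _ htm).1, (Bd.sum _ htm).2, ?_⟩
  intro y g hg
  rw [map_sum, MvPolynomial.aeval_def, MvPolynomial.eval₂_eq', Finset.mul_sum]
  refine Finset.sum_congr rfl fun u hu => ?_
  have hev : ∀ l, MvPolynomial.eval y (MvPolynomial.rename (f l) (term θ0 1 (gM (C l) (B l) Ji N) (Am Ji).det b (ul u l))) =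
      (1 - Ji.map (algebraMap ℚ ℂ) * sy (fun p => y (l, some p))).det ^ b *
        (1 * ∏ x, (Sum.elim θ0 fun o : Option (Fin n × Fin n) => o.elim (y (l, none)) fun p =>
          (C l * (g l * ∑ i : Fin n, (y (l, none)) ^ (i : ℕ) • (N i).map (algebraMap ℚ ℂ)) * B l) p.1 p.2) x ^ ul u l x) := by
    intro l
    rw [MvPolynomial.eval_rename]
    refine ev_term θ0 1 _ _ b (ul u l) ?_ (y ∘ f l) _ ?_ _ (ev_gM (y ∘ f l) (C l) (B l) Ji N (g l) (hg l))
    · calc ∑ p : Fin n × Fin n, ul u l (Sum.inr (some p)) ≤ ∑ _p : Fin n × Fin n, δ :=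
            Finset.sum_le_sum fun p _ => (MvPolynomial.monomial_le_degreeOf (Sum.inr (l, some p)) hu).trans (hF _)
        _ = n * n * δ := by simp
    · rw [RingHom.map_det, RingHom.mapMatrix_apply, ev_Am]
      rfl
  show MvPolynomial.eval y (MvPolynomial.C (algebraMap K ℂ (F.coeff u) * ∏ i, θ i ^ u (Sum.inl i)) *
      ∏ l, MvPolynomial.rename (f l) (term θ0 1 (gM (C l) (B l) Ji N) (Am Ji).det b (ul u l))) = _
  rw [map_mul, map_prod, MvPolynomial.eval_C, Finset.prod_congr rfl (fun l _ => hev l), Finset.prod_mul_distrib,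
    Finset.prod_pow, Fintype.prod_sum_type, Fintype.prod_prod_type]
  have h5 : ∀ l, (1 * ∏ x, (Sum.elim θ0 fun o : Option (Fin n × Fin n) => o.elim (y (l, none)) fun p =>
          (C l * (g l * ∑ i : Fin n, (y (l, none)) ^ (i : ℕ) • (N i).map (algebraMap ℚ ℂ)) * B l) p.1 p.2) x ^ ul u l x) =
      ∏ o, ptk θ (fun l => y (l, none)) (fun l =>
        C l * (g l * ∑ i : Fin n, (y (l, none)) ^ (i : ℕ) • (N i).map (algebraMap ℚ ℂ)) * B l) (Sum.inr (l, o)) ^ u (Sum.inr (l, o)) := by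
    intro l
    rw [one_mul, Fintype.prod_sum_type, Finset.univ_eq_empty (α := Fin 0), Finset.prod_empty, one_mul]
    rfl
  rw [Finset.prod_congr rfl (fun l _ => h5 l)]
  have h6 : ∀ i, ptk θ (fun l => y (l, none)) (fun l =>
        C l * (g l * ∑ i : Fin n, (y (l, none)) ^ (i : ℕ) • (N i).map (algebraMap ℚ ℂ)) * B l) (Sum.inl i) = θ i := fun i => rfl
  simp only [h6]
  ring

end Pool.Agent.P8H40.CY
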