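import Pool.Agent.P8H40.CY.Main

/-!
# Project CY: density of the rational points
-/

set_option autoImplicit false

open Module

namespace Pool.Agent.P8H40.CY

open Pool.Agent.Y119.HY (QD Am Jm cm cm_apply cm_mul E QB)

variable {n : ℕ} {Q : Polynomial ℚ}

/-- the Cayley transform of a rational symmetric matrix -/
lemma cayley_rat {J S : Matrix (Fin n) (Fin n) ℚ} (hJs : J.transpose = -J) (hJd : J.det ≠ 0) (hS : S.transpose = S)
    (hd : (1 - J⁻¹ * S).det ≠ 0) : ∃ g : Matrix (Fin n) (Fin n) ℚ, g.transpose * J * g = J ∧ g * (1 - J⁻¹ * S) = 1 + J⁻¹ * S := by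
  set U := J⁻¹ * S with hU
  have hJi : J * J⁻¹ = 1 := Matrix.mul_nonsing_inv _ (Ne.isUnit hJd)
  have h1 : U.transpose * J = -(J * U) := by
    have h2 : (J⁻¹).transpose * J = -1 := by
      have h3 : (J * J⁻¹).transpose = 1 := by rw [hJi, Matrix.transpose_one]
      rw [Matrix.transpose_mul, hJs, Matrix.mul_neg] at h3
      rw [← h3, neg_neg]
    rw [hU, Matrix.transpose_mul, hS, Matrix.mul_assoc, h2, ← Matrix.mul_assoc, hJi, Matrix.one_mul, Matrix.mul_neg,
      Matrix.mul_one]
  have hA : (1 - U) * (1 - U)⁻¹ = 1 := Matrix.mul_nonsing_inv _ (Ne.isUnit hd)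
  have hA' : (1 - U)⁻¹ * (1 - U) = 1 := Matrix.nonsing_inv_mul _ (Ne.isUnit hd)
  have h3 : (1 + U).transpose * J * (1 + U) = J * ((1 - U) * (1 + U)) := by
    rw [Matrix.transpose_add, Matrix.transpose_one, Matrix.add_mul, Matrix.one_mul, h1]
    noncomm_ring
  have h4 : (1 - U).transpose * J * (1 - U) = J * ((1 - U) * (1 + U)) := by
    rw [Matrix.transpose_sub, Matrix.transpose_one, Matrix.sub_mul, Matrix.one_mul, h1]
    noncomm_ring
  refine ⟨(1 + U) * (1 - U)⁻¹, ?_, by rw [Matrix.mul_assoc, hA', Matrix.mul_one]⟩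
  calc ((1 + U) * (1 - U)⁻¹).transpose * J * ((1 + U) * (1 - U)⁻¹)
      = ((1 - U)⁻¹).transpose * ((1 + U).transpose * J * (1 + U)) * (1 - U)⁻¹ := by
        rw [Matrix.transpose_mul]
        simp only [Matrix.mul_assoc]
    _ = ((1 - U)⁻¹).transpose * ((1 - U).transpose * J * (1 - U)) * (1 - U)⁻¹ := by rw [h3, h4]
    _ = ((1 - U) * (1 - U)⁻¹).transpose * J * ((1 - U) * (1 - U)⁻¹) := by
        rw [Matrix.transpose_mul]
        simp only [Matrix.mul_assoc]
    _ = J := by rw [hA, Matrix.transpose_one, Matrix.one_mul, Matrix.mul_one]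

/-- a polynomial vanishing at the rational points of the group vanishes on the group -/
lemma rat_dense (hQ : QD n Q) {r : ℕ} {K : IntermediateField ℚ ℂ} (F : MvPolynomial (Fin r ⊕ Option (Fin n × Fin n)) K)
    (z : Fin r → ℂ) (P B : Matrix (Fin n) (Fin n) ℂ)
    (hrat : ∀ (L : ℚ) (g : Matrix (Fin n) (Fin n) ℚ), g.transpose * Jm n Q * g = Jm n Q →
      MvPolynomial.aeval (pt z (L : ℂ) (P * g.map (algebraMap ℚ ℂ) * B)) F = 0) :
    ∀ (L : ℂ) (g : Matrix (Fin n) (Fin n) ℂ), g.transpose * cm (Jm n Q) * g = cm (Jm n Q) →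
      MvPolynomial.aeval (pt z L (P * g * B)) F = 0 := by
  classical
  have hJs := Pool.Agent.Y119.HY.Jc_skew hQ
  have hJd := Pool.Agent.Y119.HY.Jc_det hQ
  set δ : ℕ := ∑ x, F.degreeOf x with hδ
  have hFδ : ∀ x, F.degreeOf x ≤ δ := fun x => Finset.single_le_sum (f := fun x => F.degreeOf x) (fun _ _ => Nat.zero_le _) (Finset.mem_univ x)
  obtain ⟨a', δ', b, hpol⟩ := Pool.Agent.P8H76.CY.pol n r δ 1
  set Ji := (Jm n Q)⁻¹ with hJi
  -- the matrices without exponential
  let N : Fin n → Matrix (Fin n) (Fin n) ℚ := fun i => if (i : ℕ) = 0 then 1 else 0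
  obtain ⟨F', -, -, hF'⟩ := hpol K ⊤ Submodule.mem_top z (fun _ => Submodule.mem_top) F hFδ P B
    (fun i j => by rw [pow_one]; exact Submodule.mem_top) (fun i j => by rw [pow_one]; exact Submodule.mem_top) Ji N
  have hN : ∀ L : ℂ, 0 < n → ∑ i : Fin n, L ^ (i : ℕ) • (N i).map (algebraMap ℚ ℂ) = 1 := by
    intro L hn
    rw [Finset.sum_eq_single (⟨0, hn⟩ : Fin n)]
    · show L ^ 0 • (if (0 : ℕ) = 0 then (1 : Matrix (Fin n) (Fin n) ℚ) else 0).map (algebraMap ℚ ℂ) = 1
      rw [if_pos rfl, pow_zero, one_smul, Matrix.map_one _ (map_zero _) (map_one _)]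
    · intro i _ hi
      have h1 : (i : ℕ) ≠ 0 := fun h => hi (Fin.ext h)
      show L ^ (i : ℕ) • (if (i : ℕ) = 0 then (1 : Matrix (Fin n) (Fin n) ℚ) else 0).map (algebraMap ℚ ℂ) = 0
      rw [if_neg h1, Matrix.map_zero _ (map_zero _), smul_zero]
    · intro h
      exact absurd (Finset.mem_univ _) h
  have hn : 0 < n := by
    have := hQ.two
    omega
  have hF2 : ∀ (y : Option (Tri n) → ℂ) (g : Matrix (Fin n) (Fin n) ℂ),
      (1 - Ji.map (algebraMap ℚ ℂ) * sy (fun p => y (some p))).det ≠ 0 →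
      g * (1 - Ji.map (algebraMap ℚ ℂ) * sy (fun p => y (some p))) = 1 + Ji.map (algebraMap ℚ ℂ) * sy (fun p => y (some p)) →
      MvPolynomial.eval y F' = (1 - Ji.map (algebraMap ℚ ℂ) * sy (fun p => y (some p))).det ^ b *
        MvPolynomial.aeval (pt z (y none) (P * g * B)) F := by
    intro y g h2 h3
    have h4 := hF' y g h2 h3
    rw [hN _ hn, Matrix.mul_one] at h4
    exact h4
  -- the determinant as a polynomial
  set Dp : MvPolynomial (Option (Tri n)) ℂ := (1 - (Ji.map (algebraMap ℚ ℂ)).map MvPolynomial.C *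
    sy (fun p => (MvPolynomial.X (some p) : MvPolynomial (Option (Tri n)) ℂ))).det with hDp
  have hDe : ∀ y : Option (Tri n) → ℂ, MvPolynomial.eval y Dp = (1 - Ji.map (algebraMap ℚ ℂ) * sy (fun p => y (some p))).det := by
    intro y
    rw [hDp, RingHom.map_det]
    congr 1
    rw [map_sub, map_one, map_mul]
    congr 2
    · ext i j
      simp
    · ext i j
      simp [sy]
  have hF0 : F' * Dp = 0 := by
    refine MvPolynomial.funext_set (fun _ => Set.range (algebraMap ℚ ℂ)) (fun _ => ?_) ?_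
    · exact Set.infinite_range_of_injective (algebraMap ℚ ℂ).injective
    · intro y hy
      choose yq hyq using fun o => hy o (Set.mem_univ o)
      rw [map_zero, map_mul, hDe]
      by_cases hd : (1 - Ji.map (algebraMap ℚ ℂ) * sy (fun p => y (some p))).det = 0
      · rw [hd, mul_zero]
      · have hsy : sy (fun p => y (some p)) = (sy (fun p => yq (some p))).map (algebraMap ℚ ℂ) := by
          ext i j
          simp [sy, ← hyq]
        have hmap : 1 - Ji.map (algebraMap ℚ ℂ) * sy (fun p => y (some p)) =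
            (1 - Ji * sy (fun p => yq (some p))).map (algebraMap ℚ ℂ) := by
          rw [hsy, Matrix.map_sub _ (map_sub _), Matrix.map_one _ (map_zero _) (map_one _), Matrix.map_mul]
        have hmap' : 1 + Ji.map (algebraMap ℚ ℂ) * sy (fun p => y (some p)) =
            (1 + Ji * sy (fun p => yq (some p))).map (algebraMap ℚ ℂ) := by
          rw [hsy, Matrix.map_add _ (map_add _), Matrix.map_one _ (map_zero _) (map_one _), Matrix.map_mul]
        have hdq : (1 - Ji * sy (fun p => yq (some p))).det ≠ 0 := by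
          intro h0
          apply hd
          rw [hmap]
          have h5 := (RingHom.map_det (algebraMap ℚ ℂ) (1 - Ji * sy (fun p => yq (some p)))).symm
          rw [h0, map_zero] at h5
          exact h5
        have hsymm : (sy (fun p => yq (some p)) : Matrix (Fin n) (Fin n) ℚ).transpose = sy (fun p => yq (some p)) := by
          ext i j
          simp only [sy, Matrix.transpose_apply, Matrix.of_apply, min_comm, max_comm]
        obtain ⟨g, hg1, hg2⟩ := cayley_rat (Pool.Agent.Y119.HY.Jm_skew hQ) (Pool.Agent.Y119.HY.Jm_det hQ) hsymm hdq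
        have h6 := hF2 y (g.map (algebraMap ℚ ℂ)) hd (by
          rw [hmap, hmap', ← Matrix.map_mul, hg2])
        have h7 := hrat (yq none) g hg1
        have h8 : ((yq none : ℚ) : ℂ) = y none := hyq none
        rw [h8] at h7
        rw [h6, h7, mul_zero, zero_mul]
  have hD0 : Dp ≠ 0 := by
    intro h0
    have h1 := hDe (fun _ => 0)
    rw [h0, map_zero] at h1
    have h2 : sy (fun _ : Tri n => (0 : ℂ)) = 0 := by
      ext i j
      rfl
    rw [h2, Matrix.mul_zero, sub_zero, Matrix.det_one] at h1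
    exact zero_ne_one h1
  have hF'0 : F' = 0 := (mul_eq_zero.1 hF0).resolve_right hD0
  intro L
  obtain ⟨f, hf⟩ := eval_f F z L P B
  have h5 := Pool.Agent.P8H52.CY.den n (cm (Jm n Q)) f hJs hJd (fun g'' hg'' hd'' => by
    rw [hf]
    obtain ⟨S'', hs'', hd3, hc3⟩ := Pool.Agent.P8H52.CY.cay n (cm (Jm n Q)) g'' hJs hJd hg'' hd''
    rw [cm_inv hQ] at hd3 hc3
    let y : Option (Tri n) → ℂ := fun o => o.elim L fun p => S'' p.1.1 p.1.2
    have hsy' : sy (fun p => y (some p)) = S'' := by
      ext i j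
      unfold sy
      rw [Matrix.of_apply]
      show S'' (min i j) (max i j) = S'' i j
      rcases le_total i j with h | h
      · rw [min_eq_left h, max_eq_right h]
      · rw [min_eq_right h, max_eq_left h]
        exact congrFun (congrFun hs'' i) j
    have h6 := hF2 y g'' (by rw [hsy']; exact hd3) (by rw [hsy']; exact hc3)
    rw [hF'0, map_zero, hsy'] at h6
    exact (mul_eq_zero.1 h6.symm).resolve_left (pow_ne_zero _ hd3))
  intro g hg
  rw [← hf]
  exact h5 g hg

end Pool.Agent.P8H40.CY
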