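import Pool.Agent.P8H40.CY.Clash3
import Pool.Agent.P8H93.CY.Eli
import Pool.Agent.P8H5.CY.Gre
import Pool.Agent.P8H40.SE.CovM

/-!
# Relations between the numbers at several points of a separated set, with arbitrary constants
-/

set_option autoImplicit false

open PowerSeries Module

namespace Pool.Agent.P8H40.CY

open Pool.Agent.Y124.TD Pool.Agent.Y124.TG Pool.Agent.Y120.GH Pool.Agent.Y124.TL Pool.Agent.P8H40.SE

/-- rescaling of the variables -/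
lemma rescale {τ : Type} [Fintype τ] (Q : MvPolynomial τ ℂ) (hQ : Q ≠ 0) (sc : τ → ℂ) (hsc : ∀ x, sc x ≠ 0) :
    ∃ F : MvPolynomial τ ℂ, F ≠ 0 ∧ (∀ u, F.coeff u = Q.coeff u * ∏ x, sc x ^ u x) ∧
      (∀ w : τ → ℂ, MvPolynomial.eval w F = MvPolynomial.eval (fun x => sc x * w x) Q) ∧
      ∀ (δ : ℕ), (∀ u, Q.coeff u ≠ 0 → ∀ x, u x ≤ δ) → ∀ x, F.degreeOf x ≤ δ := by
  classical
  set F : MvPolynomial τ ℂ := ∑ u ∈ Q.support, MvPolynomial.monomial u (Q.coeff u * ∏ x, sc x ^ u x) with hF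
  have hc : ∀ u, F.coeff u = Q.coeff u * ∏ x, sc x ^ u x := by
    intro u
    rw [hF, MvPolynomial.coeff_sum]
    simp only [MvPolynomial.coeff_monomial]
    rw [Finset.sum_ite_eq']
    split_ifs with h
    · rfl
    · rw [MvPolynomial.notMem_support_iff.1 h, zero_mul]
  refine ⟨F, ?_, hc, ?_, ?_⟩
  · obtain ⟨u, hu⟩ := MvPolynomial.ne_zero_iff.1 hQ
    refine MvPolynomial.ne_zero_iff.2 ⟨u, ?_⟩
    rw [hc]
    exact mul_ne_zero hu (Finset.prod_ne_zero_iff.2 fun x _ => pow_ne_zero _ (hsc x))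
  · intro w
    rw [hF, map_sum, MvPolynomial.eval_eq']
    refine Finset.sum_congr rfl fun u _ => ?_
    rw [MvPolynomial.eval_monomial, Finsupp.prod_fintype _ _ (fun x => pow_zero _), mul_assoc, ← Finset.prod_mul_distrib]
    simp only [mul_pow]
  · intro δ hδ x
    rw [MvPolynomial.degreeOf_le_iff]
    intro u hu
    refine hδ u ?_ x
    intro h
    have h2 := hc u
    rw [h, zero_mul] at h2
    exact (MvPolynomial.mem_support_iff.1 hu) h2

/-- **At most `r + 1` exceptions in every separated set** -/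
theorem sets {r₀ : ℕ} {T : Polynomial ℤ} {A : Fin r₀ → Fin r₀ → Polynomial ℤ} {h : Fin r₀ → PowerSeries ℚ} (hF : GF T A h)
    {V : Type} [Fintype V] (T₀ : V → Fin r₀) (hT : AlgebraicIndependent (Polynomial ℚ) (fun v => h (T₀ v))) {n : ℕ} (hn : 0 < n)
    (Y : ℕ → V → ℂ) (m₀ : ℕ)
    (hY : ∀ m : ℕ, m₀ ≤ m → ∀ v, ∃ ρ : ℂ, ρ ≠ 0 ∧ (∃ q : ℚ, ρ ^ n = q) ∧ hv h (m : ℝ) (T₀ v) = ρ * Y m v) :
    ∃ G : ℕ, 1 ≤ G ∧ ∀ k r δ D : ℕ, ∃ (c : ℝ) (M₀ : ℕ), 0 < c ∧ ∀ M : ℕ, M₀ ≤ M → ∀ θ : Fin r → ℂ,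
      ∀ Ts : Finset ℕ, (∀ t ∈ Ts, M ≤ t ∧ (t : ℝ) ≤ M + (M : ℝ) ^ c) →
      (∀ t ∈ Ts, ∀ t' ∈ Ts, t ≠ t' → (G : ℤ) ≤ |(t : ℤ) - t'|) →
      ∃ S : Finset ℕ, S ⊆ Ts ∧ S.card ≤ r + 1 ∧ ∀ m : Fin k → ℕ, Function.Injective m → (∀ l, m l ∈ Ts \ S) →
        ∀ (K : IntermediateField ℚ ℂ) [FiniteDimensional ℚ K], finrank ℚ K ≤ D →
          ∀ P : MvPolynomial (Fin r ⊕ Fin k × Option V) K, (∀ x, P.degreeOf x ≤ δ) →
            MvPolynomial.aeval (Sum.elim θ fun x => wl Y (m x.1) x.2) P = 0 → subst θ P = 0 := by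
  classical
  obtain ⟨G, hG1, hG⟩ := Pool.Agent.P8H5.CY.gre clt hF T₀ hT
  refine ⟨G, hG1, fun k r δ D => ?_⟩
  obtain ⟨a', δ', heli⟩ := Pool.Agent.P8H93.CY.eli (Option V) k (δ * r) δ
  set D' := D * n ^ (k * Fintype.card V) with hD'
  obtain ⟨c, M₁, hc, hmain⟩ := hG (Option V) (by rw [Fintype.card_option]) k r a' δ' 1 D'
  refine ⟨c, M₁ + m₀, hc, fun M hM θ Ts hTs hTsep => ?_⟩
  obtain ⟨S, hS, hSc, hSt⟩ := hmain M (by omega) θ (fun m => vals h T₀ m) (fun x _ K W h1 hw =>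
    ⟨1, one_ne_zero, by rw [pow_one]; exact h1, fun o => by rw [one_mul, pow_one]; exact hw o⟩) Ts hTs hTsep
  refine ⟨S, hS, hSc, fun m hinj hmT K _ hK P hP h0 => ?_⟩
  by_contra hne
  have hmM : ∀ l, M ≤ m l := fun l => (hTs (m l) (Finset.mem_sdiff.1 (hmT l)).1).1
  choose ρ hρ0 hρq hρ using fun x : Fin k × V => hY (m x.1) (by have := hmM x.1; omega) x.2
  obtain ⟨K₁, hKK₁, hfin, hrk, hρK⟩ := ext_field hn K (Finset.univ.image ρ) (by
    intro x hx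
    obtain ⟨y, -, rfl⟩ := Finset.mem_image.1 hx
    exact hρq y)
  have hcard : (Finset.univ.image ρ).card ≤ k * Fintype.card V := by
    refine Finset.card_image_le.trans ?_
    rw [Finset.card_univ, Fintype.card_prod, Fintype.card_fin]
  have hrk' : finrank ℚ K₁ ≤ D' := hrk.trans (Nat.mul_le_mul hK (Nat.pow_le_pow_right hn hcard))
  let sc : Fin k × Option V → ℂ := fun x => x.2.elim 1 fun v => (ρ (x.1, v))⁻¹
  have hsc : ∀ x, sc x ≠ 0 := by
    rintro ⟨l, o⟩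
    rcases o with _ | v
    · exact one_ne_zero
    · exact inv_ne_zero (hρ0 (l, v))
  have hscK : ∀ x, sc x ∈ K₁ := by
    rintro ⟨l, o⟩
    rcases o with _ | v
    · exact K₁.one_mem
    · exact K₁.inv_mem (hρK _ (Finset.mem_image_of_mem _ (Finset.mem_univ _)))
  obtain ⟨F, hF0, hFc, hFe, hFd⟩ := rescale (subst θ P) hne sc hsc
  have hev : MvPolynomial.eval (fun x : Fin k × Option V => vals h T₀ (m x.1) x.2) F = 0 := by
    rw [hFe]
    have h5 : (fun x : Fin k × Option V => sc x * vals h T₀ (m x.1) x.2) = fun x => wl Y (m x.1) x.2 := by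
      funext x
      obtain ⟨l, o⟩ := x
      rcases o with _ | v
      · show 1 * ((Real.log (m l) : ℝ) : ℂ) = ((Real.log (m l) : ℝ) : ℂ)
        rw [one_mul]
      · show (ρ (l, v))⁻¹ * hv h (m l : ℝ) (T₀ v) = Y (m l) v
        rw [hρ (l, v), ← mul_assoc, inv_mul_cancel₀ (hρ0 _), one_mul]
    rw [h5, subst_eval]
    exact h0
  obtain ⟨b, s, hbs, hdep⟩ := heli F hF0 (hFd δ fun u hu x => subst_degree θ P hP hu x) (fun l => vals h T₀ (m l)) hev
  refine hSt (m b) (hmT b) (s.image m) ?_ ?_ ?_ K₁ hfin hrk' ?_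
  · intro x hx
    obtain ⟨l, -, rfl⟩ := Finset.mem_image.1 hx
    exact hmT l
  · intro hx
    obtain ⟨l, hl, hlb⟩ := Finset.mem_image.1 hx
    exact hbs (hinj hlb ▸ hl)
  · refine Finset.card_image_le.trans ?_
    have := Finset.card_le_univ s
    rwa [Fintype.card_fin] at this
  · intro K' hKK' W h1 hz hC
    refine hdep K' W h1 (fun u => ?_) fun l hl x => hC (m l) (Finset.mem_image_of_mem _ hl) x
    rw [hFc]
    have h6 : ∏ x, sc x ^ u x ∈ K' := K'.prod_mem fun x _ => _root_.pow_mem (hKK' (hscK x)) _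
    have h7 : (subst θ P).coeff u * ∏ x, sc x ^ u x = ((⟨_, h6⟩ : K') : K') • (subst θ P).coeff u := by
      rw [Algebra.smul_def, mul_comm]
      rfl
    rw [h7]
    exact Submodule.smul_mem _ _ (subst_mem (hKK₁.trans hKK') θ P hP h1 hz u)

end Pool.Agent.P8H40.CY
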