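import Pool.Agent.P8H40.CY.Clash2
import Pool.Agent.P8H76.CY.Pol

/-!
# Project CY, second part: at most `r + 1` exceptional fibres in every separated set. Packages

A package is a theorem of the type `S_...` (later packages may assume earlier ones as hypotheses).
-/

set_option autoImplicit false

open Module

namespace Pool.Agent.P8H40.CY

open Pool.Agent.Y124.TD Pool.Agent.Y124.TG Pool.Agent.Y120.GH Pool.Agent.Y124.TL Pool.Agent.P8H40.SE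

/-- the numbers `w` satisfy a nonzero relation of degree at most `δ` with coefficients in `W ^ a` -/
def Rel {σ : Type} {K : IntermediateField ℚ ℂ} (W : Submodule K ℂ) (a δ : ℕ) (w : σ → ℂ) : Prop :=
  ∃ P : MvPolynomial σ ℂ, P ≠ 0 ∧ (∀ x, P.degreeOf x ≤ δ) ∧ (∀ u, P.coeff u ∈ W ^ a) ∧ MvPolynomial.eval w P = 0

/-- GRC (60 lines, for helper40). Induction on `s` (`Fin.cases`): the group `Y 0` by `Pool.Agent.P8H40.SE.gr_groups` for one group (the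
conversion of the polynomial as in `clash_k`), then the others with the new `W`. -/
def S_GRC : Prop := ∀ (σ : Type) [Fintype σ] (a δ s c e : ℕ), ∃ c' : ℕ, ∀ (K : IntermediateField ℚ ℂ) (W : Submodule K ℂ),
  (1 : ℂ) ∈ W → GR c e W → ∀ Y : Fin s → σ → ℂ,
    (∀ i, ∀ W' : Submodule K ℂ, W ≤ W' → (∀ j, j < i → ∀ x, Y j x ∈ W') → Rel W' a δ (Y i)) →
    ∃ W' : Submodule K ℂ, W ≤ W' ∧ (∀ i x, Y i x ∈ W') ∧ GR c' (e + s * (Fintype.card σ - 1)) W'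

/-- ELI (100 lines, pure algebra with the `Bd` calculus of `Pool.Agent.P8H76.CY.Pol`). For a finset `s` of `Fin k` let `F_s` be `F` with the variables `(l, x)`,
`l ∈ s`, replaced by `C (w l x)`. `F_∅ = F ≠ 0` and `F_univ = C (eval F) = 0`, so there are `s` and `b ∉ s` with `F_s ≠ 0` and
`F_(insert b s) = 0` (`Finset.induction_on`). Let `Φ = aeval φ : MvPolynomial (Fin k × σ) ℂ → MvPolynomial (Fin k × σ) (MvPolynomial σ ℂ)`,
`φ (l, x) = C (X x)` for `l = b`, `C (C (w l x))` for `l ∈ s`, `X (l, x)` otherwise. `Φ F ≠ 0`, since a ring homomorphism maps it to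
`F_s` (`X x` to `X (b, x)`), and `map (eval (w b)) (Φ F) = F_(insert b s) = 0`. Take a nonzero coefficient `P` of `Φ F`: `P ≠ 0`,
`eval (w b) P = 0`, and `P` has coefficients in `W ^ (a + k * card σ * δ)` and degrees at most `k * card σ * δ`: write
`F = ∑ v, coeff v * ∏ y, X y ^ v y`; all coefficients of `φ y` are `Bd W 1 1`. -/
def S_ELI : Prop := ∀ (σ : Type) [Fintype σ] (k a δ : ℕ), ∃ a' δ' : ℕ, ∀ F : MvPolynomial (Fin k × σ) ℂ, F ≠ 0 →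
  (∀ x, F.degreeOf x ≤ δ) → ∀ w : Fin k → σ → ℂ, MvPolynomial.eval (fun x => w x.1 x.2) F = 0 →
    ∃ (b : Fin k) (s : Finset (Fin k)), b ∉ s ∧ ∀ (K : IntermediateField ℚ ℂ) (W : Submodule K ℂ), (1 : ℂ) ∈ W →
      (∀ u, F.coeff u ∈ W ^ a) → (∀ l ∈ s, ∀ x, w l x ∈ W) → Rel W a' δ' (w b)

/-- the numbers `w x` are dependent over `θ` and the numbers `w c`, `c ∈ C` -/
def Dep {σ : Type} (w : ℕ → σ → ℂ) {r : ℕ} (θ : Fin r → ℂ) (a δ : ℕ) (K : IntermediateField ℚ ℂ) (x : ℕ) (C : Finset ℕ) : Prop :=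
  ∀ K' : IntermediateField ℚ ℂ, K ≤ K' → ∀ W : Submodule K' ℂ, (1 : ℂ) ∈ W → (∀ i, θ i ∈ W) → (∀ c ∈ C, ∀ j, w c j ∈ W) →
    Rel W a δ (w x)

/-- the values at `x` can be computed from the numbers `w x` -/
def Dom {r₀ : ℕ} {V : Type} (h : Fin r₀ → PowerSeries ℚ) (T₀ : V → Fin r₀) {σ : Type} (w : ℕ → σ → ℂ) (e : ℕ) (x : ℕ) : Prop :=
  ∀ (K : IntermediateField ℚ ℂ) (W : Submodule K ℂ), (1 : ℂ) ∈ W → (∀ j, w x j ∈ W) →
    ∃ p : ℂ, p ≠ 0 ∧ p ∈ W ^ e ∧ ∀ o, p * vals h T₀ x o ∈ W ^ e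

/-- CLT (100 lines, for helper40). -/
def S_CLT : Prop := ∀ {r₀ : ℕ} {T : Polynomial ℤ} {A : Fin r₀ → Fin r₀ → Polynomial ℤ} {h : Fin r₀ → PowerSeries ℚ}, GF T A h →
  ∀ {V : Type} [Fintype V] (T₀ : V → Fin r₀), AlgebraicIndependent (Polynomial ℚ) (fun v => h (T₀ v)) →
  ∃ R : ℕ, ∀ (σ : Type) [Fintype σ], Fintype.card σ = Fintype.card V + 1 → ∀ r a δ e D N₀ : ℕ, ∃ (c : ℝ) (M₀ : ℕ), 0 < c ∧
    ∀ M : ℕ, M₀ ≤ M → ∀ (θ : Fin r → ℂ) (u : Fin N₀ → ℕ) (b : Fin (r + 2) → ℕ),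
      (∀ x, M ≤ Sum.elim u b x ∧ ((Sum.elim u b x : ℕ) : ℝ) ≤ M + (M : ℝ) ^ c) →
      (∀ x y, x ≠ y → (R : ℤ) ≤ |((Sum.elim u b x : ℕ) : ℤ) - (Sum.elim u b y : ℕ)|) →
      ∀ (K : IntermediateField ℚ ℂ), FiniteDimensional ℚ K → finrank ℚ K ≤ D → ∀ w : ℕ → σ → ℂ, (∀ x, Dom h T₀ w e (Sum.elim u b x)) →
      ¬ ∀ i, ∀ W : Submodule K ℂ, (1 : ℂ) ∈ W → (∀ i, θ i ∈ W) → (∀ l j, w (u l) j ∈ W) → (∀ i', i' < i → ∀ j, w (b i') j ∈ W) →
        Rel W a δ (w (b i))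

/-- GRE (150 lines, combinatorics, from the hypothesis `S_CLT`). Take `G = R + 1`, the constants of `S_CLT` for `σ, r, a, δ, e`,
`D ^ (r + 2)` and all `N₀ ≤ (r + 2) k` (smallest `c`, largest `M₀`, `M₀ ≥ 1`: the window is smaller). For `j : ℕ` let `Q j` say that there are
`b : Fin j → ℕ`, `C : Fin j → Finset ℕ`, `F : Fin j → IntermediateField ℚ ℂ` (finite of degree `≤ D`) with `b i ∈ T`, `C i ⊆ T`,
`(C i).card ≤ k`, `b` injective, `b i' ∉ C i` for all `i' ≤ i`, and `Dep w θ a δ (F i) (b i) (C i)`. `Q 0` holds, `Q (r + 2)` does not: apply `S_CLT` to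
`b' i = b (Fin.rev i)`, an enumeration `u` of `U₀ = (⋃ i, C i) \ image b` (of at most `(r + 2) k` elements) and the field
containing all `F i` (`Pool.Agent.P8H40.SE.sup_field`): the elements of `C (rev i)` are in `U₀` or equal to `b' i'` with `i' < i`. Take the first
`j ≤ r + 1` with `Q j` and not `Q (j + 1)` (compare the end of `clusters_k` in `Clash2.lean`), and `E = image b`. If `x`, `C` were
a counterexample then `Fin.snoc b x`, `Fin.snoc C C` shows `Q (j + 1)`. -/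
def S_GRE : Prop := ∀ {r₀ : ℕ} {T : Polynomial ℤ} {A : Fin r₀ → Fin r₀ → Polynomial ℤ} {h : Fin r₀ → PowerSeries ℚ}, GF T A h →
  ∀ {V : Type} [Fintype V] (T₀ : V → Fin r₀), AlgebraicIndependent (Polynomial ℚ) (fun v => h (T₀ v)) →
  ∃ G : ℕ, 1 ≤ G ∧ ∀ (σ : Type) [Fintype σ], Fintype.card σ = Fintype.card V + 1 → ∀ k r a δ e D : ℕ, ∃ (c : ℝ) (M₀ : ℕ), 0 < c ∧
    ∀ M : ℕ, M₀ ≤ M → ∀ (θ : Fin r → ℂ) (w : ℕ → σ → ℂ), (∀ x, M ≤ x → Dom h T₀ w e x) →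
      ∀ T : Finset ℕ, (∀ t ∈ T, M ≤ t ∧ (t : ℝ) ≤ M + (M : ℝ) ^ c) →
      (∀ t ∈ T, ∀ t' ∈ T, t ≠ t' → (G : ℤ) ≤ |(t : ℤ) - t'|) →
      ∃ E : Finset ℕ, E ⊆ T ∧ E.card ≤ r + 1 ∧ ∀ x ∈ T \ E, ∀ C : Finset ℕ, C ⊆ T \ E → x ∉ C → C.card ≤ k →
        ∀ (K : IntermediateField ℚ ℂ), FiniteDimensional ℚ K → finrank ℚ K ≤ D → ¬ Dep w θ a δ K x C

end Pool.Agent.P8H40.CY
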