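import Pool.Agent.P8H40.CY.Stm

/-!
# Project CY, third part: the transcendence degree of the generic point of the torsor. Packages

Mathlib only (and `Pool.Agent.N108.SG.LvA`: `exists_indep`). A package is a theorem of the type `S_...`.
-/

set_option autoImplicit false

open Module

namespace Pool.Agent.P8H40.CY

/-- MAT (60 lines, Steinitz exchange, Mathlib `AlgebraicIndependent.matroid`: `matroid_indep_iff`, `matroid_closure_eq`). In the matroid `M`
of `ℂ` over `K` let `S = range L ∪ range x` (finite). Extend the independent set `range L` to a basis `I` of `S`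
(`Matroid.Indep.subset_isBasis_of_subset`). The independent set `range L ∪ range y` of `k + N` elements is contained in the closure of `S`, which is
the closure of `I`, so `I` has at least `k + N` elements (`Matroid.eRk`), at least `N` of them in `range x` and outside
`range L`. -/
def S_MAT : Prop := ∀ (K : IntermediateField ℚ ℂ) (k N : ℕ) (β : Type) [Fintype β] (L : Fin k → ℂ) (y : Fin N → ℂ) (x : β → ℂ),
  AlgebraicIndependent K (Sum.elim L y : Fin k ⊕ Fin N → ℂ) →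
  (∀ i, IsAlgebraic (Algebra.adjoin K (Set.range L ∪ Set.range x)) (y i)) →
    ∃ σ : Fin N → β, Function.Injective σ ∧ AlgebraicIndependent K (Sum.elim L (fun i => x (σ i)) : Fin k ⊕ Fin N → ℂ)

/-- REC (60 lines, matrices over a subfield `C`). `X = R⁻¹ (R X U) U⁻¹` has entries in `C` (adjugates), so has `ν h = X X₀⁻¹` (`X₀` is invertible, as
`X₀ᵀ J X₀` is). From `(ν h)ᵀ J (ν h) = ν² J` (`hᵀ J h = J` follows from `h (1 - J⁻¹ S) = 1 + J⁻¹ S`, see `cayley_rat` in
`Pool/Agent/P8H40/CY/Rat.lean` for the computation, or is the hypothesis given here) and a nonzero entry of `J` one gets `ν² ∈ C`, so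
`ν ∈ C`. Then `h` has entries in `C`, and `(h + 1) (1 - J⁻¹ S) = 2`, so `h + 1` is invertible, `1 - J⁻¹ S = 2 (h + 1)⁻¹` and `S` have entries
in `C`. -/
def S_REC : Prop := ∀ (n : ℕ), 0 < n → ∀ (C : Subfield ℂ), (∀ z : ℂ, z ^ 2 ∈ C → z ∈ C) →
  ∀ (J X₀ : Matrix (Fin n) (Fin n) ℚ), J.det ≠ 0 → (X₀.transpose * J * X₀).det ≠ 0 → ∀ (R U S h : Matrix (Fin n) (Fin n) ℂ) (ν : ℂ),
    (∀ i j, R i j ∈ C) → (∀ i j, U i j ∈ C) → R.det ≠ 0 → U.det ≠ 0 → ν ≠ 0 →
    (1 - (J⁻¹).map (algebraMap ℚ ℂ) * S).det ≠ 0 →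
    h * (1 - (J⁻¹).map (algebraMap ℚ ℂ) * S) = 1 + (J⁻¹).map (algebraMap ℚ ℂ) * S →
    h.transpose * J.map (algebraMap ℚ ℂ) * h = J.map (algebraMap ℚ ℂ) →
    (∀ i j, (R * (ν • (h * X₀.map (algebraMap ℚ ℂ))) * U) i j ∈ C) → ν ∈ C ∧ ∀ i j, S i j ∈ C

/-- GEN (120 lines, from the hypothesis `S_REC`). By `exists_indep` (`Pool.Agent.N108.SG.LvA`) and `AlgebraicIndependent.extendScalars` (`K` is algebraic over
`ℚ`) there are numbers `L l`, `y₀ (l, p)` (`p : Tri n`; `Tri n` has `n (n + 1) / 2` elements) and `ν`, algebraically independent over `K`. Let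
`S l = sy (y₀ (l, ·))`; `det (1 - (J l)⁻¹ S l)` is the value at `y₀ (l, ·)` of a polynomial which is `1` at zero, so it is not zero. Let
`h l = (1 + (J l)⁻¹ S l) (1 - (J l)⁻¹ S l)⁻¹` (`hᵀ J h = J`), `X l = ν h X₀`, `μ = ν²`. `C` is the relative algebraic closure in `ℂ` of the
algebra generated by the `L l` and the entries of the `R l X l U l` (a subfield; closed under square roots). -/
def S_GEN : Prop := ∀ (n k : ℕ), 0 < n → 0 < k → ∀ (K : IntermediateField ℚ ℂ), FiniteDimensional ℚ K →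
  ∀ (J : Fin k → Matrix (Fin n) (Fin n) ℚ) (Jl : Matrix (Fin n) (Fin n) ℚ), (∀ l, (J l).transpose = -J l) → (∀ l, (J l).det ≠ 0) →
    Jl.det ≠ 0 → (∀ l, ∃ X : Matrix (Fin n) (Fin n) ℚ, X.transpose * J l * X = Jl) →
  ∀ (R U : Fin k → Matrix (Fin n) (Fin n) K), (∀ l, (R l).det ≠ 0) → (∀ l, (U l).det ≠ 0) →
    ∃ (μ : ℂ) (L : Fin k → ℂ) (X : Fin k → Matrix (Fin n) (Fin n) ℂ) (y : Fin (k * (n * (n + 1) / 2) + 1) → ℂ), μ ≠ 0 ∧
      (∀ l, (X l).transpose * (J l).map (algebraMap ℚ ℂ) * X l = μ • Jl.map (algebraMap ℚ ℂ)) ∧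
      AlgebraicIndependent K (Sum.elim L y : Fin k ⊕ Fin (k * (n * (n + 1) / 2) + 1) → ℂ) ∧
      ∀ i, IsAlgebraic (Algebra.adjoin K (Set.range L ∪ Set.range fun p : Fin k × Fin n × Fin n =>
        ((R p.1).map (algebraMap K ℂ) * X p.1 * (U p.1).map (algebraMap K ℂ)) p.2.1 p.2.2)) (y i)

end Pool.Agent.P8H40.CY
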