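import Pool.Agent.P8H40.CY.Stm3
import Pool.Agent.P8H40.CY.Gsp

/-!
# Project CY: the transcendence degree in bounded degree
-/

set_option autoImplicit false

open Module

namespace Pool.Agent.P8H40.CY

variable {n k : ℕ}

/-- relations which hold at a generic point are trivial -/
theorem trd (hMAT : S_MAT) (hGEN : S_GEN) (hn : 0 < n) (hk : 0 < k) {δ : ℕ} {K : IntermediateField ℚ ℂ} [FiniteDimensional ℚ K]
    {J : Fin k → Matrix (Fin n) (Fin n) ℚ} {Jl : Matrix (Fin n) (Fin n) ℚ} (hJs : ∀ l, (J l).transpose = -J l)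
    (hJd : ∀ l, (J l).det ≠ 0) (hJl : Jl.det ≠ 0) (hX : ∀ l, ∃ X : Matrix (Fin n) (Fin n) ℚ, X.transpose * J l * X = Jl)
    (R U : Fin k → Matrix (Fin n) (Fin n) K) (hR : ∀ l, (R l).det ≠ 0) (hU : ∀ l, (U l).det ≠ 0)
    (ℓ : Fin k → ℂ) (P : Fin k → Matrix (Fin n) (Fin n) ℂ)
    (hrel : ∀ F : MvPolynomial (Fin k × Option (Fin n × Fin n)) K, (∀ x, F.degreeOf x ≤ δ) → MvPolynomial.aeval (px ℓ P) F = 0 →
      ∀ μ : ℂ, μ ≠ 0 → ∀ (L : Fin k → ℂ) (X : Fin k → Matrix (Fin n) (Fin n) ℂ),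
        (∀ l, (X l).transpose * (J l).map (algebraMap ℚ ℂ) * X l = μ • Jl.map (algebraMap ℚ ℂ)) →
        MvPolynomial.aeval (px L fun l => (R l).map (algebraMap K ℂ) * X l * (U l).map (algebraMap K ℂ)) F = 0) :
    ∃ σ : Fin (k * (n * (n + 1) / 2) + 1) → Fin k × Fin n × Fin n, Function.Injective σ ∧
      ∀ Q : MvPolynomial (Fin k ⊕ Fin (k * (n * (n + 1) / 2) + 1)) K, (∀ x, Q.degreeOf x ≤ δ) →
        MvPolynomial.aeval (Sum.elim ℓ fun i => P (σ i).1 (σ i).2.1 (σ i).2.2) Q = 0 → Q = 0 := by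
  classical
  obtain ⟨μ, L, X, y, hμ, hXt, hind, halg⟩ := hGEN n k hn hk K inferInstance J Jl hJs hJd hJl hX R U hR hU
  obtain ⟨σ, hσ, hσi⟩ := hMAT K k _ (Fin k × Fin n × Fin n) L y _ hind halg
  refine ⟨σ, hσ, fun Q hQ h0 => ?_⟩
  let f : Fin k ⊕ Fin (k * (n * (n + 1) / 2) + 1) → Fin k × Option (Fin n × Fin n) :=
    Sum.elim (fun l => (l, none)) fun i => ((σ i).1, some (σ i).2)
  have hf : Function.Injective f := by
    rintro (l | i) (l' | i') h
    · have h1 : ((l, none) : Fin k × Option (Fin n × Fin n)) = (l', none) := h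
      have h2 : l = l' := (Prod.ext_iff.1 h1).1
      rw [h2]
    · have h1 : ((l, none) : Fin k × Option (Fin n × Fin n)) = ((σ i').1, some (σ i').2) := h
      exact absurd (Prod.ext_iff.1 h1).2 (by simp)
    · have h1 : (((σ i).1, some (σ i).2) : Fin k × Option (Fin n × Fin n)) = (l', none) := h
      exact absurd (Prod.ext_iff.1 h1).2 (by simp)
    · have h1 : (((σ i).1, some (σ i).2) : Fin k × Option (Fin n × Fin n)) = ((σ i').1, some (σ i').2) := h
      have h2 := Prod.ext_iff.1 h1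
      have h3 : σ i = σ i' := Prod.ext h2.1 (Option.some_injective _ h2.2)
      rw [hσ h3]
  have hev : ∀ (L' : Fin k → ℂ) (P' : Fin k → Matrix (Fin n) (Fin n) ℂ), MvPolynomial.aeval (px L' P') (MvPolynomial.rename f Q) =
      MvPolynomial.aeval (Sum.elim L' fun i => P' (σ i).1 (σ i).2.1 (σ i).2.2) Q := by
    intro L' P'
    rw [MvPolynomial.aeval_rename]
    congr 2
    funext x
    rcases x with l | i <;> rfl
  have h1 := hrel (MvPolynomial.rename f Q) (degreeOf_rename_le hf hQ) (by rw [hev]; exact h0) μ hμ L X hXt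
  rw [hev] at h1
  exact (algebraicIndependent_iff.1 hσi) Q h1

end Pool.Agent.P8H40.CY
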